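import Mathlib

/-!
Kähler differentials of a field extension in characteristic zero: for a transcendence basis `y`
the differentials `D (y i)` form a basis; coordinates, Jacobians, chain rule, functoriality.
-/

set_option linter.style.haveILetI false

open KaehlerDifferential Module

namespace Pf72953

universe u

section basis

variable {k K ι : Type*} [Field k] [CharZero k] [Field K] [Algebra k K]

omit [CharZero k] in
/-- `k(y)` is formally étale over `k[X]`. -/
theorem formallyEtale_adjoin {y : ι → K} (hy : AlgebraicIndependent k y) :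
    letI : Algebra (MvPolynomial ι k) (IntermediateField.adjoin k (Set.range y)) :=
      ((hy.aevalEquivField.toAlgHom.comp
        (IsScalarTower.toAlgHom k (MvPolynomial ι k) (FractionRing (MvPolynomial ι k))))).toAlgebra
    Algebra.FormallyEtale (MvPolynomial ι k) (IntermediateField.adjoin k (Set.range y)) := by
  letI alg : Algebra (MvPolynomial ι k) (IntermediateField.adjoin k (Set.range y)) :=
    ((hy.aevalEquivField.toAlgHom.comp
      (IsScalarTower.toAlgHom k (MvPolynomial ι k) (FractionRing (MvPolynomial ι k))))).toAlgebra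
  let e : FractionRing (MvPolynomial ι k) ≃ₐ[MvPolynomial ι k]
      IntermediateField.adjoin k (Set.range y) :=
    { hy.aevalEquivField.toRingEquiv with
      commutes' := fun r => rfl }
  haveI : Algebra.FormallyEtale (MvPolynomial ι k) (FractionRing (MvPolynomial ι k)) :=
    Algebra.FormallyEtale.of_isLocalization (nonZeroDivisors _)
  exact Algebra.FormallyEtale.of_equiv e

theorem formallyEtale_of_isTranscendenceBasis {y : ι → K} (hy : IsTranscendenceBasis k y) :
    letI : Algebra (MvPolynomial ι k) K := (MvPolynomial.aeval y).toAlgebra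
    Algebra.FormallyEtale (MvPolynomial ι k) K := by
  letI algK : Algebra (MvPolynomial ι k) K := (MvPolynomial.aeval y).toAlgebra
  letI alg : Algebra (MvPolynomial ι k) (IntermediateField.adjoin k (Set.range y)) :=
    ((hy.1.aevalEquivField.toAlgHom.comp
      (IsScalarTower.toAlgHom k (MvPolynomial ι k) (FractionRing (MvPolynomial ι k))))).toAlgebra
  haveI := formallyEtale_adjoin hy.1
  haveI : IsScalarTower (MvPolynomial ι k) (IntermediateField.adjoin k (Set.range y)) K := by
    refine IsScalarTower.of_algebraMap_eq fun p => ?_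
    change MvPolynomial.aeval y p = ((hy.1.aevalEquivField (algebraMap _ _ p) :
      IntermediateField.adjoin k (Set.range y)) : K)
    rw [AlgebraicIndependent.aevalEquivField_algebraMap_apply_coe]
  haveI := hy.isAlgebraic_field
  haveI : Algebra.FormallyEtale (IntermediateField.adjoin k (Set.range y)) K :=
    Algebra.FormallyEtale.of_isSeparable _ _
  exact Algebra.FormallyEtale.comp _ (IntermediateField.adjoin k (Set.range y)) _

/-- The basis `D (y i)` of `Ω[K⁄k]` attached to a transcendence basis `y`. -/
noncomputable def dBasis {y : ι → K} (hy : IsTranscendenceBasis k y) : Basis ι K Ω[K⁄k] :=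
  letI : Algebra (MvPolynomial ι k) K := (MvPolynomial.aeval y).toAlgebra
  haveI := formallyEtale_of_isTranscendenceBasis hy
  haveI : IsScalarTower k (MvPolynomial ι k) K :=
    IsScalarTower.of_algebraMap_eq fun c => by
      change _ = MvPolynomial.aeval y (MvPolynomial.C c)
      simp
  IsBaseChange.basis (mvPolynomialBasis k ι)
    (KaehlerDifferential.isBaseChange_of_formallyEtale k (MvPolynomial ι k) K)

theorem dBasis_apply {y : ι → K} (hy : IsTranscendenceBasis k y) (i : ι) :
    dBasis hy i = D k K (y i) := by
  letI : Algebra (MvPolynomial ι k) K := (MvPolynomial.aeval y).toAlgebra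
  haveI := formallyEtale_of_isTranscendenceBasis hy
  haveI : IsScalarTower k (MvPolynomial ι k) K :=
    IsScalarTower.of_algebraMap_eq fun c => by
      change _ = MvPolynomial.aeval y (MvPolynomial.C c)
      simp
  have h1 : dBasis hy i = KaehlerDifferential.map k k (MvPolynomial ι k) K
      (mvPolynomialBasis k ι i) := by
    unfold dBasis
    rw [IsBaseChange.basis_apply]
  rw [h1, mvPolynomialBasis_apply, KaehlerDifferential.map_D]
  congr 1
  change MvPolynomial.aeval y (MvPolynomial.X i) = y i
  simp

end basis

section jac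

variable {k K ι : Type*} [Field k] [CharZero k] [Field K] [Algebra k K]

/-- The partial derivation `∂/∂y_i`. -/
noncomputable def pd {y : ι → K} (hy : IsTranscendenceBasis k y) (i : ι) : Derivation k K K :=
  ((dBasis hy).coord i).compDer (D k K)

theorem pd_apply {y : ι → K} (hy : IsTranscendenceBasis k y) (i : ι) (a : K) :
    pd hy i a = (dBasis hy).repr (D k K a) i := rfl

theorem pd_self [DecidableEq ι] {y : ι → K} (hy : IsTranscendenceBasis k y) (i j : ι) :
    pd hy i (y j) = if i = j then 1 else 0 := by
  rw [pd_apply, ← dBasis_apply hy j, Basis.repr_self, Finsupp.single_apply]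
  simp [eq_comm]

theorem D_eq_sum [Fintype ι] {y : ι → K} (hy : IsTranscendenceBasis k y) (a : K) :
    D k K a = ∑ i, pd hy i a • D k K (y i) := by
  conv_lhs => rw [← (dBasis hy).sum_repr (D k K a)]
  simp only [dBasis_apply, pd_apply]

/-- `∂/∂y_i` is determined by its values on a transcendence basis: comparison for a subfield. -/
theorem pd_algebraMap {L κ : Type*} [Field L] [Algebra k L] [Algebra K L] [IsScalarTower k K L]
    [Fintype ι] {y : ι → K} (hy : IsTranscendenceBasis k y)
    {z : κ → L} (hz : IsTranscendenceBasis k z) (e : ι → κ) (he : Function.Injective e)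
    (hyz : ∀ i, z (e i) = algebraMap K L (y i)) (i : ι) (a : K) :
    pd hz (e i) (algebraMap K L a) = algebraMap K L (pd hy i a) := by
  classical
  have h1 : D k L (algebraMap K L a) = ∑ i, algebraMap K L (pd hy i a) • D k L (z (e i)) := by
    rw [← KaehlerDifferential.map_D k k K L, D_eq_sum hy a, map_sum]
    refine Finset.sum_congr rfl fun i _ => ?_
    rw [LinearMap.map_smul, KaehlerDifferential.map_D, hyz i, algebraMap_smul]
  rw [pd_apply, h1, map_sum, Finsupp.finset_sum_apply]
  simp only [← dBasis_apply hz, map_smul, Basis.repr_self, Finsupp.smul_apply,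
    Finsupp.single_apply, smul_eq_mul, mul_ite, mul_one, mul_zero]
  rw [Finset.sum_eq_single i]
  · simp
  · intro j _ hj
    rw [if_neg]
    intro h
    exact hj (he h)
  · simp

theorem pd_algebraMap_of_notMem {L κ : Type*} [Field L] [Algebra k L] [Algebra K L]
    [IsScalarTower k K L] [Fintype ι] {y : ι → K} (hy : IsTranscendenceBasis k y)
    {z : κ → L} (hz : IsTranscendenceBasis k z) (e : ι → κ)
    (hyz : ∀ i, z (e i) = algebraMap K L (y i)) (j : κ) (hj : ∀ i, e i ≠ j) (a : K) :
    pd hz j (algebraMap K L a) = 0 := by
  classical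
  have h1 : D k L (algebraMap K L a) = ∑ i, algebraMap K L (pd hy i a) • D k L (z (e i)) := by
    rw [← KaehlerDifferential.map_D k k K L, D_eq_sum hy a, map_sum]
    refine Finset.sum_congr rfl fun i _ => ?_
    rw [LinearMap.map_smul, KaehlerDifferential.map_D, hyz i, algebraMap_smul]
  rw [pd_apply, h1, map_sum, Finsupp.finset_sum_apply]
  simp only [← dBasis_apply hz, map_smul, Basis.repr_self, Finsupp.smul_apply,
    Finsupp.single_apply, smul_eq_mul, mul_ite, mul_one, mul_zero]
  refine Finset.sum_eq_zero fun i _ => ?_
  rw [if_neg (hj i)]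

variable [Fintype ι] [DecidableEq ι]

/-- The Jacobian `∂(a)/∂(y)`. -/
noncomputable def jac {y : ι → K} (hy : IsTranscendenceBasis k y) (a : ι → K) : K :=
  (dBasis hy).det (fun i => D k K (a i))

theorem jac_eq_det {y : ι → K} (hy : IsTranscendenceBasis k y) (a : ι → K) :
    jac hy a = Matrix.det (Matrix.of fun i j => pd hy i (a j)) := rfl

theorem jac_self {y : ι → K} (hy : IsTranscendenceBasis k y) : jac hy y = 1 := by
  have : (fun i => D k K (y i)) = dBasis hy := by
    funext i; rw [dBasis_apply]
  rw [jac, this, Basis.det_self]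

theorem jac_chain {y z : ι → K} (hy : IsTranscendenceBasis k y) (hz : IsTranscendenceBasis k z)
    (a : ι → K) : jac hz a = jac hz y * jac hy a := by
  have h := AlternatingMap.eq_smul_basis_det (dBasis hy) (dBasis hz).det
  have h2 := congrArg (fun f => f (fun i => D k K (a i))) h
  have : (fun i => D k K (y i)) = dBasis hy := by
    funext i; rw [dBasis_apply]
  simp only [AlternatingMap.smul_apply, smul_eq_mul] at h2
  rw [jac, jac, jac, this]
  exact h2

theorem jac_mul_jac {y z : ι → K} (hy : IsTranscendenceBasis k y)
    (hz : IsTranscendenceBasis k z) : jac hz y * jac hy z = 1 := by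
  rw [← jac_chain, jac_self]

theorem jac_ne_zero {y z : ι → K} (hy : IsTranscendenceBasis k y)
    (hz : IsTranscendenceBasis k z) : jac hz y ≠ 0 :=
  left_ne_zero_of_mul_eq_one (jac_mul_jac hy hz)

theorem jac_algebraMap {L : Type*} [Field L] [Algebra k L] [Algebra K L]
    [IsScalarTower k K L] {y : ι → K} (hy : IsTranscendenceBasis k y)
    (hz : IsTranscendenceBasis k (fun i => algebraMap K L (y i))) (a : ι → K) :
    jac hz (fun i => algebraMap K L (a i)) = algebraMap K L (jac hy a) := by
  rw [jac_eq_det, jac_eq_det, RingHom.map_det]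
  congr 1
  ext i j
  simp only [Matrix.of_apply, RingHom.mapMatrix_apply, Matrix.map_apply]
  exact pd_algebraMap hy hz id Function.injective_id (fun _ => rfl) i (a j)

/-- Reindexing. -/
theorem jac_reindex {κ : Type*} [Fintype κ] [DecidableEq κ] (e : κ ≃ ι)
    {y : ι → K} (hy : IsTranscendenceBasis k y) (hye : IsTranscendenceBasis k (y ∘ e))
    (a : ι → K) : jac hye (a ∘ e) = jac hy a := by
  rw [jac_eq_det, jac_eq_det, ← Matrix.det_submatrix_equiv_self e]
  congr 1
  ext i j
  simp only [Matrix.submatrix_apply, Matrix.of_apply, Function.comp_apply]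
  have := pd_algebraMap (L := K) hye hy e e.injective (fun _ => rfl) i (a (e j))
  simpa using this.symm

/-- Jacobian of a block family. -/
theorem jac_sum {ιF B F L : Type*} [Fintype ιF] [DecidableEq ιF] [Field B] [Field F] [Field L]
    [Algebra k B] [Algebra k F] [Algebra k L] [Algebra B L] [Algebra F L] [IsScalarTower k B L]
    [IsScalarTower k F L] {x : ι → B} (hx : IsTranscendenceBasis k x)
    {y : ιF → F} (hy : IsTranscendenceBasis k y)
    (hz : IsTranscendenceBasis k
      (Sum.elim (fun i => algebraMap B L (x i)) (fun j => algebraMap F L (y j))))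
    (a : ι → B) (c : ιF → F) :
    jac hz (Sum.elim (fun i => algebraMap B L (a i)) (fun j => algebraMap F L (c j))) =
      algebraMap B L (jac hx a) * algebraMap F L (jac hy c) := by
  rw [jac_eq_det, jac_eq_det, jac_eq_det, RingHom.map_det, RingHom.map_det]
  have : (Matrix.of fun i j => pd hz i
      ((Sum.elim (fun i => algebraMap B L (a i)) (fun j => algebraMap F L (c j))) j)) =
      Matrix.fromBlocks ((algebraMap B L).mapMatrix (Matrix.of fun i j => pd hx i (a j))) 0 0
        ((algebraMap F L).mapMatrix (Matrix.of fun i j => pd hy i (c j))) := by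
    ext i j
    rcases i with i | i <;> rcases j with j | j
    · simp only [Matrix.of_apply, Sum.elim_inl, Matrix.fromBlocks_apply₁₁,
        RingHom.mapMatrix_apply, Matrix.map_apply]
      exact pd_algebraMap hx hz Sum.inl Sum.inl_injective (fun _ => rfl) i (a j)
    · simp only [Matrix.of_apply, Sum.elim_inr, Matrix.fromBlocks_apply₁₂, Matrix.zero_apply]
      exact pd_algebraMap_of_notMem hy hz Sum.inr (fun _ => rfl) (Sum.inl i)
        (fun _ h => by cases h) (c j)
    · simp only [Matrix.of_apply, Sum.elim_inl, Matrix.fromBlocks_apply₂₁, Matrix.zero_apply]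
      exact pd_algebraMap_of_notMem hx hz Sum.inl (fun _ => rfl) (Sum.inr i)
        (fun _ h => by cases h) (a j)
    · simp only [Matrix.of_apply, Sum.elim_inr, Matrix.fromBlocks_apply₂₂,
        RingHom.mapMatrix_apply, Matrix.map_apply]
      exact pd_algebraMap hy hz Sum.inr Sum.inr_injective (fun _ => rfl) i (c j)
  rw [this, Matrix.det_fromBlocks_zero₂₁]

end jac

end Pf72953
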