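import Mathlib
import Pool.Agent.Lib.Pf72953.DBasis

/-!
Bases of differentials adapted to a valuation: logarithmic bases and regular bases.
-/

set_option linter.style.haveILetI false

open scoped WithZero

namespace Pf72953

section

variable {k K ι : Type*} [Field k] [CharZero k] [Field K] [Algebra k K]

/-- `c` is a logarithmic basis for `w`: `w (c_i ∂_i a) ≤ w a` for all `a`. -/
structure LogBasis (k : Type*) {K ι : Type*} [Field k] [CharZero k] [Field K] [Algebra k K]
    (w : Valuation K ℤᵐ⁰) (c : ι → K) : Prop where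
  tb : IsTranscendenceBasis k c
  der : ∀ i a, w (c i * pd tb i a) ≤ w a

/-- `c` is a regular basis for `w`: `c_i ∈ O_w` and `∂_i O_w ⊆ O_w`. -/
structure RegBasis (k : Type*) {K ι : Type*} [Field k] [CharZero k] [Field K] [Algebra k K]
    (w : Valuation K ℤᵐ⁰) (c : ι → K) : Prop where
  tb : IsTranscendenceBasis k c
  le_one : ∀ i, w (c i) ≤ 1
  der : ∀ i a, w a ≤ 1 → w (pd tb i a) ≤ 1

variable [Fintype ι] [DecidableEq ι] {w : Valuation K ℤᵐ⁰}

/-- logarithmic volume bound -/
theorem LogBasis.jac_le {c : ι → K} (hc : LogBasis k w c) (a : ι → K) :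
    w (jac hc.tb a) * ∏ i, w (c i) ≤ ∏ i, w (a i) := by
  rw [jac_eq_det, ← map_prod, ← map_mul, Matrix.det_apply, Finset.sum_mul]
  refine Valuation.map_sum_le _ fun σ _ => ?_
  rw [Units.smul_def, zsmul_eq_mul, mul_assoc, map_mul]
  refine (mul_le_mul' (b := 1) ?_ le_rfl).trans ?_
  · rcases Int.units_eq_one_or (Equiv.Perm.sign σ) with h | h <;> simp [h, Valuation.map_neg]
  rw [one_mul, ← Equiv.prod_comp σ c, ← Finset.prod_mul_distrib, map_prod]
  refine Finset.prod_le_prod' fun i _ => ?_
  rw [Matrix.of_apply, mul_comm]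
  exact hc.der _ _

theorem RegBasis.jac_le {c : ι → K} (hc : RegBasis k w c) (a : ι → K) (ha : ∀ i, w (a i) ≤ 1) :
    w (jac hc.tb a) ≤ 1 := by
  rw [jac_eq_det, Matrix.det_apply]
  refine Valuation.map_sum_le _ fun σ _ => ?_
  rw [Units.smul_def, zsmul_eq_mul, map_mul]
  refine mul_le_one' ?_ ?_
  · rcases Int.units_eq_one_or (Equiv.Perm.sign σ) with h | h <;> simp [h, Valuation.map_neg]
  rw [map_prod]
  exact Finset.prod_le_one' fun i _ => hc.der _ _ (ha i)

/-- the logarithmic volume does not depend on the logarithmic basis -/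
theorem LogBasis.vol_eq {c c' : ι → K} (hc : LogBasis k w c) (hc' : LogBasis k w c')
    (a : ι → K) :
    w (jac hc.tb a) * ∏ i, w (c i) = w (jac hc'.tb a) * ∏ i, w (c' i) := by
  have key : ∀ {c c' : ι → K} (hc : LogBasis k w c) (hc' : LogBasis k w c'),
      w (jac hc.tb a) * ∏ i, w (c i) ≤ w (jac hc'.tb a) * ∏ i, w (c' i) := by
    intro c c' hc hc'
    rw [jac_chain hc'.tb hc.tb a, map_mul, mul_comm (w (jac hc.tb c')), mul_assoc]
    gcongr
    exact hc.jac_le c'
  exact le_antisymm (key hc hc') (key hc' hc)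

variable {κ B F L : Type*} [Fintype κ] [DecidableEq κ] [Field B] [Field F] [Field L]
    [Algebra k B] [Algebra k F] [Algebra k L] [Algebra B L] [Algebra F L] [IsScalarTower k B L]
    [IsScalarTower k F L]

theorem LogBasis.prod_le {w : Valuation L ℤᵐ⁰} {cB : ι → B} {cF : κ → F} {cL : ι ⊕ κ → L}
    (hB : LogBasis k (w.comap (algebraMap B L)) cB)
    (hF : LogBasis k (w.comap (algebraMap F L)) cF) (hL : LogBasis k w cL)
    (hBF : IsTranscendenceBasis k
      (Sum.elim (fun i => algebraMap B L (cB i)) (fun j => algebraMap F L (cF j))))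
    (x : ι → B) (y : κ → F) :
    w (jac hL.tb (Sum.elim (fun i => algebraMap B L (x i)) (fun j => algebraMap F L (y j)))) *
      ∏ i, w (cL i) ≤
    (w (algebraMap B L (jac hB.tb x)) * ∏ i, w (algebraMap B L (cB i))) *
      (w (algebraMap F L (jac hF.tb y)) * ∏ i, w (algebraMap F L (cF i))) := by
  have h1 := jac_chain hBF hL.tb
    (Sum.elim (fun i => algebraMap B L (x i)) (fun j => algebraMap F L (y j)))
  rw [jac_sum hB.tb hF.tb hBF] at h1
  have h2 := hL.jac_le (Sum.elim (fun i => algebraMap B L (cB i)) (fun j => algebraMap F L (cF j)))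
  have h3 := h2.trans_eq (Fintype.prod_sum_type _)
  simp only [Sum.elim_inl, Sum.elim_inr] at h3
  rw [h1, map_mul, map_mul]
  calc _ = (w (jac hL.tb (Sum.elim (fun i => algebraMap B L (cB i))
          (fun j => algebraMap F L (cF j)))) * ∏ i, w (cL i)) *
        (w (algebraMap B L (jac hB.tb x)) * w (algebraMap F L (jac hF.tb y))) := by
        simp only [mul_comm, mul_left_comm, mul_assoc]
    _ ≤ ((∏ i, w (algebraMap B L (cB i))) * ∏ j, w (algebraMap F L (cF j))) *
        (w (algebraMap B L (jac hB.tb x)) * w (algebraMap F L (jac hF.tb y))) := by gcongr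
    _ = _ := by simp only [mul_comm, mul_left_comm, mul_assoc]

theorem RegBasis.prod_le {w : Valuation L ℤᵐ⁰} {cB : ι → B} {cF : κ → F} {cL : ι ⊕ κ → L}
    (hB : RegBasis k (w.comap (algebraMap B L)) cB)
    (hF : RegBasis k (w.comap (algebraMap F L)) cF) (hL : RegBasis k w cL)
    (hBF : IsTranscendenceBasis k
      (Sum.elim (fun i => algebraMap B L (cB i)) (fun j => algebraMap F L (cF j))))
    (x : ι → B) (y : κ → F) :
    w (jac hL.tb (Sum.elim (fun i => algebraMap B L (x i)) (fun j => algebraMap F L (y j)))) ≤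
    w (algebraMap B L (jac hB.tb x)) * w (algebraMap F L (jac hF.tb y)) := by
  have h1 := jac_chain hBF hL.tb
    (Sum.elim (fun i => algebraMap B L (x i)) (fun j => algebraMap F L (y j)))
  rw [jac_sum hB.tb hF.tb hBF] at h1
  have h2 := hL.jac_le (Sum.elim (fun i => algebraMap B L (cB i))
    (fun j => algebraMap F L (cF j))) (by
      rintro (i | i)
      · exact hB.le_one i
      · exact hF.le_one i)
  rw [h1, map_mul, map_mul]
  calc _ ≤ 1 * (w (algebraMap B L (jac hB.tb x)) * w (algebraMap F L (jac hF.tb y))) := by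
        gcongr
    _ = _ := one_mul _

omit [Fintype ι] [DecidableEq ι] in
/-- for the trivial valuation every transcendence basis is a log basis and a regular basis -/
theorem LogBasis.of_trivial {w : Valuation K ℤᵐ⁰} (hw : ∀ a : K, a ≠ 0 → w a = 1)
    {c : ι → K} (hc : IsTranscendenceBasis k c) : LogBasis k w c := by
  refine ⟨hc, fun i a => ?_⟩
  rcases eq_or_ne a 0 with rfl | ha
  · simp
  · rw [hw a ha]
    by_cases h : c i * pd hc i a = 0
    · rw [h]; simp
    · exact (hw _ h).le

omit [Fintype ι] [DecidableEq ι] in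
theorem RegBasis.of_trivial {w : Valuation K ℤᵐ⁰} (hw : ∀ a : K, a ≠ 0 → w a = 1)
    {c : ι → K} (hc : IsTranscendenceBasis k c) : RegBasis k w c := by
  have h1 : ∀ a, w a ≤ 1 := by
    intro a
    rcases eq_or_ne a 0 with rfl | ha
    · simp
    · exact (hw a ha).le
  exact ⟨hc, fun i => h1 _, fun i a _ => h1 _⟩

end

end Pf72953
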