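import Mathlib

/-!
# Kodaira dimension of a function field

`K/k` is a finitely generated extension of fields of characteristic zero, `n = trdeg_k K`.
The `K`-vector space of `r`-forms on `K/k` is described as the space of alternating `r`-linear
forms on the (`n`-dimensional) `K`-vector space `Der_k(K)` of `k`-derivations of `K`, the
dual of `Ω_{K/k}`.  The `m`-canonical forms of a smooth projective model `X` of `K/k` are the
elements of `(⋀ⁿ Ω_{K/k})^{⊗ m}` which are regular at every divisorial valuation of `K/k`;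
this birational description of `H⁰(X, mK_X)` is taken as the definition.
-/

open scoped WithZero TensorProduct

namespace Pf72953

section forms

variable (k K : Type*) [Field k] [Field K] [Algebra k K]

/-- The dimension of (a model of) `K/k`: the transcendence degree, as a natural number. -/
noncomputable def dimension : ℕ := Cardinal.toNat (Algebra.trdeg k K)

/-- Rational `r`-forms on `K/k`: alternating `r`-linear forms on the `K`-space of
`k`-derivations of `K`. -/
def Form (r : ℕ) : Type _ := (Derivation k K K) [⋀^Fin r]→ₗ[K] K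

noncomputable instance (r : ℕ) : AddCommGroup (Form k K r) :=
  (inferInstance : AddCommGroup ((Derivation k K K) [⋀^Fin r]→ₗ[K] K))

noncomputable instance (r : ℕ) : Module K (Form k K r) :=
  (inferInstance : Module K ((Derivation k K K) [⋀^Fin r]→ₗ[K] K))

variable {K} in
/-- The differential `da` as a linear form on derivations, `D ↦ D a`. -/
def dEval (a : K) : Derivation k K K →ₗ[K] K :=
  IsLinearMap.mk' (fun D : Derivation k K K => D a) ⟨fun _ _ => rfl, fun _ _ => rfl⟩

variable {K} in
/-- The `r`-form `da₁ ∧ ⋯ ∧ daᵣ`, i.e. `(D₁, …, Dᵣ) ↦ det (Dᵢ aⱼ)`. -/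
noncomputable def wedge {r : ℕ} (a : Fin r → K) : Form k K r :=
  Matrix.detRowAlternating.compLinearMap (LinearMap.pi fun j => dEval k (a j))

/-- Rational `m`-fold `r`-forms: the `K`-vector space `(⋀ʳ Ω_{K/k})^{⊗ m}`. -/
def PluriForm (r m : ℕ) : Type _ := ⨂[K]^m (Form k K r)

noncomputable instance (r m : ℕ) : AddCommGroup (PluriForm k K r m) :=
  (inferInstance : AddCommGroup (⨂[K]^m (Form k K r)))

noncomputable instance (r m : ℕ) : Module K (PluriForm k K r m) :=
  (inferInstance : Module K (⨂[K]^m (Form k K r)))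

variable {K} in
/-- The form `(da₁₁ ∧ ⋯ ∧ da₁ᵣ) ⊗ ⋯ ⊗ (daₘ₁ ∧ ⋯ ∧ daₘᵣ)`. -/
noncomputable def pureForm {r m : ℕ} (a : Fin m → Fin r → K) : PluriForm k K r m :=
  PiTensorProduct.tprod K (fun i => wedge k (a i))

end forms

section regular

variable (k K : Type*) [Field k] [Field K] [Algebra k K]

/-- `w` is a divisorial valuation of `K/k`: a nontrivial discrete valuation (with values in `ℤ`,
not necessarily normalised), trivial on `k`, whose residue field has transcendence degree
(at least, hence exactly) `n - 1` over `k`: there are `n - 1` elements `x_i` such that `p(x)`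
is a unit of the valuation ring for all nonzero polynomials `p` over `k`. -/
structure IsDivisorial (w : Valuation K ℤᵐ⁰) : Prop where
  const : ∀ c : k, c ≠ 0 → w (algebraMap k K c) = 1
  nontrivial : ∃ a : K, a ≠ 0 ∧ w a ≠ 1
  resid : ∃ x : Fin (dimension k K - 1) → K,
    ∀ p : MvPolynomial (Fin (dimension k K - 1)) k, p ≠ 0 → w (MvPolynomial.aeval x p) = 1

variable {K} in
/-- The forms in `(⋀ʳ Ω_{K/k})^{⊗ m}` regular at the valuation `w`: the module over the
valuation ring `O_w` spanned by the `(da₁₁ ∧ ⋯ ∧ da₁ᵣ) ⊗ ⋯ ⊗ (daₘ₁ ∧ ⋯ ∧ daₘᵣ)` with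
`a_ij ∈ O_w`. -/
noncomputable def regularAt (r m : ℕ) (w : Valuation K ℤᵐ⁰) : AddSubgroup (PluriForm k K r m) :=
  AddSubgroup.closure {ω | ∃ (c : K) (a : Fin m → Fin r → K),
    w c ≤ 1 ∧ (∀ i j, w (a i j) ≤ 1) ∧ ω = c • pureForm k a}

/-- The `m`-canonical forms regular at all divisorial valuations: `H⁰(X, mK_X)` for a
smooth projective model `X` of `K/k`. -/
def pluricanonical (m : ℕ) : Set (PluriForm k K (dimension k K) m) :=
  {ω | ∀ w : Valuation K ℤᵐ⁰, IsDivisorial k K w → ω ∈ regularAt k (dimension k K) m w}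

/-- `κ(K/k) ≥ c`: for some `m ≥ 1` there are a nonzero `m`-canonical form `ω₀` and `c`
`m`-canonical forms `f_i ω₀` whose ratios `f_i` to `ω₀` are algebraically independent over `k`
(equivalently: `H⁰(mK_X) ≠ 0` and the image of the `m`-canonical map has dimension `≥ c`). -/
def KodairaGE (c : ℕ) : Prop :=
  ∃ m : ℕ, 1 ≤ m ∧ ∃ ω₀ ∈ pluricanonical k K m, ω₀ ≠ 0 ∧
    ∃ f : Fin c → K, AlgebraicIndependent k f ∧ ∀ i, f i • ω₀ ∈ pluricanonical k K m

/-- The Kodaira dimension, with `⊥ = -∞` if there are no nonzero pluricanonical forms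
(recall that `⊥ + x = ⊥` in `WithBot`). -/
noncomputable def kodairaDim : WithBot ℕ∞ :=
  ⨆ (c : ℕ) (_ : KodairaGE k K c), ((c : ℕ∞) : WithBot ℕ∞)

end regular

section base

variable (k B E : Type*) [Field k] [Field B] [Field E] [Algebra k B] [Algebra k E] [Algebra B E]

/-- The `m`-fold `b`-forms, `b = dim B`, pulled back from `B` to `E`. -/
noncomputable def baseForms (m : ℕ) : AddSubgroup (PluriForm k E (dimension k B) m) :=
  AddSubgroup.closure {ω | ∃ (c : B) (a : Fin m → Fin (dimension k B) → B),
    ω = algebraMap B E c • pureForm k (fun i j => algebraMap B E (a i j))}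

/-- The `m`-canonical forms on the orbifold base of `E/B`: the rational `m`-canonical forms
of `B` whose pull-back to `E` is regular at all divisorial valuations of `E`. -/
def orbPluricanonical (m : ℕ) : Set (PluriForm k E (dimension k B) m) :=
  {ω | ω ∈ baseForms k B E m ∧
    ∀ w : Valuation E ℤᵐ⁰, IsDivisorial k E w → ω ∈ regularAt k (dimension k B) m w}

/-- `κ ≥ c` for the orbifold base. -/
def OrbKodairaGE (c : ℕ) : Prop :=
  ∃ m : ℕ, 1 ≤ m ∧ ∃ ω₀ ∈ orbPluricanonical k B E m, ω₀ ≠ 0 ∧
    ∃ f : Fin c → B, AlgebraicIndependent k f ∧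
      ∀ i, algebraMap B E (f i) • ω₀ ∈ orbPluricanonical k B E m

/-- The Kodaira dimension of the orbifold base of `E/B`. -/
noncomputable def orbKodairaDim : WithBot ℕ∞ :=
  ⨆ (c : ℕ) (_ : OrbKodairaGE k B E c), ((c : ℕ∞) : WithBot ℕ∞)

end base

end Pf72953

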