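import Mathlib

set_option linter.style.haveILetI false

namespace Pf72953

theorem isIntegral_of_forall_valuationSubring {R K : Type*} [CommRing R] [Field K] [Algebra R K]
    {x : K} (h : ∀ V : ValuationSubring K, (∀ r : R, algebraMap R K r ∈ V) → x ∈ V) :
    IsIntegral R x := by
  have h1 : x ∈ (⨅ V : {V : ValuationSubring K // Set.range (algebraMap R K) ⊆ V.toSubring},
      V.1.toSubring) := by
    rw [Subring.mem_iInf]
    intro V
    exact h V.1 fun r => V.2 ⟨r, rfl⟩
  rw [iInf_valuationSubring_superset] at h1
  have h2 : IsIntegral (Subring.closure (Set.range (algebraMap R K))) x := h1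
  have h3 : Subring.closure (Set.range (algebraMap R K)) = (algebraMap R K).range := by
    rw [← RingHom.coe_range, Subring.closure_eq]
  rw [h3] at h2
  letI : Algebra R (algebraMap R K).range := (algebraMap R K).rangeRestrict.toAlgebra
  haveI : IsScalarTower R (algebraMap R K).range K := IsScalarTower.of_algebraMap_eq fun r => rfl
  haveI : Algebra.IsIntegral R (algebraMap R K).range := ⟨fun y => by
    obtain ⟨r, hr⟩ := (algebraMap R K).rangeRestrict_surjective y
    rw [← hr]
    exact isIntegral_algebraMap⟩
  exact isIntegral_trans x h2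

variable {K₀ K Γ : Type*} [Field K₀] [Field K] [Algebra K₀ K] 
  [LinearOrderedCommGroupWithZero Γ]

open Polynomial

/-- every element of a valuation ring `O_w` of an algebraic extension is a quotient of elements
integral over `O_w ∩ K₀`, with `w`-unit denominator. -/
theorem exists_isIntegral_quotient (w : Valuation K Γ) {a : K} (ha : w a ≤ 1)
    (halg : IsAlgebraic K₀ a) :
    ∃ b c : K, IsIntegral (w.comap (algebraMap K₀ K)).valuationSubring b ∧
      IsIntegral (w.comap (algebraMap K₀ K)).valuationSubring c ∧ w c = 1 ∧ c * a = b := by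
  obtain ⟨p, hp0, hpa⟩ := halg
  -- coefficient of largest value
  have hsupp : p.support.Nonempty := by
    rwa [nonempty_support_iff]
  obtain ⟨i₀, hi₀, hmax⟩ := Finset.exists_max_image p.support
    (fun i => w (algebraMap K₀ K (p.coeff i))) hsupp
  have hc0 : p.coeff i₀ ≠ 0 := mem_support_iff.mp hi₀
  set q : K₀[X] := C (p.coeff i₀)⁻¹ * p with hq
  have hqc : ∀ i, q.coeff i = (p.coeff i₀)⁻¹ * p.coeff i := fun i => by rw [hq, coeff_C_mul]
  have hqa : aeval a q = 0 := by rw [hq, map_mul, hpa, mul_zero]
  have hq1 : ∀ i, w (algebraMap K₀ K (q.coeff i)) ≤ 1 := by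
    intro i
    rw [hqc, map_mul, map_mul, map_inv₀, map_inv₀]
    by_cases hi : i ∈ p.support
    · have := hmax i hi
      have h0 : 0 < w (algebraMap K₀ K (p.coeff i₀)) := by
        rw [zero_lt_iff, Valuation.ne_zero_iff]
        simpa using hc0
      calc _ ≤ (w (algebraMap K₀ K (p.coeff i₀)))⁻¹ * w (algebraMap K₀ K (p.coeff i₀)) := by
            gcongr
        _ = 1 := inv_mul_cancel₀ h0.ne'
    · rw [notMem_support_iff.mp hi]; simp
  have hq2 : w (algebraMap K₀ K (q.coeff i₀)) = 1 := by
    rw [hqc, inv_mul_cancel₀ hc0]; simp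
  -- Horner sums
  set b : ℕ → K := fun j => aeval a (divX^[j] q) with hb
  have hb0 : b 0 = 0 := by rw [hb]; exact hqa
  have hdc : ∀ j i, (divX^[j] q).coeff i = q.coeff (i + j) := by
    intro j
    induction j with
    | zero => intro i; rfl
    | succ j ih => 
      intro i
      rw [Function.iterate_succ_apply', coeff_divX, ih]
      congr 1; ring
  have hbs : ∀ j, b j = a * b (j + 1) + algebraMap K₀ K (q.coeff j) := by
    intro j
    have := divX_mul_X_add (divX^[j] q)
    rw [hb]
    simp only
    conv_lhs => rw [← this]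
    rw [map_add, map_mul, aeval_X, aeval_C, hdc, Function.iterate_succ_apply', zero_add, mul_comm]
  have hint : ∀ j, ∀ V : ValuationSubring K,
      (∀ r : (w.comap (algebraMap K₀ K)).valuationSubring, 
        algebraMap (w.comap (algebraMap K₀ K)).valuationSubring K r ∈ V) →
      b j ∈ V ∧ a * b j ∈ V := by
    intro j V hV
    have hV' : ∀ i, algebraMap K₀ K (q.coeff i) ∈ V := fun i => hV ⟨q.coeff i, hq1 i⟩
    rcases V.mem_or_inv_mem a with haV | haV
    · have : b j ∈ V := by
        rw [hb]
        simp only
        rw [aeval_eq_sum_range]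
        refine sum_mem fun i _ => ?_
        rw [hdc, Algebra.smul_def]
        exact mul_mem (hV' _) (pow_mem haV _)
      exact ⟨this, mul_mem haV this⟩
    · induction j with
      | zero => rw [hb0]; simp
      | succ j ih => 
        have h1 : a * b (j + 1) ∈ V := by
          have := hbs j
          rw [← sub_eq_iff_eq_add] at this
          rw [← this]
          exact sub_mem ih.1 (hV' j)
        refine ⟨?_, h1⟩
        by_cases ha0 : a = 0
        · have := hbs (j + 1)
          rw [ha0, zero_mul, zero_add] at this
          rw [this]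
          exact hV' _
        · have := mul_mem haV h1
          rwa [← mul_assoc, inv_mul_cancel₀ ha0, one_mul] at this
  -- the last unit coefficient
  obtain ⟨i₁, hi₁, hi₁max⟩ : ∃ i₁, w (algebraMap K₀ K (q.coeff i₁)) = 1 ∧
      ∀ i, i₁ < i → w (algebraMap K₀ K (q.coeff i)) < 1 := by
    classical
    have hne : (q.support.filter (fun i => w (algebraMap K₀ K (q.coeff i)) = 1)).Nonempty := by
      refine ⟨i₀, ?_⟩
      rw [Finset.mem_filter]
      refine ⟨?_, hq2⟩
      rw [mem_support_iff]
      intro h
      rw [h] at hq2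
      simp at hq2
    refine ⟨(q.support.filter (fun i => w (algebraMap K₀ K (q.coeff i)) = 1)).max' hne, ?_, ?_⟩
    · exact (Finset.mem_filter.mp (Finset.max'_mem _ hne)).2
    · intro i hi
      refine lt_of_le_of_ne (hq1 i) fun h => ?_
      have : i ∈ q.support.filter (fun i => w (algebraMap K₀ K (q.coeff i)) = 1) := by
        rw [Finset.mem_filter]
        refine ⟨?_, h⟩
        rw [mem_support_iff]
        intro h'
        rw [h'] at h
        simp at h
      exact absurd (Finset.le_max' _ _ this) (not_le.mpr hi)
  have hw1 : w (b i₁) = 1 := by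
    have h1 : w (b (i₁ + 1)) < 1 := by
      rw [hb]
      simp only
      rw [aeval_eq_sum_range]
      refine Valuation.map_sum_lt _ one_ne_zero fun i _ => ?_
      rw [hdc, Algebra.smul_def, map_mul, map_pow]
      calc _ ≤ w (algebraMap K₀ K (q.coeff (i + (i₁ + 1)))) * 1 := by
            gcongr
            exact pow_le_one' ha i
        _ < 1 := by rw [mul_one]; exact hi₁max _ (by omega)
    rw [hbs, Valuation.map_add_eq_of_lt_right, hi₁]
    rw [hi₁, map_mul]
    calc w a * w (b (i₁ + 1)) ≤ 1 * w (b (i₁ + 1)) := by gcongr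
      _ < 1 := by rwa [one_mul]
  refine ⟨a * b i₁, b i₁, ?_, ?_, hw1, mul_comm _ _⟩
  · exact isIntegral_of_forall_valuationSubring fun V hV => (hint i₁ V hV).2
  · exact isIntegral_of_forall_valuationSubring fun V hV => (hint i₁ V hV).1

end Pf72953
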