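import Mathlib
import Pool.Agent.Lib.Pf72953.Quot

/-!
Lemma A: a derivation which is bounded in the logarithmic sense on a system
`(t, x)` adapted to a discrete valuation `w` (`w t < 1`, `x` residually algebraically
independent) is logarithmically bounded on every algebraic extension.
-/

set_option linter.style.haveILetI false

open scoped WithZero

namespace Pf72953

/-- `x` is a residually algebraically independent family of units. -/
def ResIndep (k : Type*) {K ι Γ : Type*} [Field k] [Field K] [Algebra k K]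
    [LinearOrderedCommGroupWithZero Γ] (w : Valuation K Γ) (x : ι → K) : Prop :=
  ∀ p : MvPolynomial ι k, p ≠ 0 → w (MvPolynomial.aeval x p) = 1

section gauss

variable {k K ι Γ : Type*} [Field k] [Field K] [Algebra k K]
    [LinearOrderedCommGroupWithZero Γ] {w : Valuation K Γ} {x : ι → K}

theorem ResIndep.const (hx : ResIndep k w x) {c : k} (hc : c ≠ 0) :
    w (algebraMap k K c) = 1 := by
  have := hx (MvPolynomial.C c) (by simpa using hc)
  simpa using this

theorem ResIndep.const_le (hx : ResIndep k w x) (c : k) :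
    w (algebraMap k K c) ≤ 1 := by
  rcases eq_or_ne c 0 with rfl | hc
  · simp
  · exact (hx.const hc).le

theorem ResIndep.apply (hx : ResIndep k w x) (i : ι) : w (x i) = 1 := by
  have := hx (MvPolynomial.X i) (MvPolynomial.X_ne_zero i)
  simpa using this

theorem ResIndep.aeval_le (hx : ResIndep k w x) (p : MvPolynomial ι k) :
    w (MvPolynomial.aeval x p) ≤ 1 := by
  rcases eq_or_ne p 0 with rfl | hp
  · simp
  · exact (hx p hp).le

theorem natCast_le (w : Valuation K Γ) (n : ℕ) : w (n : K) ≤ 1 := by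
  induction n with
  | zero => simp
  | succ n ih => 
    rw [Nat.cast_succ]
    exact (w.map_add _ _).trans (max_le ih (by simp))

theorem intCast_le (w : Valuation K Γ) (n : ℤ) : w (n : K) ≤ 1 := by
  rcases Int.eq_nat_or_neg n with ⟨m, rfl | rfl⟩
  · simpa using natCast_le w m
  · simpa [Valuation.map_neg] using natCast_le w m

theorem ResIndep.natCast [CharZero k] (hx : ResIndep k w x) {n : ℕ} (hn : n ≠ 0) :
    w (n : K) = 1 := by
  have := hx.const (c := (n : k)) (by exact_mod_cast hn)
  simpa using this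

/-- the value of a polynomial in `t` with coefficients in `k[x]` -/
theorem ResIndep.eval₂ (hx : ResIndep k w x) {t : K} (ht0 : t ≠ 0) (ht : w t < 1)
    {P : Polynomial (MvPolynomial ι k)} (hP : P ≠ 0) :
    w (P.eval₂ (MvPolynomial.aeval x : MvPolynomial ι k →ₐ[k] K).toRingHom t) =
      w t ^ P.natTrailingDegree := by
  classical
  have ht0' : w t ≠ 0 := (Valuation.ne_zero_iff w).mpr ht0
  have htpos : 0 < w t := zero_lt_iff.mpr ht0'
  rw [Polynomial.eval₂_eq_sum_range]
  have hmem : P.natTrailingDegree ∈ Finset.range (P.natDegree + 1) := by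
    rw [Finset.mem_range]
    exact Nat.lt_succ_of_le (Polynomial.natTrailingDegree_le_natDegree P)
  rw [← Finset.add_sum_erase _ _ hmem]
  have h1 : w ((MvPolynomial.aeval x : MvPolynomial ι k →ₐ[k] K).toRingHom
      (P.coeff P.natTrailingDegree) * t ^ P.natTrailingDegree) = w t ^ P.natTrailingDegree := by
    rw [map_mul, map_pow]
    have := hx (P.coeff P.natTrailingDegree)
      (by rw [← Polynomial.trailingCoeff]; exact Polynomial.trailingCoeff_nonzero_iff_nonzero.mpr hP)
    change w (MvPolynomial.aeval x _) * _ = _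
    rw [this, one_mul]
  rw [Valuation.map_add_eq_of_lt_left]
  · exact h1
  · rw [h1]
    refine Valuation.map_sum_lt _ (pow_ne_zero _ ht0') fun i hi => ?_
    rw [Finset.mem_erase, Finset.mem_range] at hi
    rw [map_mul, map_pow]
    change w (MvPolynomial.aeval x _) * _ < _
    rcases lt_or_gt_of_ne hi.1 with hlt | hgt
    · rw [Polynomial.coeff_eq_zero_of_lt_natTrailingDegree hlt]
      simp only [map_zero, zero_mul]
      exact pow_pos htpos _
    · calc w (MvPolynomial.aeval x (P.coeff i)) * w t ^ i ≤ 1 * w t ^ i := by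
            gcongr
            exact hx.aeval_le _
        _ = w t ^ i := one_mul _
        _ < _ := pow_lt_pow_right_of_lt_one₀ htpos ht hgt

theorem eval₂_option (t : K) (x : ι → K) (Q : MvPolynomial (Option ι) k) :
    (MvPolynomial.optionEquivLeft k ι Q).eval₂
      (MvPolynomial.aeval x : MvPolynomial ι k →ₐ[k] K).toRingHom t =
    MvPolynomial.aeval (fun o : Option ι => o.elim t x) Q := by
  induction Q using MvPolynomial.induction_on with
  | C c =>
    simp [MvPolynomial.optionEquivLeft_apply]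
  | add p q hp hq => rw [map_add, Polynomial.eval₂_add, hp, hq, map_add]
  | mul_X p o hp =>
    rw [map_mul, Polynomial.eval₂_mul, hp, map_mul]
    congr 1
    rcases o with _ | i <;> simp [MvPolynomial.optionEquivLeft_apply]

end gauss

section der

variable {k K ι Γ : Type*} [Field k] [Field K] [Algebra k K]
    [LinearOrderedCommGroupWithZero Γ] {w : Valuation K Γ} {x : ι → K}

theorem ResIndep.der_aeval (hx : ResIndep k w x) (D : Derivation k K K)
    (hDx : ∀ i, w (D (x i)) ≤ 1) (p : MvPolynomial ι k) : w (D (MvPolynomial.aeval x p)) ≤ 1 := by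
  induction p using MvPolynomial.induction_on with
  | C c => simp
  | add p q hp hq =>
    rw [map_add, map_add]
    exact (w.map_add _ _).trans (max_le hp hq)
  | mul_X p i hp =>
    rw [map_mul, MvPolynomial.aeval_X, Derivation.leibniz, smul_eq_mul, smul_eq_mul]
    refine (w.map_add _ _).trans (max_le ?_ ?_)
    · rw [map_mul]
      exact mul_le_one' (hx.aeval_le p) (hDx i)
    · rw [map_mul, hx.apply, one_mul]
      exact hp

theorem ResIndep.der_eval₂ (hx : ResIndep k w x) {t : K} (ht0 : t ≠ 0) (ht : w t < 1)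
    (D : Derivation k K K) (hDt : w (D t) ≤ w t) (hDx : ∀ i, w (D (x i)) ≤ 1)
    (P : Polynomial (MvPolynomial ι k)) :
    w (D (P.eval₂ (MvPolynomial.aeval x : MvPolynomial ι k →ₐ[k] K).toRingHom t)) ≤
      w (P.eval₂ (MvPolynomial.aeval x : MvPolynomial ι k →ₐ[k] K).toRingHom t) := by
  rcases eq_or_ne P 0 with rfl | hP
  · simp
  rw [hx.eval₂ ht0 ht hP, Polynomial.eval₂_eq_sum_range, map_sum]
  refine Valuation.map_sum_le _ fun i _ => ?_
  rw [Derivation.leibniz, Derivation.leibniz_pow]
  change w ((MvPolynomial.aeval x (P.coeff i)) * _ + _ * D (MvPolynomial.aeval x (P.coeff i))) ≤ _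
  rcases lt_or_ge i P.natTrailingDegree with hlt | hge
  · rw [Polynomial.coeff_eq_zero_of_lt_natTrailingDegree hlt]
    simp
  have hle : w t ^ i ≤ w t ^ P.natTrailingDegree := pow_le_pow_right_of_le_one' ht.le hge
  refine (w.map_add _ _).trans (max_le ?_ ?_)
  · rw [map_mul]
    refine le_trans ?_ hle
    have h2 : w (i • t ^ (i - 1) • D t) ≤ w t ^ i := by
      rcases Nat.eq_zero_or_pos i with rfl | hi
      · simp
      · rw [nsmul_eq_mul, smul_eq_mul, map_mul, map_mul, map_pow]
        calc w (i : K) * (w t ^ (i - 1) * w (D t)) ≤ 1 * (w t ^ (i - 1) * w t) := by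
              gcongr
              exact natCast_le w i
          _ = w t ^ i := by
              rw [one_mul, ← pow_succ, Nat.sub_add_cancel hi]
    calc _ ≤ 1 * w t ^ i := mul_le_mul' (hx.aeval_le _) h2
      _ = _ := one_mul _
  · rw [map_mul, map_pow]
    refine le_trans ?_ hle
    calc _ ≤ w t ^ i * 1 := mul_le_mul' le_rfl (hx.der_aeval D hDx _)
      _ = _ := mul_one _

theorem ResIndep.der_adjoin (hx : ResIndep k w x) {t : K} (ht0 : t ≠ 0) (ht : w t < 1)
    (D : Derivation k K K) (hDt : w (D t) ≤ w t) (hDx : ∀ i, w (D (x i)) ≤ 1)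
    {a : K} (ha : a ∈ IntermediateField.adjoin k
      (Set.range (fun o : Option ι => o.elim t x))) :
    w (D a) ≤ w a := by
  rw [IntermediateField.mem_adjoin_range_iff] at ha
  obtain ⟨r, s, rfl⟩ := ha
  rw [← eval₂_option, ← eval₂_option]
  set a := (MvPolynomial.optionEquivLeft k ι r).eval₂
      (MvPolynomial.aeval x : MvPolynomial ι k →ₐ[k] K).toRingHom t
  set b := (MvPolynomial.optionEquivLeft k ι s).eval₂
      (MvPolynomial.aeval x : MvPolynomial ι k →ₐ[k] K).toRingHom t
  have h1 : w (D a) ≤ w a := hx.der_eval₂ ht0 ht D hDt hDx _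
  have h2 : w (D b) ≤ w b := hx.der_eval₂ ht0 ht D hDt hDx _
  rcases eq_or_ne b 0 with hb | hb
  · rw [hb]; simp
  have hb' : w b ≠ 0 := (Valuation.ne_zero_iff w).mpr hb
  rw [Derivation.leibniz_div, smul_eq_mul, smul_eq_mul, smul_eq_mul, map_mul, map_pow, map_inv₀]
  have h3 : w (b * D a - a * D b) ≤ w a * w b := by
    refine (w.map_sub _ _).trans (max_le ?_ ?_)
    · rw [map_mul, mul_comm]; gcongr
    · rw [map_mul]; gcongr
  calc _ ≤ (w b)⁻¹ ^ 2 * (w a * w b) := by gcongr
    _ = w (a / b) := by
      rw [map_div₀]; field_simp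

end der

section bound

variable {k K ι : Type*} [Field k] [CharZero k] [Field K] [Algebra k K]
    {w : Valuation K ℤᵐ⁰} {x : ι → K}

omit [CharZero k] in
/-- a derivation which is bounded on `O_w ∩ K₀` is bounded on `O_w` when `K/K₀` is finite. -/
theorem exists_bound {K₀ : Type*} [Field K₀] [Algebra K₀ K] [FiniteDimensional K₀ K]
    [Algebra.IsSeparable K₀ K] (w : Valuation K ℤᵐ⁰)
    (D : Derivation k K K) (hD : ∀ a : K₀, w (algebraMap K₀ K a) ≤ 1 →
      w (D (algebraMap K₀ K a)) ≤ 1) :
    ∃ N : ℕ, ∀ a : K, w a ≤ 1 → w (D a) ≤ WithZero.exp (N : ℤ) := by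
  classical
  set R := (w.comap (algebraMap K₀ K)).valuationSubring with hR
  obtain ⟨s, b, hb⟩ := FiniteDimensional.exists_is_basis_integral R K₀ K
  have hspan := integralClosure_le_span_dualBasis (A := R) b hb
  set d := (Algebra.traceForm K₀ K).dualBasis (traceForm_nondegenerate K₀ K) b with hd
  -- a bound for the generators
  obtain ⟨N, hN⟩ : ∃ N : ℕ, ∀ i, w (d i) ≤ WithZero.exp (N : ℤ) ∧
      w (D (d i)) ≤ WithZero.exp (N : ℤ) := by
    have key : ∀ y : K, ∃ N : ℕ, w y ≤ WithZero.exp (N : ℤ) := by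
      intro y
      rcases eq_or_ne (w y) 0 with h | h
      · exact ⟨0, by rw [h]; exact zero_le⟩
      · refine ⟨(WithZero.log (w y)).toNat, ?_⟩
        conv_lhs => rw [← WithZero.exp_log h]
        rw [WithZero.exp_le_exp]
        exact Int.self_le_toNat _
    choose n₁ hn₁ using fun i => key (d i)
    choose n₂ hn₂ using fun i => key (D (d i))
    refine ⟨∑ i, (n₁ i + n₂ i), fun i => ?_⟩
    have : n₁ i + n₂ i ≤ ∑ i, (n₁ i + n₂ i) :=
      Finset.single_le_sum (f := fun i => n₁ i + n₂ i) (fun _ _ => Nat.zero_le _)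
        (Finset.mem_univ i)
    constructor
    · refine (hn₁ i).trans ?_
      rw [WithZero.exp_le_exp]
      exact_mod_cast (Nat.le_add_right _ _).trans this
    · refine (hn₂ i).trans ?_
      rw [WithZero.exp_le_exp]
      exact_mod_cast (Nat.le_add_left _ _).trans this
  -- bound on integral elements
  have hint : ∀ y : K, IsIntegral R y → w (D y) ≤ WithZero.exp (N : ℤ) := by
    intro y hy
    have hy' : y ∈ Submodule.span R (Set.range d) := hspan hy
    rw [Submodule.mem_span_range_iff_exists_fun] at hy'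
    obtain ⟨c, rfl⟩ := hy'
    rw [map_sum]
    refine Valuation.map_sum_le _ fun i _ => ?_
    have hc : w (algebraMap K₀ K (c i : K₀)) ≤ 1 := (c i).2
    have e1 : c i • d i = algebraMap K₀ K (c i : K₀) * d i := by
      rw [← Algebra.smul_def]; rfl
    rw [e1, Derivation.leibniz, smul_eq_mul, smul_eq_mul]
    refine (w.map_add _ _).trans (max_le ?_ ?_)
    · rw [map_mul]
      calc _ ≤ 1 * WithZero.exp (N : ℤ) := mul_le_mul' hc (hN i).2
        _ = _ := one_mul _
    · rw [map_mul, mul_comm]
      calc _ ≤ 1 * WithZero.exp (N : ℤ) := mul_le_mul' (hD _ hc) (hN i).1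
        _ = _ := one_mul _
  refine ⟨N, fun a ha => ?_⟩
  obtain ⟨b', c', hb', hc', hw, hbc⟩ :=
    exists_isIntegral_quotient w ha (Algebra.IsAlgebraic.isAlgebraic (R := K₀) a)
  have hc0 : c' ≠ 0 := by
    rintro rfl
    simp at hw
  have ha' : D b' = c' * D a + a * D c' := by
    rw [← hbc, Derivation.leibniz, smul_eq_mul, smul_eq_mul]
  have ha'' : c' * D a = D b' - a * D c' := by rw [ha']; ring
  calc w (D a) = w (c' * D a) := by rw [map_mul, hw, one_mul]
    _ = w (D b' - a * D c') := by rw [ha'']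
    _ ≤ max (w (D b')) (w (a * D c')) := w.map_sub _ _
    _ ≤ WithZero.exp (N : ℤ) := by
      refine max_le (hint _ hb') ?_
      rw [map_mul]
      calc _ ≤ 1 * WithZero.exp (N : ℤ) := mul_le_mul' ha (hint _ hc')
        _ = _ := one_mul _

end bound

section indep

variable {k K ι Γ : Type*} [Field k] [Field K] [Algebra k K]
    [LinearOrderedCommGroupWithZero Γ] {w : Valuation K Γ} {x : ι → K}

/-- an adapted system is algebraically independent -/
theorem ResIndep.algebraicIndependent (hx : ResIndep k w x) {t : K} (ht0 : t ≠ 0)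
    (ht : w t < 1) : AlgebraicIndependent k (fun o : Option ι => o.elim t x) := by
  rw [algebraicIndependent_iff]
  intro Q hQ
  by_contra hne
  have hne' : MvPolynomial.optionEquivLeft k ι Q ≠ 0 := by
    rwa [Ne, EmbeddingLike.map_eq_zero_iff]
  have h1 := hx.eval₂ ht0 ht hne'
  rw [eval₂_option, hQ, map_zero] at h1
  exact pow_ne_zero _ ((Valuation.ne_zero_iff w).mpr ht0) h1.symm

theorem exists_sep_poly [CharZero k] [Finite ι] (hx : ResIndep k w x) {t : K} (ht0 : t ≠ 0)
    (ht : w t < 1) (hc : IsTranscendenceBasis k (fun o : Option ι => o.elim t x))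
    {u : K} (hu : w u = 1) :
    ∃ P : Polynomial (MvPolynomial ι k),
      w (P.eval₂ (MvPolynomial.aeval x : MvPolynomial ι k →ₐ[k] K).toRingHom u) < 1 ∧
      w (P.derivative.eval₂ (MvPolynomial.aeval x : MvPolynomial ι k →ₐ[k] K).toRingHom u)
        = 1 := by
  classical
  have hle : ∀ P : Polynomial (MvPolynomial ι k),
      w (P.eval₂ (MvPolynomial.aeval x : MvPolynomial ι k →ₐ[k] K).toRingHom u) ≤ 1 := by
    intro P
    rw [Polynomial.eval₂_eq_sum_range]
    refine Valuation.map_sum_le _ fun i _ => ?_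
    rw [map_mul, map_pow, hu, one_pow, mul_one]
    exact hx.aeval_le _
  -- `(u, x)` is not residually independent
  have hnot : ¬ ResIndep k w (fun o : Option ι => o.elim u x) := by
    intro h
    have hind := h.algebraicIndependent ht0 ht
    have h1 := hind.lift_cardinalMk_le_trdeg
    rw [← hc.lift_cardinalMk_eq_trdeg] at h1
    haveI := Fintype.ofFinite ι
    simp only [Cardinal.mk_fintype, Cardinal.lift_natCast, Fintype.card_option] at h1
    have h2 : Fintype.card ι + 1 + 1 ≤ Fintype.card ι + 1 := by exact_mod_cast h1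
    omega
  obtain ⟨P₀, hP₀, hP₀w⟩ : ∃ P : Polynomial (MvPolynomial ι k), P ≠ 0 ∧
      w (P.eval₂ (MvPolynomial.aeval x : MvPolynomial ι k →ₐ[k] K).toRingHom u) < 1 := by
    rw [ResIndep] at hnot
    push Not at hnot
    obtain ⟨Q, hQ, hQw⟩ := hnot
    refine ⟨MvPolynomial.optionEquivLeft k ι Q, by rwa [Ne, EmbeddingLike.map_eq_zero_iff], ?_⟩
    refine lt_of_le_of_ne (hle _) ?_
    rwa [eval₂_option]
  -- minimal degree
  have hex : ∃ n : ℕ, ∃ P : Polynomial (MvPolynomial ι k), P ≠ 0 ∧
      w (P.eval₂ (MvPolynomial.aeval x : MvPolynomial ι k →ₐ[k] K).toRingHom u) < 1 ∧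
      P.natDegree = n := ⟨_, P₀, hP₀, hP₀w, rfl⟩
  obtain ⟨P, hP, hPw, hPd⟩ := Nat.find_spec hex
  have hmin : ∀ Q : Polynomial (MvPolynomial ι k), Q ≠ 0 → Q.natDegree < P.natDegree →
      w (Q.eval₂ (MvPolynomial.aeval x : MvPolynomial ι k →ₐ[k] K).toRingHom u) = 1 := by
    intro Q hQ hdeg
    by_contra hne
    have := lt_of_le_of_ne (hle Q) hne
    rw [hPd] at hdeg
    exact Nat.find_min hex hdeg ⟨Q, hQ, this, rfl⟩
  have hdeg : P.natDegree ≠ 0 := by
    intro h0
    rw [Polynomial.eq_C_of_natDegree_eq_zero h0, Polynomial.eval₂_C] at hPw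
    have hc0 : P.coeff 0 ≠ 0 := by
      intro h
      apply hP
      rw [Polynomial.eq_C_of_natDegree_eq_zero h0, h, Polynomial.C_0]
    exact absurd (hx _ hc0) (ne_of_lt hPw)
  refine ⟨P, hPw, hmin _ ?_ (Polynomial.natDegree_derivative_lt hdeg)⟩
  intro h
  exact hdeg (Polynomial.natDegree_eq_zero_of_derivative_eq_zero h)

/-- `D (P u) = P' (u) D u` up to a term of value `≤ 1` -/
theorem ResIndep.der_eval₂_sub (hx : ResIndep k w x) {u : K} (hu : w u ≤ 1)
    (D : Derivation k K K) (hDx : ∀ i, w (D (x i)) ≤ 1) (P : Polynomial (MvPolynomial ι k)) :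
    w (D (P.eval₂ (MvPolynomial.aeval x : MvPolynomial ι k →ₐ[k] K).toRingHom u) -
      P.derivative.eval₂ (MvPolynomial.aeval x : MvPolynomial ι k →ₐ[k] K).toRingHom u * D u)
      ≤ 1 := by
  induction P using Polynomial.induction_on with
  | C p =>
    simp only [Polynomial.eval₂_C, Polynomial.derivative_C, Polynomial.eval₂_zero, zero_mul,
      sub_zero]
    exact hx.der_aeval D hDx p
  | add p q hp hq =>
    rw [Polynomial.derivative_add, Polynomial.eval₂_add, Polynomial.eval₂_add, map_add, add_mul,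
      add_sub_add_comm]
    exact (w.map_add _ _).trans (max_le hp hq)
  | monomial n p h =>
    set φ := (MvPolynomial.aeval x : MvPolynomial ι k →ₐ[k] K).toRingHom
    have e0 : (Polynomial.C p * Polynomial.X ^ (n + 1) : Polynomial (MvPolynomial ι k)) =
      (Polynomial.C p * Polynomial.X ^ n) * Polynomial.X := by ring
    rw [e0, Polynomial.derivative_mul, Polynomial.derivative_X, mul_one, Polynomial.eval₂_add,
      Polynomial.eval₂_mul_X, Polynomial.eval₂_mul_X, Derivation.leibniz, smul_eq_mul, smul_eq_mul]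
    set A := Polynomial.eval₂ φ u (Polynomial.C p * Polynomial.X ^ n)
    set B := Polynomial.eval₂ φ u (Polynomial.derivative (Polynomial.C p * Polynomial.X ^ n))
    have : A * D u + u * D A - (B * u + A) * D u = u * (D A - B * D u) := by ring
    rw [this, map_mul]
    exact mul_le_one' hu h

end indep

section lemmaA

variable {k K ι : Type*} [Field k] [CharZero k] [Field K] [Algebra k K]
    {w : Valuation K ℤᵐ⁰} {x : ι → K}

/-- passing from units to arbitrary elements -/
theorem ResIndep.der_le_of_units (hx : ResIndep k w x) {t : K} (ht0 : t ≠ 0) (ht : w t < 1)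
    (D : Derivation k K K) (hDt : w (D t) ≤ w t) (M : ℕ)
    (hM : ∀ u, w u = 1 → w (D u) ≤ WithZero.exp (M : ℤ)) (a : K) :
    w (D a) ≤ w a * WithZero.exp (M : ℤ) := by
  rcases eq_or_ne a 0 with rfl | ha
  · simp
  have ht0' : w t ≠ 0 := (Valuation.ne_zero_iff w).mpr ht0
  have ha' : w a ≠ 0 := (Valuation.ne_zero_iff w).mpr ha
  set e : ℤ := -WithZero.log (w t) with he
  have hwt : w t = WithZero.exp (-e) := by rw [he, neg_neg, WithZero.exp_log ht0']
  set l : ℤ := WithZero.log (w a) with hl
  have hwa : w a = WithZero.exp l := by rw [hl, WithZero.exp_log ha']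
  have hepos : 0 < e := by
    rw [hwt, ← WithZero.exp_zero, WithZero.exp_lt_exp] at ht
    omega
  set u : K := a ^ e * t ^ l with hu
  have hwu : w u = 1 := by
    rw [hu, map_mul, map_zpow₀, map_zpow₀, hwt, hwa, ← WithZero.exp_zsmul, ← WithZero.exp_zsmul,
      ← WithZero.exp_add, ← WithZero.exp_zero]
    congr 1
    simp only [smul_eq_mul]; ring
  have hu0 : u ≠ 0 := mul_ne_zero (zpow_ne_zero _ ha) (zpow_ne_zero _ ht0)
  have hDu : D u = u * (e * (D a / a) + l * (D t / t)) := by
    rw [hu, Derivation.leibniz, Derivation.leibniz_zpow, Derivation.leibniz_zpow]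
    simp only [smul_eq_mul, zsmul_eq_mul]
    rw [zpow_sub_one₀ ha, zpow_sub_one₀ ht0]
    field_simp
    ring
  have h1 : w (e * (D a / a) + l * (D t / t)) ≤ WithZero.exp (M : ℤ) := by
    have := hM u hwu
    rwa [hDu, map_mul, hwu, one_mul] at this
  have hone : (1 : ℤᵐ⁰) ≤ WithZero.exp (M : ℤ) := by
    rw [← WithZero.exp_zero, WithZero.exp_le_exp]; positivity
  have h2 : w ((l : K) * (D t / t)) ≤ WithZero.exp (M : ℤ) := by
    refine le_trans ?_ hone
    rw [map_mul, map_div₀]
    refine mul_le_one' (intCast_le w l) ?_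
    rw [div_le_one₀ (zero_lt_iff.mpr ht0')]
    exact hDt
  have h3 : w ((e : K) * (D a / a)) ≤ WithZero.exp (M : ℤ) := by
    have : (e : K) * (D a / a) = (e * (D a / a) + l * (D t / t)) - l * (D t / t) := by ring
    rw [this]
    exact (w.map_sub _ _).trans (max_le h1 h2)
  have hwe : w (e : K) = 1 := by
    lift e to ℕ using hepos.le with n hn
    have : n ≠ 0 := by rintro rfl; simp at hepos
    simpa using hx.natCast this
  rw [map_mul, hwe, one_mul, map_div₀, div_le_iff₀ (zero_lt_iff.mpr ha')] at h3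
  rwa [mul_comm]

/-- **Lemma A**. -/
theorem ResIndep.der_le [Finite ι] (hx : ResIndep k w x) {t : K} (ht0 : t ≠ 0) (ht : w t < 1)
    (hc : IsTranscendenceBasis k (fun o : Option ι => o.elim t x))
    [FiniteDimensional (IntermediateField.adjoin k
      (Set.range (fun o : Option ι => o.elim t x))) K]
    (D : Derivation k K K) (hDt : w (D t) ≤ w t) (hDx : ∀ i, w (D (x i)) ≤ 1) (a : K) :
    w (D a) ≤ w a := by
  -- boundedness
  obtain ⟨N, hN⟩ : ∃ N : ℕ, ∀ a : K, w a ≤ 1 → w (D a) ≤ WithZero.exp (N : ℤ) := by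
    refine exists_bound (K₀ := IntermediateField.adjoin k
      (Set.range (fun o : Option ι => o.elim t x))) w D fun a ha => ?_
    exact (hx.der_adjoin ht0 ht D hDt hDx a.2).trans ha
  have key : ∀ N : ℕ, (∀ u : K, w u = 1 → w (D u) ≤ WithZero.exp (N : ℤ)) →
      ∀ u : K, w u = 1 → w (D u) ≤ WithZero.exp ((0 : ℕ) : ℤ) := by
    intro N
    induction N with
    | zero => exact fun h => h
    | succ N ih =>
      intro h
      refine ih fun u hu => ?_
      obtain ⟨P, hP1, hP2⟩ := exists_sep_poly hx ht0 ht hc hu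
      set φ := (MvPolynomial.aeval x : MvPolynomial ι k →ₐ[k] K).toRingHom
      have hone : (1 : ℤᵐ⁰) ≤ WithZero.exp (N : ℤ) := by
        rw [← WithZero.exp_zero, WithZero.exp_le_exp]; positivity
      have h1 : w (D (P.eval₂ φ u)) ≤ WithZero.exp (N : ℤ) := by
        refine (hx.der_le_of_units ht0 ht D hDt (N + 1) h _).trans ?_
        rcases eq_or_ne (w (P.eval₂ φ u)) 0 with h0 | h0
        · rw [h0]; simp
        · have : w (P.eval₂ φ u) ≤ WithZero.exp (-1) := by
            rw [← WithZero.exp_log h0] at hP1 ⊢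
            rw [← WithZero.exp_zero, WithZero.exp_lt_exp] at hP1
            rw [WithZero.exp_le_exp]
            omega
          calc _ ≤ WithZero.exp (-1) * WithZero.exp ((N + 1 : ℕ) : ℤ) := by gcongr
            _ = WithZero.exp (N : ℤ) := by
              rw [← WithZero.exp_add]; congr 1; push_cast; ring
      have h2 := hx.der_eval₂_sub hu.le D hDx P
      have h3 : P.derivative.eval₂ φ u * D u =
          D (P.eval₂ φ u) - (D (P.eval₂ φ u) - P.derivative.eval₂ φ u * D u) := by ring
      calc w (D u) = w (P.derivative.eval₂ φ u * D u) := by rw [map_mul, hP2, one_mul]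
        _ = w (D (P.eval₂ φ u) - (D (P.eval₂ φ u) - P.derivative.eval₂ φ u * D u)) := by
          rw [← h3]
        _ ≤ WithZero.exp (N : ℤ) := (w.map_sub _ _).trans (max_le h1 (h2.trans hone))
  have := hx.der_le_of_units ht0 ht D hDt 0 (key N fun u hu => hN u hu.le) a
  simpa using this

/-- the non-logarithmic version at a uniformizer -/
theorem ResIndep.der_le_one [Finite ι] (hx : ResIndep k w x) {t : K} (ht0 : t ≠ 0)
    (ht : w t < 1) (hunif : ∀ a, w a < 1 → w a ≤ w t)
    (hc : IsTranscendenceBasis k (fun o : Option ι => o.elim t x))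
    [FiniteDimensional (IntermediateField.adjoin k
      (Set.range (fun o : Option ι => o.elim t x))) K]
    (D : Derivation k K K) (hDt : w (D t) ≤ 1) (hDx : ∀ i, w (D (x i)) ≤ 1) {a : K}
    (ha : w a ≤ 1) : w (D a) ≤ 1 := by
  have ht0' : w t ≠ 0 := (Valuation.ne_zero_iff w).mpr ht0
  have htpos : 0 < w t := zero_lt_iff.mpr ht0'
  -- `t D` is logarithmic
  have hlog : ∀ a, w (t * D a) ≤ w a := by
    intro a
    refine hx.der_le ht0 ht hc (t • D) ?_ ?_ a
    · rw [Derivation.smul_apply, smul_eq_mul, map_mul]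
      calc _ ≤ w t * 1 := by gcongr
        _ = _ := mul_one _
    · intro i
      rw [Derivation.smul_apply, smul_eq_mul, map_mul]
      exact mul_le_one' ht.le (hDx i)
  -- elements of the maximal ideal
  have hmax : ∀ b, w b < 1 → w (D b) ≤ 1 := by
    intro b hb
    have hbt : b = t * (b / t) := by field_simp
    rw [hbt, Derivation.leibniz, smul_eq_mul, smul_eq_mul]
    have hle : w (b / t) ≤ 1 := by
      rw [map_div₀, div_le_one₀ htpos]
      exact hunif b hb
    refine (w.map_add _ _).trans (max_le ((hlog _).trans hle) ?_)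
    rw [map_mul]
    exact mul_le_one' hle hDt
  rcases lt_or_eq_of_le ha with hlt | heq
  · exact hmax a hlt
  · obtain ⟨P, hP1, hP2⟩ := exists_sep_poly hx ht0 ht hc heq
    set φ := (MvPolynomial.aeval x : MvPolynomial ι k →ₐ[k] K).toRingHom
    have h1 : w (D (P.eval₂ φ a)) ≤ 1 := hmax _ hP1
    have h2 := hx.der_eval₂_sub heq.le D hDx P
    have h3 : P.derivative.eval₂ φ a * D a =
        D (P.eval₂ φ a) - (D (P.eval₂ φ a) - P.derivative.eval₂ φ a * D a) := by ring
    calc w (D a) = w (P.derivative.eval₂ φ a * D a) := by rw [map_mul, hP2, one_mul]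
      _ = w (D (P.eval₂ φ a) - (D (P.eval₂ φ a) - P.derivative.eval₂ φ a * D a)) := by
        rw [← h3]
      _ ≤ 1 := (w.map_sub _ _).trans (max_le h1 h2)

end lemmaA

end Pf72953
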