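import Mathlib
import Pool.Agent.Lib.Pf72953.Defs
import Pool.Agent.Lib.Pf72953.Bases
import Pool.Agent.Lib.Pf72953.LogDer

/-!
Systems adapted to a divisorial valuation.
-/

set_option linter.style.haveILetI false

open scoped WithZero

namespace Pf72953

section unif

variable {K : Type*} [Field K]

/-- `t` has the largest value `< 1`. -/
structure IsUnif (w : Valuation K ℤᵐ⁰) (t : K) : Prop where
  ne_zero : t ≠ 0
  lt_one : w t < 1
  le : ∀ a, w a < 1 → w a ≤ w t

theorem exists_unif (w : Valuation K ℤᵐ⁰) (hw : ∃ a : K, a ≠ 0 ∧ w a ≠ 1) :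
    ∃ t, IsUnif w t := by
  classical
  obtain ⟨a, ha0, ha⟩ : ∃ a : K, a ≠ 0 ∧ w a < 1 := by
    obtain ⟨a, ha0, ha⟩ := hw
    rcases lt_or_gt_of_ne ha with h | h
    · exact ⟨a, ha0, h⟩
    · refine ⟨a⁻¹, inv_ne_zero ha0, ?_⟩
      rw [map_inv₀]
      exact inv_lt_one_of_one_lt₀ h
  have key : ∀ b : K, b ≠ 0 → w b < 1 → ∃ n : ℕ, w b = WithZero.exp (-((n : ℤ) + 1)) := by
    intro b hb0 hb
    have hb0' : w b ≠ 0 := (Valuation.ne_zero_iff w).mpr hb0
    have h1 : WithZero.log (w b) < 0 := by
      rw [← WithZero.exp_log hb0', ← WithZero.exp_zero, WithZero.exp_lt_exp] at hb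
      exact hb
    refine ⟨(-WithZero.log (w b) - 1).toNat, ?_⟩
    rw [Int.toNat_of_nonneg (by omega)]
    conv_lhs => rw [← WithZero.exp_log hb0']
    congr 1
    ring
  have hex : ∃ n : ℕ, ∃ b : K, b ≠ 0 ∧ w b = WithZero.exp (-((n : ℤ) + 1)) := by
    obtain ⟨n, hn⟩ := key a ha0 ha
    exact ⟨n, a, ha0, hn⟩
  obtain ⟨t, ht0, ht⟩ := Nat.find_spec hex
  refine ⟨t, ht0, ?_, ?_⟩
  · rw [ht, ← WithZero.exp_zero, WithZero.exp_lt_exp]
    omega
  · intro b hb
    rcases eq_or_ne b 0 with rfl | hb0
    · simp
    obtain ⟨n, hn⟩ := key b hb0 hb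
    have := Nat.find_min' hex ⟨b, hb0, hn⟩
    rw [hn, ht, WithZero.exp_le_exp]
    omega

end unif

section adapted

variable {k K ι : Type*} [Field k] [Field K] [Algebra k K]

/-- `c` is the family `(t, x)` with `w t < 1`, `t ≠ 0` and `x` residually algebraically
independent. -/
def Adapted (k : Type*) {K ι : Type*} [Field k] [Field K] [Algebra k K]
    (w : Valuation K ℤᵐ⁰) (c : ι → K) (t : K) : Prop :=
  ∃ (r : ℕ) (e : ι ≃ Option (Fin r)) (x : Fin r → K), ResIndep k w x ∧ t ≠ 0 ∧ w t < 1 ∧
    c = (fun o : Option (Fin r) => o.elim t x) ∘ e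

theorem Adapted.algebraicIndependent {w : Valuation K ℤᵐ⁰} {c : ι → K} {t : K}
    (h : Adapted k w c t) : AlgebraicIndependent k c := by
  obtain ⟨r, e, x, hx, ht0, ht, rfl⟩ := h
  exact (hx.algebraicIndependent ht0 ht).comp e e.injective

theorem trdeg_eq_dimension [FinTrdeg k K] :
    (dimension k K : Cardinal) = Algebra.trdeg k K :=
  Cardinal.cast_toNat_of_lt_aleph0 (trdeg_lt_aleph0 k K)

theorem isTranscendenceBasis_of_card [FinTrdeg k K] [Fintype ι]
    (hι : Fintype.card ι = dimension k K) {c : ι → K} (hc : AlgebraicIndependent k c) :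
    IsTranscendenceBasis k c := by
  refine hc.isTranscendenceBasis_of_lift_trdeg_le_of_finite ?_
  rw [← trdeg_eq_dimension, Cardinal.mk_fintype, hι]
  simp

theorem card_eq_of_isTranscendenceBasis [Fintype ι] {c : ι → K}
    (hc : IsTranscendenceBasis k c) : Fintype.card ι = dimension k K := by
  have h := hc.lift_cardinalMk_eq_trdeg
  rw [Cardinal.mk_fintype, Cardinal.lift_natCast] at h
  have h2 := congrArg Cardinal.toNat h
  rw [Cardinal.toNat_natCast, Cardinal.toNat_lift] at h2
  exact h2

theorem Adapted.prod {w : Valuation K ℤᵐ⁰} [Fintype ι] {c : ι → K} {t : K}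
    (h : Adapted k w c t) : ∏ i, w (c i) = w t := by
  obtain ⟨r, e, x, hx, ht0, ht, rfl⟩ := h
  have := Equiv.prod_comp e (fun o : Option (Fin r) => w (o.elim t x))
  simp only [Function.comp_apply]
  rw [this, Fintype.prod_option]
  simp [hx.apply]

theorem Adapted.le_one {w : Valuation K ℤᵐ⁰} {c : ι → K} {t : K}
    (h : Adapted k w c t) (i : ι) : w (c i) ≤ 1 := by
  obtain ⟨r, e, x, hx, ht0, ht, rfl⟩ := h
  simp only [Function.comp_apply]
  rcases e i with _ | j
  · exact ht.le
  · exact (hx.apply j).le

theorem Adapted.map {L : Type*} [Field L] [Algebra k L] [Algebra K L] [IsScalarTower k K L]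
    {w : Valuation L ℤᵐ⁰} {c : ι → K} {t : K} (h : Adapted k (w.comap (algebraMap K L)) c t) :
    Adapted k w (fun i => algebraMap K L (c i)) (algebraMap K L t) := by
  obtain ⟨r, e, x, hx, ht0, ht, rfl⟩ := h
  refine ⟨r, e, fun j => algebraMap K L (x j), ?_, by simpa using ht0, ht, ?_⟩
  · intro p hp
    have := hx p hp
    rw [Valuation.comap_apply] at this
    rw [← this]
    congr 1
    exact MvPolynomial.aeval_algebraMap_apply _ x p
  · funext i
    simp only [Function.comp_apply]
    rcases e i with _ | j <;> rfl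

theorem finiteDimensional_adjoin_of_tb [Algebra.EssFiniteType k K] {κ : Type*} {c : κ → K}
    (hc : IsTranscendenceBasis k c) :
    FiniteDimensional (IntermediateField.adjoin k (Set.range c)) K := by
  set K₀ := IntermediateField.adjoin k (Set.range c)
  haveI := hc.isAlgebraic_field
  haveI : Algebra.EssFiniteType K₀ K := Algebra.EssFiniteType.of_comp k K₀ K
  obtain ⟨s, hs⟩ := IntermediateField.fg_top K₀ K
  haveI : FiniteDimensional K₀ (IntermediateField.adjoin K₀ (s : Set K)) :=
    IntermediateField.finiteDimensional_adjoin fun x _ =>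
      (Algebra.IsAlgebraic.isAlgebraic (R := K₀) x).isIntegral
  rw [hs] at this
  exact IntermediateField.topEquiv.toLinearEquiv.finiteDimensional

variable [CharZero k] [Algebra.EssFiniteType k K]

theorem Adapted.logBasis {w : Valuation K ℤᵐ⁰} [Fintype ι]
    (hι : Fintype.card ι = dimension k K) {c : ι → K} {t : K}
    (h : Adapted k w c t) : LogBasis k w c := by
  have htb := isTranscendenceBasis_of_card hι h.algebraicIndependent
  obtain ⟨r, e, x, hx, ht0, ht, rfl⟩ := h
  set d : Option (Fin r) → K := fun o => o.elim t x with hd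
  have hd' : IsTranscendenceBasis k d := by
    have : d = (d ∘ e) ∘ e.symm := by funext i; simp
    rw [this]
    exact (isTranscendenceBasis_equiv e.symm).mpr htb
  haveI := finiteDimensional_adjoin_of_tb hd'
  refine ⟨htb, fun i a => ?_⟩
  have hpd : ∀ a, pd htb i a = pd hd' (e i) a := by
    intro a
    have := pd_algebraMap (L := K) htb hd' e e.injective (fun _ => rfl) i a
    simpa using this.symm
  have hself : ∀ j, (pd htb i) (d j) = if e i = j then 1 else 0 := by
    intro j
    rw [hpd, pd_self]
  refine hx.der_le ht0 ht hd' ((d ∘ e) i • pd htb i) ?_ ?_ a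
  · have h1 := hself none
    have h2 : d none = t := rfl
    rw [h2] at h1
    rw [Derivation.smul_apply, h1, smul_eq_mul]
    split_ifs with h
    · simp only [Function.comp_apply, h, h2, mul_one, le_refl]
    · simp
  · intro j
    have h1 := hself (some j)
    have h2 : d (some j) = x j := rfl
    rw [h2] at h1
    rw [Derivation.smul_apply, h1, smul_eq_mul]
    split_ifs with h
    · simp only [Function.comp_apply, h, h2, mul_one]
      exact (hx.apply j).le
    · simp

theorem Adapted.regBasis {w : Valuation K ℤᵐ⁰} [Fintype ι]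
    (hι : Fintype.card ι = dimension k K) {c : ι → K} {t : K}
    (h : Adapted k w c t) (hu : IsUnif w t) : RegBasis k w c := by
  have htb := isTranscendenceBasis_of_card hι h.algebraicIndependent
  have hle := h.le_one
  obtain ⟨r, e, x, hx, ht0, ht, rfl⟩ := h
  set d : Option (Fin r) → K := fun o => o.elim t x with hd
  have hd' : IsTranscendenceBasis k d := by
    have : d = (d ∘ e) ∘ e.symm := by funext i; simp
    rw [this]
    exact (isTranscendenceBasis_equiv e.symm).mpr htb
  haveI := finiteDimensional_adjoin_of_tb hd'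
  refine ⟨htb, hle, fun i a ha => ?_⟩
  have hpd : ∀ a, pd htb i a = pd hd' (e i) a := by
    intro a
    have := pd_algebraMap (L := K) htb hd' e e.injective (fun _ => rfl) i a
    simpa using this.symm
  have hself : ∀ j, (pd htb i) (d j) = if e i = j then 1 else 0 := by
    intro j
    rw [hpd, pd_self]
  refine hx.der_le_one ht0 ht hu.le hd' (pd htb i) ?_ ?_ ha
  · have h1 := hself none
    have h2 : d none = t := rfl
    rw [h2] at h1
    rw [h1]
    split_ifs <;> simp
  · intro j
    have h1 := hself (some j)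
    have h2 : d (some j) = x j := rfl
    rw [h2] at h1
    rw [h1]
    split_ifs <;> simp

omit [CharZero k] in
/-- existence of adapted systems -/
theorem IsDivisorial.exists_adapted {w : Valuation K ℤᵐ⁰} (hw : IsDivisorial k K w) [Fintype ι]
    (hι : Fintype.card ι = dimension k K) : ∃ (c : ι → K) (t : K), IsUnif w t ∧
      Adapted k w c t := by
  obtain ⟨t, ht⟩ := exists_unif w hw.nontrivial
  obtain ⟨x, hx⟩ := hw.resid
  have hx' : ResIndep k w x := hx
  have hpos : 1 ≤ dimension k K := by
    by_contra h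
    have h0 : dimension k K = 0 := by omega
    -- then `t` would be algebraic
    have h1 : AlgebraicIndependent k (fun o : Option (Fin 0) => o.elim t (Fin.elim0 : Fin 0 → K)) := by
      refine ResIndep.algebraicIndependent (w := w) ?_ ht.ne_zero ht.lt_one
      intro p hp
      obtain ⟨c, rfl⟩ : ∃ c, p = MvPolynomial.C c := ⟨_, MvPolynomial.eq_C_of_isEmpty p⟩
      simp only [MvPolynomial.algHom_C]
      exact hw.const c (by rintro rfl; simp at hp)
    have h2 := h1.lift_cardinalMk_le_trdeg
    rw [← trdeg_eq_dimension, h0] at h2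
    simp at h2
  have e : ι ≃ Option (Fin (dimension k K - 1)) := Fintype.equivOfCardEq (by
    rw [hι, Fintype.card_option, Fintype.card_fin]
    omega)
  exact ⟨_, t, ht, _, e, x, hx', ht.ne_zero, ht.lt_one, rfl⟩

end adapted

end Pf72953
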