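import Mathlib
import Pool.Agent.Lib.Pf72953.Adapted

/-!
The restriction of a divisorial valuation to a subfield is divisorial or trivial.
-/

set_option linter.style.haveILetI false

open scoped WithZero
open IsLocalRing

namespace Pf72953

section residue

variable {k K ι Γ : Type*} [Field k] [Field K] [Algebra k K] [LinearOrderedCommGroupWithZero Γ]

theorem residue_eq_zero_iff' (v : Valuation K Γ) (a : v.valuationSubring) :
    residue v.valuationSubring a = 0 ↔ v a < 1 := by
  rw [residue_eq_zero_iff]
  exact Valuation.mem_maximalIdeal_iff K v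

theorem resIndep_iff (v : Valuation K Γ) [Algebra k v.valuationSubring]
    [IsScalarTower k v.valuationSubring K] (x : ι → v.valuationSubring) :
    ResIndep k v (fun i => (x i : K)) ↔
      AlgebraicIndependent k (fun i => residue v.valuationSubring (x i)) := by
  have h1 : ∀ p : MvPolynomial ι k, MvPolynomial.aeval (fun i => (x i : K)) p =
      ((MvPolynomial.aeval x p : v.valuationSubring) : K) := by
    intro p
    exact MvPolynomial.aeval_algebraMap_apply K x p
  have h2 : ∀ p : MvPolynomial ι k,
      MvPolynomial.aeval (fun i => residue v.valuationSubring (x i)) p =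
      residue v.valuationSubring (MvPolynomial.aeval x p) := by
    intro p
    exact MvPolynomial.aeval_algebraMap_apply (ResidueField v.valuationSubring) x p
  rw [algebraicIndependent_iff]
  constructor
  · intro h p hp
    rw [h2, residue_eq_zero_iff'] at hp
    by_contra hne
    have := h p hne
    rw [h1] at this
    exact absurd this hp.ne
  · intro h p hp
    rw [h1]
    have hle : v ((MvPolynomial.aeval x p : v.valuationSubring) : K) ≤ 1 :=
      (MvPolynomial.aeval x p : v.valuationSubring).2
    refine le_antisymm hle (not_lt.mp fun hlt => hp (h p ?_))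
    rw [h2, residue_eq_zero_iff']
    exact hlt

end residue

section ext

variable {F L Γ ι : Type*} [Field F] [Field L] [Algebra F L] [LinearOrderedCommGroupWithZero Γ]

/-- elements residually algebraically independent over the residue field of a subfield are
algebraically independent over the subfield -/
theorem algebraicIndependent_of_residue (v : Valuation F Γ) (w : Valuation L Γ)
    [v.HasExtension w] (z : ι → w.valuationSubring)
    (hz : AlgebraicIndependent (ResidueField v.valuationSubring)
      (fun i => residue w.valuationSubring (z i))) :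
    AlgebraicIndependent F (fun i => (z i : L)) := by
  classical
  rw [algebraicIndependent_iff]
  intro P hP
  by_contra hne
  obtain ⟨m, hm⟩ : P.support.Nonempty := by
    rwa [Finset.nonempty_iff_ne_empty, Ne, MvPolynomial.support_eq_empty]
  obtain ⟨m₀, hm₀, hmax⟩ := Finset.exists_max_image P.support
    (fun i => v (P.coeff i)) ⟨m, hm⟩
  have hc0 : P.coeff m₀ ≠ 0 := MvPolynomial.mem_support_iff.mp hm₀
  have hcpos : 0 < v (P.coeff m₀) := zero_lt_iff.mpr ((Valuation.ne_zero_iff v).mpr hc0)
  set Q : MvPolynomial ι F := MvPolynomial.C (P.coeff m₀)⁻¹ * P with hQ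
  have hQc : ∀ i, Q.coeff i = (P.coeff m₀)⁻¹ * P.coeff i := fun i => by
    rw [hQ, MvPolynomial.coeff_C_mul]
  have hQ1 : ∀ i, Q.coeff i ∈ v.valuationSubring := by
    intro i
    rw [Valuation.mem_valuationSubring_iff, hQc, map_mul, map_inv₀]
    by_cases hi : i ∈ P.support
    · calc _ ≤ (v (P.coeff m₀))⁻¹ * v (P.coeff m₀) := by
            gcongr
            exact hmax i hi
        _ = 1 := inv_mul_cancel₀ hcpos.ne'
    · rw [MvPolynomial.notMem_support_iff.mp hi]; simp
  have hmem : Q ∈ Set.range (MvPolynomial.map (algebraMap v.valuationSubring F) :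
      MvPolynomial ι v.valuationSubring →+* MvPolynomial ι F) := by
    rw [MvPolynomial.mem_range_map_iff_coeffs_subset]
    intro c hc
    rw [Finset.mem_coe, MvPolynomial.mem_coeffs_iff] at hc
    obtain ⟨i, _, rfl⟩ := hc
    exact ⟨⟨_, hQ1 i⟩, rfl⟩
  obtain ⟨Q₀, hQ₀⟩ := hmem
  have hcoef : ∀ i, ((Q₀.coeff i : v.valuationSubring) : F) = Q.coeff i := by
    intro i
    rw [← hQ₀, MvPolynomial.coeff_map]
    rfl
  have hev : ((MvPolynomial.aeval z Q₀ : w.valuationSubring) : L) = 0 := by
    have e1 : ((MvPolynomial.aeval z Q₀ : w.valuationSubring) : L) =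
        MvPolynomial.aeval (fun i => (z i : L)) Q := by
      rw [← hQ₀]
      have := MvPolynomial.aeval_algebraMap_apply (R := v.valuationSubring) L z Q₀
      have e2 : algebraMap w.valuationSubring L (MvPolynomial.aeval z Q₀) =
        ((MvPolynomial.aeval z Q₀ : w.valuationSubring) : L) := rfl
      rw [← e2, ← this]
      have e3 := MvPolynomial.aeval_map_algebraMap (R := v.valuationSubring) F
        (fun i => (z i : L)) Q₀
      exact e3.symm
    rw [e1, hQ, map_mul, hP, mul_zero]
  have hev' : MvPolynomial.aeval z Q₀ = 0 := Subtype.ext hev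
  have h2 : MvPolynomial.aeval (fun i => residue w.valuationSubring (z i))
      (MvPolynomial.map (residue v.valuationSubring) Q₀) = 0 := by
    have e1 := MvPolynomial.aeval_map_algebraMap (R := v.valuationSubring)
      (ResidueField v.valuationSubring) (fun i => residue w.valuationSubring (z i)) Q₀
    have e2 := MvPolynomial.aeval_algebraMap_apply (R := v.valuationSubring)
      (ResidueField w.valuationSubring) z Q₀
    have e3 : MvPolynomial.aeval (fun i => residue w.valuationSubring (z i))
      (MvPolynomial.map (residue v.valuationSubring) Q₀) =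
      MvPolynomial.aeval (fun i => residue w.valuationSubring (z i)) Q₀ := e1
    rw [e3]
    refine Eq.trans e2 ?_
    rw [hev', map_zero]
  have h3 := (algebraicIndependent_iff.mp hz) _ h2
  have h4 := congrArg (fun q => MvPolynomial.coeff m₀ q) h3
  simp only [MvPolynomial.coeff_map, MvPolynomial.coeff_zero] at h4
  rw [residue_eq_zero_iff'] at h4
  rw [hcoef, hQc, inv_mul_cancel₀ hc0, map_one] at h4
  exact lt_irrefl _ h4

end ext

section main

variable {k F L Γ : Type*} [Field k] [Field F] [Field L] [Algebra k F] [Algebra k L]
  [Algebra F L] [IsScalarTower k F L]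

theorem natCast_le_trdeg_of_le_dimension {K : Type*} [Field K] [Algebra k K] {n : ℕ}
    {x : Fin n → K} (hx : AlgebraicIndependent k x) : (n : Cardinal) ≤ Algebra.trdeg k K := by
  have := hx.lift_cardinalMk_le_trdeg
  simpa using this

theorem exists_algebraicIndependent_of_le_trdeg {K : Type*} [Field K] [Algebra k K] {n : ℕ}
    (hn : (n : Cardinal) ≤ Algebra.trdeg k K) : ∃ x : Fin n → K, AlgebraicIndependent k x := by
  obtain ⟨s, hs⟩ := exists_isTranscendenceBasis k K
  rw [← hs.cardinalMk_eq_trdeg] at hn
  have h1 : Cardinal.lift (Cardinal.mk (Fin n)) ≤ Cardinal.lift (Cardinal.mk s) := by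
    simpa using hn
  rw [Cardinal.lift_mk_le'] at h1
  obtain ⟨f⟩ := h1
  exact ⟨_, hs.1.comp f f.injective⟩

/-- **Abhyankar**: a divisorial valuation of `L/k` restricts to a divisorial or trivial valuation
of a subfield `F`. -/
theorem IsDivisorial.restrict [FinTrdeg k L] {w : Valuation L ℤᵐ⁰} (hw : IsDivisorial k L w)
    (hnt : ∃ a : F, a ≠ 0 ∧ w (algebraMap F L a) ≠ 1) :
    IsDivisorial k F (w.comap (algebraMap F L)) := by
  classical
  set v := w.comap (algebraMap F L) with hv
  haveI hext : v.HasExtension w := ⟨Valuation.IsEquiv.refl⟩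
  -- structures
  have hkL : ∀ c : k, algebraMap k L c ∈ w.valuationSubring := by
    intro c
    rcases eq_or_ne c 0 with rfl | hc
    · simp
    · exact (hw.const c hc).le
  have hkF : ∀ c : k, algebraMap k F c ∈ v.valuationSubring := by
    intro c
    have := hkL c
    rw [IsScalarTower.algebraMap_apply k F L] at this
    exact this
  letI algL : Algebra k w.valuationSubring :=
    ((algebraMap k L).codRestrict w.valuationSubring hkL).toAlgebra
  letI algF : Algebra k v.valuationSubring :=
    ((algebraMap k F).codRestrict v.valuationSubring hkF).toAlgebra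
  haveI : IsScalarTower k w.valuationSubring L := IsScalarTower.of_algebraMap_eq fun _ => rfl
  haveI : IsScalarTower k v.valuationSubring F := IsScalarTower.of_algebraMap_eq fun _ => rfl
  haveI : IsScalarTower k v.valuationSubring w.valuationSubring :=
    IsScalarTower.of_algebraMap_eq fun c => Subtype.ext (by
      change algebraMap k L c = algebraMap F L (algebraMap k F c)
      rw [← IsScalarTower.algebraMap_apply k F L])
  haveI : IsScalarTower k (ResidueField v.valuationSubring) (ResidueField w.valuationSubring) :=
    IsScalarTower.of_algebraMap_eq fun c => by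
      rw [IsScalarTower.algebraMap_apply k w.valuationSubring (ResidueField w.valuationSubring),
        IsScalarTower.algebraMap_apply k v.valuationSubring w.valuationSubring]
      rfl
  -- the residue field of `w` has large transcendence degree
  obtain ⟨x, hx⟩ := hw.resid
  have hx' : ResIndep k w x := hx
  have hmem : ∀ i, x i ∈ w.valuationSubring := fun i => (hx'.apply i).le
  have hx'' := (resIndep_iff w (fun i => (⟨x i, hmem i⟩ : w.valuationSubring))).mp hx'
  have hL := natCast_le_trdeg_of_le_dimension hx''
  -- the relative residue transcendence degree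
  have hrel : Cardinal.lift (Algebra.trdeg (ResidueField v.valuationSubring)
      (ResidueField w.valuationSubring)) ≤ Cardinal.lift (Algebra.trdeg F L) := by
    obtain ⟨s, hs⟩ := exists_isTranscendenceBasis (ResidueField v.valuationSubring)
      (ResidueField w.valuationSubring)
    choose z hz using fun a : s => residue_surjective (a : ResidueField w.valuationSubring)
    have hz' : (fun a : s => residue w.valuationSubring (z a)) = Subtype.val := funext hz
    have h1 := algebraicIndependent_of_residue v w z (by rw [hz']; exact hs.1)
    rw [← hs.cardinalMk_eq_trdeg]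
    exact h1.lift_cardinalMk_le_trdeg
  have hsum := lift_trdeg_add_eq k F L
  have hsum' := lift_trdeg_add_eq k (ResidueField v.valuationSubring)
    (ResidueField w.valuationSubring)
  have hfin : Algebra.trdeg k L < Cardinal.aleph0 := trdeg_lt_aleph0 k L
  obtain ⟨n, hn⟩ := Cardinal.lt_aleph0.mp hfin
  have hn' : dimension k L = n := by rw [dimension, hn, Cardinal.toNat_natCast]
  rw [hn, Cardinal.lift_natCast] at hsum
  have hfin2 := hsum.trans_lt (Cardinal.natCast_lt_aleph0 (n := n))
  rw [Cardinal.add_lt_aleph0_iff, Cardinal.lift_lt_aleph0, Cardinal.lift_lt_aleph0] at hfin2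
  obtain ⟨f, hf⟩ := Cardinal.lt_aleph0.mp hfin2.1
  obtain ⟨d, hd⟩ := Cardinal.lt_aleph0.mp hfin2.2
  have hf' : dimension k F = f := by rw [dimension, hf, Cardinal.toNat_natCast]
  rw [hf, hd, Cardinal.lift_natCast, Cardinal.lift_natCast] at hsum
  have hfd : f + d = n := by exact_mod_cast hsum
  rw [hd, Cardinal.lift_natCast] at hrel
  have hgoal : ((dimension k F - 1 : ℕ) : Cardinal) ≤
      Algebra.trdeg k (ResidueField v.valuationSubring) := by
    by_contra hlt
    rw [not_le] at hlt
    obtain ⟨r, hr⟩ := Cardinal.lt_aleph0.mp (hlt.trans Cardinal.natCast_lt_aleph0)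
    rw [hr] at hlt hsum'
    have hlt' : r < dimension k F - 1 := by exact_mod_cast hlt
    have hrel2 : Algebra.trdeg (ResidueField v.valuationSubring)
      (ResidueField w.valuationSubring) < Cardinal.aleph0 := by
      have := hrel.trans_lt (Cardinal.natCast_lt_aleph0 (n := d))
      rwa [Cardinal.lift_lt_aleph0] at this
    obtain ⟨e, he⟩ := Cardinal.lt_aleph0.mp hrel2
    rw [he] at hsum'
    rw [he, Cardinal.lift_natCast] at hrel
    have hed : e ≤ d := by exact_mod_cast hrel
    rw [Cardinal.lift_natCast, Cardinal.lift_natCast] at hsum'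
    have h6 := Cardinal.lift_le.mpr hL
    rw [← hsum', Cardinal.lift_natCast] at h6
    have h7 : dimension k L - 1 ≤ r + e := by exact_mod_cast h6
    omega
  obtain ⟨y, hy⟩ := exists_algebraicIndependent_of_le_trdeg hgoal
  choose z hz using fun i => residue_surjective (y i)
  have hz' : (fun i => residue v.valuationSubring (z i)) = y := funext hz
  refine ⟨?_, hnt, fun i => (z i : F), ?_⟩
  · intro c hc
    change w (algebraMap F L (algebraMap k F c)) = 1
    rw [← IsScalarTower.algebraMap_apply k F L]
    exact hw.const c hc
  · exact (resIndep_iff v z).mpr (by rw [hz']; exact hy)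

end main

end Pf72953
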