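import Mathlib
import Pool.Agent.Lib.Pf72953.Adapted

/-!
Coordinates for pluricanonical forms.
-/

set_option linter.style.haveILetI false

open scoped WithZero TensorProduct
open KaehlerDifferential Module

namespace Pf72953

section der

variable {k K ι : Type*} [Field k] [CharZero k] [Field K] [Algebra k K] [Fintype ι]

theorem der_eq_sum {z : ι → K} (hz : IsTranscendenceBasis k z) (D : Derivation k K K) (a : K) :
    D a = ∑ i, pd hz i a * D (z i) := by
  have h := congrArg D.liftKaehlerDifferential (D_eq_sum hz a)
  rw [map_sum] at h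
  simpa [Derivation.liftKaehlerDifferential_comp_D] using h

/-- the basis `∂/∂z_i` of the space of derivations -/
noncomputable def derBasis [DecidableEq ι] {z : ι → K} (hz : IsTranscendenceBasis k z) :
    Basis ι K (Derivation k K K) :=
  Basis.ofEquivFun
    { toFun := fun D i => D (z i)
      map_add' := fun _ _ => rfl
      map_smul' := fun _ _ => rfl
      invFun := fun f => ∑ i, f i • pd hz i
      left_inv := fun D => by
        ext a
        rw [der_eq_sum hz D a, ← Derivation.coeFnAddMonoidHom_apply, map_sum, Finset.sum_apply]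
        refine Finset.sum_congr rfl fun i _ => ?_
        rw [Derivation.coeFnAddMonoidHom_apply, Derivation.smul_apply, smul_eq_mul, mul_comm]
      right_inv := fun f => by
        funext j
        change (∑ i, f i • pd hz i : Derivation k K K) (z j) = f j
        rw [← Derivation.coeFnAddMonoidHom_apply, map_sum, Finset.sum_apply]
        simp only [Derivation.coeFnAddMonoidHom_apply, Derivation.smul_apply, pd_self,
          smul_eq_mul, mul_ite, mul_one, mul_zero]
        simp }

theorem derBasis_apply [DecidableEq ι] {z : ι → K} (hz : IsTranscendenceBasis k z) (i : ι) :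
    derBasis hz i = pd hz i := by
  rw [derBasis, Basis.coe_ofEquivFun]
  change ∑ j, (Pi.single i (1 : K) : ι → K) j • pd hz j = pd hz i
  rw [Finset.sum_eq_single i]
  · simp
  · intro j _ hj
    rw [Pi.single_eq_of_ne hj, zero_smul]
  · simp

theorem derBasis_repr [DecidableEq ι] {z : ι → K} (hz : IsTranscendenceBasis k z)
    (D : Derivation k K K) (i : ι) : (derBasis hz).repr D i = D (z i) := rfl

end der

section eval

variable {k K : Type*} [Field k] [Field K] [Algebra k K] {r : ℕ}

/-- evaluation of an `r`-form on `r` derivations -/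
noncomputable def evalForm (D : Fin r → Derivation k K K) : Form k K r →ₗ[K] K where
  toFun ω := (show (Derivation k K K) [⋀^Fin r]→ₗ[K] K from ω) D
  map_add' _ _ := rfl
  map_smul' _ _ := rfl

theorem evalForm_wedge (D : Fin r → Derivation k K K) (a : Fin r → K) :
    evalForm D (wedge k a) = Matrix.det (Matrix.of fun i j => D i (a j)) := rfl

/-- evaluation of an `m`-fold `r`-form on `r` derivations -/
noncomputable def evalPluri (D : Fin r → Derivation k K K) (m : ℕ) : PluriForm k K r m →ₗ[K] K :=
  PiTensorProduct.lift
    ((MultilinearMap.mkPiAlgebra K (Fin m) K).compLinearMap (fun _ => evalForm D))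

/-- pure tensors -/
noncomputable def ptprod {m : ℕ} (x : Fin m → Form k K r) : PluriForm k K r m :=
  PiTensorProduct.tprod K x

theorem ptprod_smul {m : ℕ} (c : Fin m → K) (x : Fin m → Form k K r) :
    ptprod (fun i => c i • x i) = (∏ i, c i) • ptprod x :=
  MultilinearMap.map_smul_univ (PiTensorProduct.tprod K) c x

theorem PluriForm.induction {m : ℕ} {P : PluriForm k K r m → Prop}
    (h1 : ∀ (c : K) (x : Fin m → Form k K r), P (c • ptprod x))
    (h2 : ∀ x y, P x → P y → P (x + y)) (ω : PluriForm k K r m) : P ω :=
  PiTensorProduct.induction_on (motive := P) ω (fun c x => h1 c x) (fun x y hx hy => h2 x y hx hy)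

theorem evalPluri_tprod (D : Fin r → Derivation k K K) {m : ℕ} (x : Fin m → Form k K r) :
    evalPluri D m (ptprod x) = ∏ i, evalForm D (x i) := by
  rw [evalPluri]
  refine (PiTensorProduct.lift.tprod _).trans ?_
  simp

theorem evalPluri_pureForm (D : Fin r → Derivation k K K) {m : ℕ} (a : Fin m → Fin r → K) :
    evalPluri D m (pureForm k a) = ∏ i, Matrix.det (Matrix.of fun l j => D l (a i j)) := by
  have : pureForm k a = ptprod (fun i => wedge k (a i)) := rfl
  rw [this, evalPluri_tprod]
  simp only [evalForm_wedge]

theorem evalPluri_regularAt {w : Valuation K ℤᵐ⁰} (D : Fin r → Derivation k K K)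
    (hD : ∀ i a, w a ≤ 1 → w (D i a) ≤ 1) {m : ℕ} {ω : PluriForm k K r m}
    (hω : ω ∈ regularAt k r m w) : w (evalPluri D m ω) ≤ 1 := by
  rw [regularAt] at hω
  induction hω using AddSubgroup.closure_induction with
  | mem ω h =>
    obtain ⟨c, a, hc, ha, rfl⟩ := h
    rw [map_smul, evalPluri_pureForm, smul_eq_mul, map_mul, map_prod]
    refine mul_le_one' hc (Finset.prod_le_one' fun i _ => ?_)
    rw [Matrix.det_apply]
    refine Valuation.map_sum_le _ fun σ _ => ?_
    rw [Units.smul_def, zsmul_eq_mul, map_mul]
    refine mul_le_one' ?_ ?_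
    · rcases Int.units_eq_one_or (Equiv.Perm.sign σ) with h | h <;> simp [h, Valuation.map_neg]
    rw [map_prod]
    exact Finset.prod_le_one' fun j _ => hD _ _ (ha i j)
  | zero => simp
  | add x y _ _ hx hy =>
    rw [map_add]
    exact (w.map_add _ _).trans (max_le hx hy)
  | neg x _ hx =>
    rw [map_neg, Valuation.map_neg]
    exact hx

end eval

section coef

variable {k K : Type*} [Field k] [CharZero k] [Field K] [Algebra k K]

theorem wedge_eq_det {z : Fin (dimension k K) → K} (hz : IsTranscendenceBasis k z) :
    wedge k z = (derBasis hz).det := by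
  refine AlternatingMap.ext fun D => ?_
  change Matrix.det (Matrix.of fun i j => D i (z j)) = _
  rw [Basis.det_apply, ← Matrix.det_transpose]
  rfl

theorem eq_evalForm_smul {z : Fin (dimension k K) → K} (hz : IsTranscendenceBasis k z)
    (ω : Form k K (dimension k K)) : ω = evalForm (fun i => pd hz i) ω • wedge k z := by
  have h := AlternatingMap.eq_smul_basis_det (derBasis hz)
    (show (Derivation k K K) [⋀^Fin (dimension k K)]→ₗ[K] K from ω)
  rw [wedge_eq_det hz]
  refine h.trans ?_
  have h2 : (⇑(derBasis hz) : Fin (dimension k K) → Derivation k K K) = fun i => pd hz i :=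
    funext fun i => derBasis_apply hz i
  rw [h2]
  rfl

/-- the coordinate of a pluri-form with respect to `(dz₁ ∧ ⋯ ∧ dzₙ)^{⊗ m}` -/
noncomputable def coef {z : Fin (dimension k K) → K} (hz : IsTranscendenceBasis k z) (m : ℕ) :
    PluriForm k K (dimension k K) m →ₗ[K] K :=
  evalPluri (fun i => pd hz i) m

theorem coef_pureForm {z : Fin (dimension k K) → K} (hz : IsTranscendenceBasis k z) {m : ℕ}
    (a : Fin m → Fin (dimension k K) → K) :
    coef hz m (pureForm k a) = ∏ i, jac hz (a i) := by
  rw [coef, evalPluri_pureForm]
  rfl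

theorem eq_coef_smul {z : Fin (dimension k K) → K} (hz : IsTranscendenceBasis k z) (m : ℕ)
    (ω : PluriForm k K (dimension k K) m) : ω = coef hz m ω • pureForm k (fun _ => z) := by
  refine PluriForm.induction (P := fun ω => ω = coef hz m ω • pureForm k (fun _ => z)) ?_ ?_ ω
  · intro c x
    rw [map_smul, coef, evalPluri_tprod, smul_eq_mul, mul_smul]
    congr 1
    conv_lhs => rw [show x = fun i => evalForm (fun i => pd hz i) (x i) • wedge k z from
      funext fun i => eq_evalForm_smul hz (x i)]
    exact ptprod_smul _ _
  · intro x y hx hy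
    rw [map_add, add_smul, ← hx, ← hy]

theorem coef_self {z : Fin (dimension k K) → K} (hz : IsTranscendenceBasis k z) (m : ℕ) :
    coef hz m (pureForm k (fun _ => z)) = 1 := by
  rw [coef_pureForm]
  simp [jac_self]

theorem coef_chain {y z : Fin (dimension k K) → K} (hy : IsTranscendenceBasis k y)
    (hz : IsTranscendenceBasis k z) (m : ℕ) (ω : PluriForm k K (dimension k K) m) :
    coef hz m ω = coef hy m ω * jac hz y ^ m := by
  conv_lhs => rw [eq_coef_smul hy m ω]
  rw [map_smul, coef_pureForm, smul_eq_mul, Finset.prod_const, Finset.card_univ, Fintype.card_fin]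

/-- regularity in coordinates -/
theorem mem_regularAt_iff {w : Valuation K ℤᵐ⁰} {c : Fin (dimension k K) → K}
    (hc : RegBasis k w c) (m : ℕ) (ω : PluriForm k K (dimension k K) m) :
    ω ∈ regularAt k (dimension k K) m w ↔ w (coef hc.tb m ω) ≤ 1 := by
  constructor
  · intro h
    exact evalPluri_regularAt _ (fun i a ha => hc.der i a ha) h
  · intro h
    rw [eq_coef_smul hc.tb m ω]
    exact AddSubgroup.subset_closure ⟨_, _, h, fun _ j => hc.le_one j, rfl⟩

end coef

end Pf72953
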