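import Mathlib

/-!
Counting algebraically independent ratios.
-/

set_option linter.style.haveILetI false

open Polynomial

namespace Pf72953

/-- If `θ` is an algebraically independent family of elements algebraic over `k(S)`, then `S`
contains an algebraically independent family of the same size. -/
theorem exists_indep_in_set {k L : Type*} [Field k] [Field L] [Algebra k L] (S : Set L) {c : ℕ}
    (θ : Fin c → L) (hθ : AlgebraicIndependent k θ)
    (hS : ∀ i, IsAlgebraic (Algebra.adjoin k S) (θ i)) :
    ∃ ψ : Fin c → L, AlgebraicIndependent k ψ ∧ ∀ i, ψ i ∈ S := by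
  obtain ⟨u, hu⟩ := (AlgebraicIndependent.matroid k L).exists_isBasis S
  have h1 : (AlgebraicIndependent.matroid k L).Indep (Set.range θ) := by
    rw [AlgebraicIndependent.matroid_indep_iff]
    exact hθ.to_subtype_range
  have h2 : Set.range θ ⊆ (AlgebraicIndependent.matroid k L).closure S := by
    rintro _ ⟨i, rfl⟩
    rw [AlgebraicIndependent.matroid_closure_eq]
    exact hS i
  have h3 := h1.encard_le_eRk_of_subset h2
  rw [Matroid.eRk_closure_eq, ← hu.encard_eq_eRk] at h3
  have h4 : (Set.range θ).encard = c := by
    rw [← Set.image_univ, hθ.injective.encard_image, Set.encard_univ, ENat.card_eq_coe_natCard]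
    simp
  rw [h4] at h3
  obtain ⟨t, htu, ht⟩ := Set.exists_subset_encard_eq h3
  have htfin : t.Finite := Set.finite_of_encard_eq_coe ht
  have hcard : t.ncard = c := by
    rw [← htfin.cast_ncard_eq] at ht
    exact_mod_cast ht
  haveI := htfin.fintype
  have hcard' : Fintype.card t = c := by
    rw [← hcard, Set.ncard_eq_toFinset_card', Set.toFinset_card]
  let e : Fin c ≃ t := (Fintype.equivFinOfCardEq hcard').symm
  refine ⟨fun i => (e i : L), ?_, fun i => hu.subset (htu (e i).2)⟩
  have h5 : AlgebraicIndepOn k id u := hu.indep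
  have h6 : AlgebraicIndependent k (fun a : u => (a : L)) := h5
  exact h6.comp (fun i => (⟨(e i : L), htu (e i).2⟩ : u)) (fun i j hij => by
    have : (e i : L) = (e j : L) := congrArg (fun a : u => (a : L)) hij
    exact e.injective (Subtype.ext this))

/-- values at the constants control the coefficients -/
theorem coeff_mem_of_eval {k L : Type*} [Field k] [CharZero k] [Field L] [Algebra k L]
    (A : Subalgebra k L) (Q : L[X]) (hQ : ∀ l : ℕ, Q.eval (algebraMap k L l) ∈ A) (n : ℕ) :
    Q.coeff n ∈ A := by
  classical
  set s : Finset ℕ := Finset.range (Q.natDegree + 1) with hs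
  set v : ℕ → k := fun l => (l : k) with hv
  set vL : ℕ → L := fun l => algebraMap k L (l : k) with hvL
  have hinj : Set.InjOn vL s := by
    intro a _ b _ hab
    have := (algebraMap k L).injective hab
    exact_mod_cast this
  have hdeg : Q.degree < s.card := by
    rw [hs, Finset.card_range]
    refine (Polynomial.degree_le_natDegree).trans_lt ?_
    exact_mod_cast Nat.lt_succ_self _
  have hint := Lagrange.eq_interpolate (s := s) hinj hdeg
  rw [Lagrange.interpolate_apply] at hint
  rw [hint, finsetSum_coeff]
  refine A.sum_mem fun i _ => ?_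
  rw [coeff_C_mul]
  refine A.mul_mem (hQ i) ?_
  have hbasis : Lagrange.basis s vL i = (Lagrange.basis s v i).map (algebraMap k L) := by
    unfold Lagrange.basis
    rw [Polynomial.map_prod]
    refine Finset.prod_congr rfl fun j _ => ?_
    simp [Lagrange.basisDivisor, hv, hvL]
  rw [hbasis, coeff_map]
  exact A.algebraMap_mem _

/-- an element whose shifted norms lie in a subring is algebraic over it -/
theorem isAlgebraic_of_norm {k E L : Type*} [Field k] [CharZero k] [Field E] [Field L]
    [Algebra k E] [Algebra k L] [Algebra E L] [IsScalarTower k E L] [FiniteDimensional E L]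
    [IsGalois E L] (A : Subalgebra k L) (a : L)
    (ha : ∀ l : ℕ, algebraMap E L (Algebra.norm E (a + algebraMap k L (l : k))) ∈ A) :
    IsAlgebraic A a := by
  classical
  set Q : L[X] := ∏ σ : L ≃ₐ[E] L, (X + C (σ a)) with hQ
  have hmonic : Q.Monic := monic_prod_of_monic _ _ fun σ _ => monic_X_add_C _
  have heval : ∀ l : ℕ, Q.eval (algebraMap k L (l : k)) =
      algebraMap E L (Algebra.norm E (a + algebraMap k L (l : k))) := by
    intro l
    rw [Algebra.norm_eq_prod_automorphisms, hQ, eval_prod]
    refine Finset.prod_congr rfl fun σ _ => ?_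
    have h1 : σ (algebraMap k L (l : k)) = algebraMap k L (l : k) := by
      rw [IsScalarTower.algebraMap_apply k E L, σ.commutes]
    rw [map_add, h1, eval_add, eval_X, eval_C, add_comm]
  have hcoef : ∀ n, Q.coeff n ∈ A := coeff_mem_of_eval A Q fun l => by
    rw [heval]; exact ha l
  have hlift : Q ∈ lifts (algebraMap A L) := by
    rw [lifts_iff_coeff_lifts]
    intro n
    exact ⟨⟨Q.coeff n, hcoef n⟩, rfl⟩
  obtain ⟨Q', hQ'⟩ := (mem_lifts Q).mp hlift
  have hneg : IsAlgebraic A (-a) := by
    refine ⟨Q', ?_, ?_⟩
    · rintro rfl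
      rw [Polynomial.map_zero] at hQ'
      exact hmonic.ne_zero hQ'.symm
    · rw [← aeval_map_algebraMap L, hQ', aeval_def, Algebra.algebraMap_self, eval₂_id, hQ,
        eval_prod]
      refine Finset.prod_eq_zero (Finset.mem_univ (1 : L ≃ₐ[E] L)) ?_
      simp
  have := hneg.neg
  rwa [neg_neg] at this

end Pf72953
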