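import Mathlib
import Pool.Agent.Lib.Pf72953.Adapted

/-!
A derivation regular on `O_w ∩ E` is regular on `O_w` if `L = E(β)` with `β` étale over
`O_w ∩ E`; consequently uniformizers of `E` remain uniformizers of `L`.
-/

set_option linter.style.haveILetI false

open scoped WithZero
open Polynomial

namespace Pf72953

section

variable {k E L : Type*} [Field k] [Field E] [Field L] [Algebra k L] [Algebra E L]

theorem val_le_one_of_isIntegral (w : Valuation L ℤᵐ⁰) {b : L}
    (hb : IsIntegral (w.comap (algebraMap E L)).valuationSubring b) : w b ≤ 1 := by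
  obtain ⟨p, hp, hpb⟩ := hb
  by_contra hlt
  rw [not_le] at hlt
  -- leading term dominates
  have hb0 : w b ≠ 0 := (zero_lt_one.trans hlt).ne'
  have h1 : w (p.eval₂ (algebraMap (w.comap (algebraMap E L)).valuationSubring L) b) =
      w b ^ p.natDegree := by
    rw [Polynomial.eval₂_eq_sum_range, Finset.sum_range_succ, Polynomial.coeff_natDegree,
      hp.leadingCoeff, map_one, one_mul, Valuation.map_add_eq_of_lt_right, map_pow]
    rw [map_pow]
    refine Valuation.map_sum_lt _ (pow_ne_zero _ hb0) fun i hi => ?_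
    rw [Finset.mem_range] at hi
    rw [map_mul, map_pow]
    have hc : w (algebraMap (w.comap (algebraMap E L)).valuationSubring L (p.coeff i)) ≤ 1 :=
      (p.coeff i).2
    calc _ ≤ 1 * w b ^ i := by gcongr
      _ = w b ^ i := one_mul _
      _ < w b ^ p.natDegree := pow_lt_pow_right₀ hlt hi
  rw [hpb, map_zero] at h1
  exact pow_ne_zero _ hb0 h1.symm

/-- the subring of `a ∈ O_w` with `D a ∈ O_w` -/
def regAlg (w : Valuation L ℤᵐ⁰) (D : Derivation k L L)
    (hD : ∀ a : E, w (algebraMap E L a) ≤ 1 → w (D (algebraMap E L a)) ≤ 1) :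
    Subalgebra (w.comap (algebraMap E L)).valuationSubring L where
  carrier := {a | w a ≤ 1 ∧ w (D a) ≤ 1}
  mul_mem' := by
    rintro a b ⟨ha, ha'⟩ ⟨hb, hb'⟩
    refine ⟨by rw [map_mul]; exact mul_le_one' ha hb, ?_⟩
    rw [Derivation.leibniz, smul_eq_mul, smul_eq_mul]
    refine (w.map_add _ _).trans (max_le ?_ ?_)
    · rw [map_mul]; exact mul_le_one' ha hb'
    · rw [map_mul]; exact mul_le_one' hb ha'
  add_mem' := by
    rintro a b ⟨ha, ha'⟩ ⟨hb, hb'⟩
    exact ⟨(w.map_add _ _).trans (max_le ha hb),
      by rw [map_add]; exact (w.map_add _ _).trans (max_le ha' hb')⟩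
  algebraMap_mem' := fun r => ⟨r.2, hD r r.2⟩

theorem mem_regAlg (w : Valuation L ℤᵐ⁰) (D : Derivation k L L)
    (hD : ∀ a : E, w (algebraMap E L a) ≤ 1 → w (D (algebraMap E L a)) ≤ 1) (a : L) :
    a ∈ regAlg w D hD ↔ w a ≤ 1 ∧ w (D a) ≤ 1 := Iff.rfl

theorem regAlg_div (w : Valuation L ℤᵐ⁰) (D : Derivation k L L)
    (hD : ∀ a : E, w (algebraMap E L a) ≤ 1 → w (D (algebraMap E L a)) ≤ 1) {a c : L}
    (hc : c ∈ regAlg w D hD) (hc1 : w c = 1) (hac : c * a ∈ regAlg w D hD) :
    a ∈ regAlg w D hD := by
  rw [mem_regAlg] at hc hac ⊢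
  have ha : w a ≤ 1 := by
    have := hac.1
    rwa [map_mul, hc1, one_mul] at this
  refine ⟨ha, ?_⟩
  have h1 : c * D a = D (c * a) - a * D c := by
    rw [Derivation.leibniz, smul_eq_mul, smul_eq_mul]; ring
  calc w (D a) = w (c * D a) := by rw [map_mul, hc1, one_mul]
    _ = w (D (c * a) - a * D c) := by rw [h1]
    _ ≤ max (w (D (c * a))) (w (a * D c)) := w.map_sub _ _
    _ ≤ 1 := max_le hac.2 (by rw [map_mul]; exact mul_le_one' ha hc.2)

theorem der_aeval_sub_le (w : Valuation L ℤᵐ⁰) (D : Derivation k L L)
    (hD : ∀ a : E, w (algebraMap E L a) ≤ 1 → w (D (algebraMap E L a)) ≤ 1) {u : L}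
    (hu : w u ≤ 1) (P : (w.comap (algebraMap E L)).valuationSubring[X]) :
    w (D (aeval u P) - aeval u (derivative P) * D u) ≤ 1 := by
  induction P using Polynomial.induction_on with
  | C p =>
    simp only [aeval_C, derivative_C, map_zero, zero_mul, sub_zero]
    exact hD p p.2
  | add p q hp hq =>
    rw [derivative_add, map_add, map_add, map_add, add_mul, add_sub_add_comm]
    exact (w.map_add _ _).trans (max_le hp hq)
  | monomial n p h =>
    have e0 : (C p * X ^ (n + 1) : (w.comap (algebraMap E L)).valuationSubring[X]) =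
      (C p * X ^ n) * X := by ring
    have e1 : aeval u ((C p * X ^ n) * X : (w.comap (algebraMap E L)).valuationSubring[X]) =
      aeval u (C p * X ^ n : (w.comap (algebraMap E L)).valuationSubring[X]) * u := by
      rw [map_mul, aeval_X]
    have e2 : aeval u (derivative ((C p * X ^ n) * X :
        (w.comap (algebraMap E L)).valuationSubring[X])) =
      aeval u (derivative (C p * X ^ n : (w.comap (algebraMap E L)).valuationSubring[X])) * u +
        aeval u (C p * X ^ n : (w.comap (algebraMap E L)).valuationSubring[X]) := by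
      rw [derivative_mul, derivative_X, mul_one, map_add, map_mul, aeval_X]
    rw [e0, e1, e2, Derivation.leibniz, smul_eq_mul, smul_eq_mul]
    set A := aeval u (C p * X ^ n)
    set B := aeval u (derivative (C p * X ^ n))
    have : A * D u + u * D A - (B * u + A) * D u = u * (D A - B * D u) := by ring
    rw [this, map_mul]
    exact mul_le_one' hu h

/-- **Étale extension of regular derivations.** -/
theorem der_le_one_of_etale [FiniteDimensional E L] [Algebra.IsSeparable E L]
    (w : Valuation L ℤᵐ⁰) (D : Derivation k L L)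
    (hD : ∀ a : E, w (algebraMap E L a) ≤ 1 → w (D (algebraMap E L a)) ≤ 1) (β : L)
    (hβ : IntermediateField.adjoin E {β} = ⊤)
    (hint : IsIntegral (w.comap (algebraMap E L)).valuationSubring β)
    (hder : w (aeval β (derivative (minpoly E β))) = 1) {a : L} (ha : w a ≤ 1) :
    w (D a) ≤ 1 := by
  classical
  set R := (w.comap (algebraMap E L)).valuationSubring with hR
  have hmin : minpoly E β = (minpoly R β).map (algebraMap R E) :=
    minpoly.isIntegrallyClosed_eq_field_fractions' E hint
  have hder' : aeval β (derivative (minpoly E β)) = aeval β (derivative (minpoly R β)) := by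
    rw [hmin, derivative_map, aeval_map_algebraMap]
  have hwβ : w β ≤ 1 := val_le_one_of_isIntegral w hint
  -- `β` is in the regular algebra
  have hβmem : β ∈ regAlg w D hD := by
    rw [mem_regAlg]
    refine ⟨hwβ, ?_⟩
    have h1 := der_aeval_sub_le w D hD hwβ (minpoly R β)
    rw [minpoly.aeval, map_zero, zero_sub, Valuation.map_neg, map_mul, ← hder', hder,
      one_mul] at h1
    exact h1
  have hadj : Algebra.adjoin R {β} ≤ regAlg w D hD :=
    Algebra.adjoin_le (Set.singleton_subset_iff.mpr hβmem)
  have hfmem : aeval β (derivative (minpoly R β)) ∈ regAlg w D hD :=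
    hadj (aeval_mem_adjoin_singleton R β)
  -- the power basis
  have hEβ : IsIntegral E β := Algebra.IsIntegral.isIntegral β
  let pb : PowerBasis E L := (IntermediateField.adjoin.powerBasis hEβ).map
    ((IntermediateField.equivOfEq hβ).trans IntermediateField.topEquiv)
  have pbgen : pb.gen = β := by
    simp only [pb, PowerBasis.map_gen, IntermediateField.adjoin.powerBasis_gen]
    rfl
  have hb : ∀ i, IsIntegral R (pb.basis i) := by
    intro i
    rw [pb.basis_eq_pow, pbgen]
    exact hint.pow _
  have hspan := integralClosure_le_span_dualBasis (A := R) pb.basis hb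
  have hdual : ∀ i, (Algebra.traceForm E L).dualBasis (traceForm_nondegenerate E L) pb.basis i ∈
      regAlg w D hD := by
    intro i
    have h1 := Module.Basis.traceDual_powerBasis_eq pb i
    rw [Module.Basis.traceDual_def] at h1
    rw [h1, pbgen, ← minpolyDiv_eq_of_isIntegrallyClosed E hint]
    have h2 := hadj (coeff_minpolyDiv_mem_adjoin (R := R) β i)
    have hne : aeval β (derivative (minpoly E β)) ≠ 0 := by
      intro h
      rw [h, map_zero] at hder
      exact zero_ne_one hder
    refine regAlg_div w D hD (c := aeval β (derivative (minpoly E β))) ?_ hder ?_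
    · rw [hder']; exact hfmem
    · rw [mul_div_cancel₀ _ hne]
      exact h2
  have hintmem : ∀ y : L, IsIntegral R y → y ∈ regAlg w D hD := by
    intro y hy
    have hy' := hspan hy
    have hle : Submodule.span R (Set.range ((Algebra.traceForm E L).dualBasis
        (traceForm_nondegenerate E L) pb.basis)) ≤ Subalgebra.toSubmodule (regAlg w D hD) := by
      rw [Submodule.span_le]
      rintro _ ⟨i, rfl⟩
      exact hdual i
    exact hle hy'
  obtain ⟨b, c, hb', hc', hw, hbc⟩ :=
    exists_isIntegral_quotient w ha (Algebra.IsAlgebraic.isAlgebraic (R := E) a)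
  have := regAlg_div w D hD (hintmem c hc') hw (by rw [hbc]; exact hintmem b hb')
  exact this.2

/-- uniformizers stay uniformizers -/
theorem isUnif_of_der (w : Valuation L ℤᵐ⁰) (D : Derivation k L L)
    (hD : ∀ a : L, w a ≤ 1 → w (D a) ≤ 1) {π : L} (hπ0 : π ≠ 0) (hπ : w π < 1)
    (hDπ : D π = 1) : IsUnif w π := by
  obtain ⟨s, hs⟩ := exists_unif w ⟨π, hπ0, hπ.ne⟩
  have hs0 : w s ≠ 0 := (Valuation.ne_zero_iff w).mpr hs.ne_zero
  have hspos : 0 < w s := zero_lt_iff.mpr hs0
  suffices h : w s ≤ w π from ⟨hπ0, hπ, fun a ha => (hs.le a ha).trans h⟩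
  by_contra hlt
  rw [not_le] at hlt
  have h1 : w (π / s) < 1 := by
    rw [map_div₀, div_lt_one₀ hspos]
    exact hlt
  have h2 : w (π / s / s) ≤ 1 := by
    rw [map_div₀, div_le_one₀ hspos]
    exact hs.le _ h1
  set u := π / s / s with hu
  have h3 : π = s * s * u := by
    rw [hu]; have := hs.ne_zero; field_simp
  have h4 : D π = s * s * D u + u * (s * D s + s * D s) := by
    rw [h3, Derivation.leibniz, Derivation.leibniz]
    simp only [smul_eq_mul]
  rw [hDπ] at h4
  have h5 : w (s * s * D u + u * (s * D s + s * D s)) < 1 := by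
    have hDu := hD u h2
    have hDs := hD s hs.lt_one.le
    have e1 : s * s * D u + u * (s * D s + s * D s) = s * (s * D u + u * (D s + D s)) := by ring
    rw [e1, map_mul]
    have h6 : w (s * D u + u * (D s + D s)) ≤ 1 := by
      refine (w.map_add _ _).trans (max_le ?_ ?_)
      · rw [map_mul]; exact mul_le_one' hs.lt_one.le hDu
      · rw [map_mul]
        exact mul_le_one' h2 ((w.map_add _ _).trans (max_le hDs hDs))
    calc w s * _ ≤ w s * 1 := by gcongr
      _ < 1 := by rw [mul_one]; exact hs.lt_one
  rw [← h4, map_one] at h5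
  exact lt_irrefl _ h5

end

end Pf72953
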