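import Mathlib
import Pool.Agent.Lib.Pf72953.Abhyankar
import Pool.Agent.Lib.Pf72953.Unram

/-!
The main estimate.
-/

set_option linter.style.haveILetI false

open scoped WithZero
open Polynomial

namespace Pf72953

section unram

variable {k B E L ι : Type*} [Field k] [CharZero k] [Field B] [Field E] [Field L] [Algebra k B]
  [Algebra k E] [Algebra k L] [Algebra B E] [Algebra B L] [Algebra E L]
  [IsScalarTower k E L] [IsScalarTower B E L]

omit [CharZero k] in
/-- elements algebraic over a field on which `w` is trivial have value `1` -/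
theorem val_eq_one_of_isIntegral {w : Valuation L ℤᵐ⁰}
    (htriv : ∀ b : B, b ≠ 0 → w (algebraMap B L b) = 1) {a : L} (ha0 : a ≠ 0)
    (ha : IsIntegral B a) : w a = 1 := by
  have key : ∀ a : L, a ≠ 0 → IsIntegral B a → w a ≤ 1 := by
    intro a ha0 ha
    obtain ⟨p, hp, hpb⟩ := ha
    by_contra hlt
    rw [not_le] at hlt
    have hb0 : w a ≠ 0 := (zero_lt_one.trans hlt).ne'
    have h1 : w (p.eval₂ (algebraMap B L) a) = w a ^ p.natDegree := by
      rw [Polynomial.eval₂_eq_sum_range, Finset.sum_range_succ, Polynomial.coeff_natDegree,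
        hp.leadingCoeff, map_one, one_mul, Valuation.map_add_eq_of_lt_right, map_pow]
      rw [map_pow]
      refine Valuation.map_sum_lt _ (pow_ne_zero _ hb0) fun i hi => ?_
      rw [Finset.mem_range] at hi
      rw [map_mul, map_pow]
      have hc : w (algebraMap B L (p.coeff i)) ≤ 1 := by
        rcases eq_or_ne (p.coeff i) 0 with h | h
        · rw [h]; simp
        · exact (htriv _ h).le
      calc _ ≤ 1 * w a ^ i := by gcongr
        _ = w a ^ i := one_mul _
        _ < w a ^ p.natDegree := pow_lt_pow_right₀ hlt hi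
    rw [hpb, map_zero] at h1
    exact pow_ne_zero _ hb0 h1.symm
  refine le_antisymm (key a ha0 ha) ?_
  have h2 := key a⁻¹ (inv_ne_zero ha0) ha.inv
  rw [map_inv₀] at h2
  by_contra hlt
  rw [not_le] at hlt
  have h3 : 0 < w a := zero_lt_iff.mpr ((Valuation.ne_zero_iff w).mpr ha0)
  exact absurd h2 (not_le.mpr ((one_lt_inv₀ h3).mpr hlt))

omit [Algebra k B] in
/-- a uniformizer of `E` stays a uniformizer in `L = E(β)`, `β` algebraic over `B`, `w` trivial on
`B`. -/
theorem isUnif_map [Algebra.EssFiniteType k E] [Fintype ι]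
    (hι : Fintype.card ι = dimension k E) [FiniteDimensional E L]
    {w : Valuation L ℤᵐ⁰} (htriv : ∀ b : B, b ≠ 0 → w (algebraMap B L b) = 1)
    {c : ι → E} {t : E} (hc : Adapted k (w.comap (algebraMap E L)) c t)
    (ht : IsUnif (w.comap (algebraMap E L)) t) (β : L)
    (hβ : IntermediateField.adjoin E {β} = ⊤) (hβB : IsIntegral B β) :
    IsUnif w (algebraMap E L t) := by
  classical
  haveI : CharZero E := charZero_of_injective_algebraMap (algebraMap k E).injective
  have hreg := hc.regBasis hι ht
  have htbL : IsTranscendenceBasis k (fun i => algebraMap E L (c i)) :=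
    hreg.tb.algebraMap_comp
  obtain ⟨i₀, hi₀⟩ : ∃ i₀, c i₀ = t := by
    obtain ⟨r, e, x, hx, ht0, ht', rfl⟩ := hc
    exact ⟨e.symm none, by simp⟩
  set D := pd htbL i₀ with hD
  have hDmap : ∀ a : E, D (algebraMap E L a) = algebraMap E L (pd hreg.tb i₀ a) := by
    intro a
    exact pd_algebraMap hreg.tb htbL id Function.injective_id (fun _ => rfl) i₀ a
  have hDE : ∀ a : E, w (algebraMap E L a) ≤ 1 → w (D (algebraMap E L a)) ≤ 1 := by
    intro a ha
    rw [hDmap]
    exact hreg.der i₀ a ha
  have hDt : D (algebraMap E L t) = 1 := by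
    rw [← hi₀]
    have := pd_self htbL i₀ i₀
    simpa using this
  set R := (w.comap (algebraMap E L)).valuationSubring with hR
  -- `B` maps to `R`
  have hBR : ∀ b : B, algebraMap B E b ∈ R := by
    intro b
    rcases eq_or_ne b 0 with rfl | hb
    · simp
    · have := htriv b hb
      rw [IsScalarTower.algebraMap_apply B E L] at this
      exact this.le
  letI : Algebra B R := ((algebraMap B E).codRestrict R hBR).toAlgebra
  haveI : IsScalarTower B R E := IsScalarTower.of_algebraMap_eq fun _ => rfl
  haveI : IsScalarTower B R L := IsScalarTower.of_algebraMap_eq fun b => by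
    rw [IsScalarTower.algebraMap_apply B E L]
    rfl
  have hint : IsIntegral R β := hβB.tower_top
  haveI : CharZero B :=
    ⟨fun a b h => by
      have := congrArg (algebraMap B E) h
      rw [map_natCast, map_natCast] at this
      exact_mod_cast this⟩
  have hmin : minpoly E β = (minpoly R β).map (algebraMap R E) :=
    minpoly.isIntegrallyClosed_eq_field_fractions' E hint
  have hder' : aeval β (derivative (minpoly E β)) = aeval β (derivative (minpoly R β)) := by
    rw [hmin, derivative_map, aeval_map_algebraMap]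
  have hdvd : minpoly R β ∣ (minpoly B β).map (algebraMap B R) := by
    refine minpoly.isIntegrallyClosed_dvd hint ?_
    rw [aeval_map_algebraMap, minpoly.aeval]
  obtain ⟨q, hq⟩ := hdvd
  have hprod : aeval β (derivative (minpoly B β)) =
      aeval β (derivative (minpoly R β)) * aeval β q := by
    have h1 : aeval β (derivative (minpoly B β)) =
        aeval β (derivative ((minpoly B β).map (algebraMap B R))) := by
      rw [derivative_map, aeval_map_algebraMap]
    rw [h1, hq, derivative_mul, map_add, map_mul, map_mul, minpoly.aeval, zero_mul, add_zero]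
  have hne : aeval β (derivative (minpoly B β)) ≠ 0 := by
    have hsep : (minpoly B β).Separable := (minpoly.irreducible hβB).separable
    exact hsep.aeval_derivative_ne_zero (minpoly.aeval B β)
  have hval : w (aeval β (derivative (minpoly B β))) = 1 := by
    refine val_eq_one_of_isIntegral htriv hne ?_
    rw [aeval_def]
    refine IsIntegral.of_mem_of_fg (Algebra.adjoin B {β}) hβB.fg_adjoin_singleton _ ?_
    rw [← aeval_def]
    exact aeval_mem_adjoin_singleton B β
  have hle : ∀ P : R[X], w (aeval β P) ≤ 1 := by
    intro P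
    exact val_le_one_of_isIntegral w (by
      refine IsIntegral.of_mem_of_fg (Algebra.adjoin R {β}) hint.fg_adjoin_singleton _ ?_
      exact aeval_mem_adjoin_singleton R β)
  have hder : w (aeval β (derivative (minpoly E β))) = 1 := by
    rw [hder']
    refine le_antisymm (hle _) ?_
    rw [← hval, hprod, map_mul]
    calc _ ≤ w (aeval β (derivative (minpoly R β))) * 1 := by
          gcongr
          exact hle _
      _ = _ := mul_one _
  have hDL : ∀ a : L, w a ≤ 1 → w (D a) ≤ 1 := fun a ha =>
    der_le_one_of_etale w D hDE β hβ hint hder ha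
  exact isUnif_of_der w D hDL (by simpa using ht.ne_zero) ht.lt_one hDt

end unram

section reg

variable {k K ι : Type*} [Field k] [CharZero k] [Field K] [Algebra k K] [Fintype ι]
  [DecidableEq ι]

/-- `f (dz)^m` is regular at all divisorial valuations -/
def WReg (k : Type*) {K ι : Type*} [Field k] [CharZero k] [Field K] [Algebra k K] [Fintype ι]
    [DecidableEq ι] (z : ι → K) (m : ℕ) : Set K :=
  {f | ∀ w : Valuation K ℤᵐ⁰, IsDivisorial k K w → ∀ (c : ι → K) (hc : RegBasis k w c),
    w f * w (jac hc.tb z) ^ m ≤ 1}

/-- bounds for the logarithmic and the regular norm of a regular form at a divisorial valuation -/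
theorem WReg.log_bound [Algebra.EssFiniteType k K] {z : ι → K} (hz : IsTranscendenceBasis k z)
    {m : ℕ} {f : K} (hf : f ∈ WReg k z m) {w : Valuation K ℤᵐ⁰} (hw : IsDivisorial k K w) :
    ∃ (c : ι → K) (hc : LogBasis k w c) (t : K), t ≠ 0 ∧ w t < 1 ∧
      w f * (w (jac hc.tb z) * ∏ i, w (c i)) ^ m ≤ w t ^ m := by
  have hι := card_eq_of_isTranscendenceBasis hz
  obtain ⟨c, t, ht, hc⟩ := hw.exists_adapted hι
  refine ⟨c, hc.logBasis hι, t, ht.ne_zero, ht.lt_one, ?_⟩
  have h1 := hf w hw c (hc.regBasis hι ht)
  rw [hc.prod, mul_pow, ← mul_assoc]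
  calc _ ≤ 1 * w t ^ m := by gcongr
    _ = _ := one_mul _

theorem WReg.reg_bound [Algebra.EssFiniteType k K] {z : ι → K} (hz : IsTranscendenceBasis k z)
    {m : ℕ} {f : K} (hf : f ∈ WReg k z m) {w : Valuation K ℤᵐ⁰} (hw : IsDivisorial k K w) :
    ∃ (c : ι → K) (hc : RegBasis k w c), w f * w (jac hc.tb z) ^ m ≤ 1 := by
  have hι := card_eq_of_isTranscendenceBasis hz
  obtain ⟨c, t, ht, hc⟩ := hw.exists_adapted hι
  exact ⟨c, hc.regBasis hι ht, hf w hw c (hc.regBasis hι ht)⟩

end reg

section orb

variable {k B E ι : Type*} [Field k] [CharZero k] [Field B] [Field E] [Algebra k B] [Algebra k E]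
  [Algebra B E] [IsScalarTower k B E] [Fintype ι] [DecidableEq ι]

/-- `h (dx)^m` satisfies the orbifold regularity condition on `E`: for every divisorial
valuation `v` of `E`, nontrivial on `B`, its logarithmic norm is at most `v (π_v) ^ m`. -/
def WOrb (k : Type*) {B : Type*} (E : Type*) {ι : Type*} [Field k] [CharZero k] [Field B]
    [Field E] [Algebra k B] [Algebra k E] [Algebra B E] [Fintype ι] [DecidableEq ι]
    (x : ι → B) (m : ℕ) : Set B :=
  {h | ∀ v : Valuation E ℤᵐ⁰, IsDivisorial k E v →
    (∃ a : B, a ≠ 0 ∧ v (algebraMap B E a) ≠ 1) → ∀ t : E, IsUnif v t →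
    ∃ (c : ι → B) (hc : LogBasis k (v.comap (algebraMap B E)) c),
      v (algebraMap B E h) * (v (algebraMap B E (jac hc.tb x)) *
        ∏ i, v (algebraMap B E (c i))) ^ m ≤ v t ^ m}

theorem WReg.orb [Algebra.EssFiniteType k B] [FinTrdeg k E] {x : ι → B}
    (hx : IsTranscendenceBasis k x) {m : ℕ} {h : B} (hh : h ∈ WReg k x m) :
    h ∈ WOrb k E x m := by
  intro v hv hnt t ht
  have hB : IsDivisorial k B (v.comap (algebraMap B E)) := hv.restrict hnt
  obtain ⟨c, hc, tB, htB0, htB1, hb⟩ := WReg.log_bound hx hh hB
  refine ⟨c, hc, hb.trans ?_⟩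
  have htle : v (algebraMap B E tB) ≤ v t := ht.le (algebraMap B E tB) htB1
  exact pow_le_pow_left' htle m

end orb

section main

variable {k B F E L ιB ιF : Type*} [Field k] [CharZero k] [Field B] [Field F] [Field E] [Field L]
  [Algebra k B] [Algebra k F] [Algebra k E] [Algebra k L] [Algebra B E] [Algebra B L]
  [Algebra E L] [Algebra F L] [IsScalarTower k B L] [IsScalarTower k F L]
  [IsScalarTower k E L] [IsScalarTower B E L]
  [Fintype ιB] [DecidableEq ιB] [Fintype ιF] [DecidableEq ιF]
  [Algebra.EssFiniteType k B] [Algebra.EssFiniteType k F] [Algebra.EssFiniteType k E]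
  [Algebra.EssFiniteType k L] [FiniteDimensional E L]

omit [CharZero k] [Algebra B E] [Algebra B L] [IsScalarTower k B L] [IsScalarTower B E L]
  [Algebra k B] [Algebra F L] [IsScalarTower k F L] [Algebra k F] [FiniteDimensional E L]
  [Algebra.EssFiniteType k B] [Algebra.EssFiniteType k F] [Algebra.EssFiniteType k E]
  [Algebra.EssFiniteType k L] in
/-- a valuation of `L` whose restriction to `E` is divisorial is divisorial -/
theorem IsDivisorial.of_comap (hdim : dimension k L = dimension k E) {w : Valuation L ℤᵐ⁰}
    (hv : IsDivisorial k E (w.comap (algebraMap E L))) : IsDivisorial k L w := by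
  refine ⟨?_, ?_, ?_⟩
  · intro c hc
    have := hv.const c hc
    rw [Valuation.comap_apply, ← IsScalarTower.algebraMap_apply] at this
    exact this
  · obtain ⟨a, ha0, ha⟩ := hv.nontrivial
    exact ⟨algebraMap E L a, by simpa using ha0, ha⟩
  · have key : ∀ n, n = dimension k E - 1 → ∃ x : Fin n → L,
        ∀ p : MvPolynomial (Fin n) k, p ≠ 0 → w (MvPolynomial.aeval x p) = 1 := by
      rintro n rfl
      obtain ⟨x, hx⟩ := hv.resid
      refine ⟨fun i => algebraMap E L (x i), fun p hp => ?_⟩
      have := hx p hp
      rw [Valuation.comap_apply] at this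
      rw [← this]
      congr 1
      exact MvPolynomial.aeval_algebraMap_apply _ x p
    exact key _ (by rw [hdim])

/-- **Main estimate.** -/
theorem main_estimate
    {x : ιB → B} (hx : IsTranscendenceBasis k x) {y : ιF → F} (hy : IsTranscendenceBasis k y)
    (hBF : ∀ {x : ιB → B} {y : ιF → F}, IsTranscendenceBasis k x → IsTranscendenceBasis k y →
      IsTranscendenceBasis k
        (Sum.elim (fun i => algebraMap B L (x i)) (fun j => algebraMap F L (y j))))
    (β : L) (hβ : IntermediateField.adjoin E {β} = ⊤) (hβB : IsIntegral B β)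
    {m : ℕ} {h : B} (hh : h ∈ WOrb k E x m) {g : F} (hg : g ∈ WReg k y m)
    {w : Valuation L ℤᵐ⁰} (hv : IsDivisorial k E (w.comap (algebraMap E L)))
    {c : ιB ⊕ ιF → E} {t : E} (hc : Adapted k (w.comap (algebraMap E L)) c t)
    (ht : IsUnif (w.comap (algebraMap E L)) t)
    (htb : IsTranscendenceBasis k (fun i => algebraMap E L (c i))) :
    w (algebraMap B L h * algebraMap F L g) *
      w (jac htb (Sum.elim (fun i => algebraMap B L (x i)) (fun j => algebraMap F L (y j)))) ^ m
      ≤ 1 := by
  classical
  have hcardL : Fintype.card (ιB ⊕ ιF) = dimension k L := card_eq_of_isTranscendenceBasis htb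
  have htbE : IsTranscendenceBasis k c := IsTranscendenceBasis.of_comp_algebraMap htb
  have hcardE : Fintype.card (ιB ⊕ ιF) = dimension k E := card_eq_of_isTranscendenceBasis htbE
  have hwL : IsDivisorial k L w := IsDivisorial.of_comap (hcardL.symm.trans hcardE) hv
  have hcL : Adapted k w (fun i => algebraMap E L (c i)) (algebraMap E L t) := hc.map
  have hwt : w (algebraMap E L t) ≠ 0 := by
    rw [Valuation.ne_zero_iff]; simpa using ht.ne_zero
  have hwtpos : 0 < w (algebraMap E L t) := zero_lt_iff.mpr hwt
  by_cases hnt : ∃ a : B, a ≠ 0 ∧ w (algebraMap B L a) ≠ 1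
  · -- `w` nontrivial on `B`
    obtain ⟨cB, hcB', hbB'⟩ := hh (w.comap (algebraMap E L)) hv (by
      obtain ⟨a, ha0, ha⟩ := hnt
      refine ⟨a, ha0, ?_⟩
      rwa [Valuation.comap_apply, ← IsScalarTower.algebraMap_apply]) t ht
    have hcomap : (w.comap (algebraMap E L)).comap (algebraMap B E) =
        w.comap (algebraMap B L) := by
      rw [IsScalarTower.algebraMap_eq B E L]; rfl
    have hcB : LogBasis k (w.comap (algebraMap B L)) cB := hcomap ▸ hcB'
    have hbB : w (algebraMap B L h) * (w (algebraMap B L (jac hcB.tb x)) *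
        ∏ i, w (algebraMap B L (cB i))) ^ m ≤ w (algebraMap E L t) ^ m := by
      simp only [Valuation.comap_apply, ← IsScalarTower.algebraMap_apply B E L] at hbB'
      exact hbB'
    obtain ⟨cF, hcF, hbF⟩ : ∃ (cF : ιF → F) (hcF : LogBasis k (w.comap (algebraMap F L)) cF),
        w (algebraMap F L g) * (w (algebraMap F L (jac hcF.tb y)) *
          ∏ i, w (algebraMap F L (cF i))) ^ m ≤ 1 := by
      by_cases hntF : ∃ a : F, a ≠ 0 ∧ w (algebraMap F L a) ≠ 1
      · have hF : IsDivisorial k F (w.comap (algebraMap F L)) := hwL.restrict hntF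
        obtain ⟨cF, hcF, tF, htF0, htF1, hbF⟩ := WReg.log_bound hy hg hF
        exact ⟨cF, hcF, hbF.trans (pow_le_one' htF1.le m)⟩
      · push Not at hntF
        have hone : ∀ a : F, w (algebraMap F L a) ≤ 1 := by
          intro a
          rcases eq_or_ne a 0 with rfl | ha
          · simp
          · exact (hntF a ha).le
        refine ⟨y, LogBasis.of_trivial hntF hy, ?_⟩
        refine mul_le_one' (hone _) (pow_le_one' (mul_le_one' (hone _) ?_) m)
        exact Finset.prod_le_one' fun i _ => hone _
    have hlog := hcL.logBasis hcardL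
    have hprod := LogBasis.prod_le hcB hcF hlog (hBF hcB.tb hcF.tb) x y
    rw [hcL.prod] at hprod
    have hfinal : (w (algebraMap B L h * algebraMap F L g) *
        w (jac htb (Sum.elim (fun i => algebraMap B L (x i))
          (fun j => algebraMap F L (y j)))) ^ m) * w (algebraMap E L t) ^ m ≤
        w (algebraMap E L t) ^ m := by
      calc _ = w (algebraMap B L h) * w (algebraMap F L g) *
            (w (jac htb (Sum.elim (fun i => algebraMap B L (x i))
          (fun j => algebraMap F L (y j)))) * w (algebraMap E L t)) ^ m := by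
            rw [map_mul, mul_pow]
            simp only [mul_assoc]
        _ ≤ w (algebraMap B L h) * w (algebraMap F L g) *
            ((w (algebraMap B L (jac hcB.tb x)) * ∏ i, w (algebraMap B L (cB i))) *
              (w (algebraMap F L (jac hcF.tb y)) * ∏ i, w (algebraMap F L (cF i)))) ^ m := by
            gcongr
        _ = (w (algebraMap B L h) *
            (w (algebraMap B L (jac hcB.tb x)) * ∏ i, w (algebraMap B L (cB i))) ^ m) *
            (w (algebraMap F L g) *
              (w (algebraMap F L (jac hcF.tb y)) * ∏ i, w (algebraMap F L (cF i))) ^ m) := by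
            rw [mul_pow, mul_mul_mul_comm]
        _ ≤ w (algebraMap E L t) ^ m * 1 := by
            gcongr
        _ = w (algebraMap E L t) ^ m := mul_one _
    have hpos : 0 < w (algebraMap E L t) ^ m := pow_pos hwtpos m
    exact le_of_mul_le_mul_right (hfinal.trans_eq (one_mul _).symm) hpos
  · -- `w` trivial on `B`
    push Not at hnt
    have hunif : IsUnif w (algebraMap E L t) := isUnif_map hcardE hnt hc ht β hβ hβB
    have hreg := hcL.regBasis hcardL hunif
    obtain ⟨cF, hcF, hbF⟩ : ∃ (cF : ιF → F) (hcF : RegBasis k (w.comap (algebraMap F L)) cF),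
        w (algebraMap F L g) * w (algebraMap F L (jac hcF.tb y)) ^ m ≤ 1 := by
      by_cases hntF : ∃ a : F, a ≠ 0 ∧ w (algebraMap F L a) ≠ 1
      · have hF : IsDivisorial k F (w.comap (algebraMap F L)) := hwL.restrict hntF
        exact WReg.reg_bound hy hg hF
      · push Not at hntF
        have hone : ∀ a : F, w (algebraMap F L a) ≤ 1 := by
          intro a
          rcases eq_or_ne a 0 with rfl | ha
          · simp
          · exact (hntF a ha).le
        exact ⟨y, RegBasis.of_trivial hntF hy, mul_le_one' (hone _) (pow_le_one' (hone _) m)⟩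
    have hcB : RegBasis k (w.comap (algebraMap B L)) x := RegBasis.of_trivial hnt hx
    have hprod := RegBasis.prod_le hcB hcF hreg (hBF hcB.tb hcF.tb) x y
    have hone : ∀ a : B, w (algebraMap B L a) ≤ 1 := by
      intro a
      rcases eq_or_ne a 0 with rfl | ha
      · simp
      · exact (hnt a ha).le
    calc w (algebraMap B L h * algebraMap F L g) *
        w (jac htb (Sum.elim (fun i => algebraMap B L (x i)) (fun j => algebraMap F L (y j)))) ^ m
        ≤ w (algebraMap B L h * algebraMap F L g) *
          (w (algebraMap B L (jac hcB.tb x)) * w (algebraMap F L (jac hcF.tb y))) ^ m := by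
          gcongr
      _ = (w (algebraMap B L h) * w (algebraMap B L (jac hcB.tb x)) ^ m) *
          (w (algebraMap F L g) * w (algebraMap F L (jac hcF.tb y)) ^ m) := by
          rw [map_mul, mul_pow, mul_mul_mul_comm]
      _ ≤ 1 := mul_le_one' (mul_le_one' (hone _) (pow_le_one' (hone _) m)) hbF

end main

end Pf72953
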