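import Mathlib

/-!
Extension of discrete valuations to finite separable extensions.
-/

set_option linter.style.haveILetI false

open scoped WithZero
open IsLocalRing

namespace Pf72953

theorem nontrivial_valueGroup {E : Type*} [Field E] (v : Valuation E ℤᵐ⁰)
    (hv : ∃ a : E, a ≠ 0 ∧ v a ≠ 1) :
    Nontrivial (MonoidWithZeroHom.valueGroup (MonoidWithZeroHom.ofClass v)) := by
  obtain ⟨a, ha0, ha⟩ := hv
  have hva : v a ≠ 0 := (Valuation.ne_zero_iff v).mpr ha0
  refine ⟨⟨⟨Units.mk0 (v a) hva, ?_⟩, 1, ?_⟩⟩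
  · apply MonoidWithZeroHom.mem_valueGroup
    exact ⟨a, rfl⟩
  · intro h
    rw [Subtype.ext_iff, Units.ext_iff] at h
    exact ha h

theorem exists_extension {E L : Type*} [Field E] [Field L] [Algebra E L]
    [FiniteDimensional E L] [Algebra.IsSeparable E L] (v : Valuation E ℤᵐ⁰)
    (hv : ∃ a : E, a ≠ 0 ∧ v a ≠ 1) :
    ∃ w : Valuation L ℤᵐ⁰, ∀ a : E, w (algebraMap E L a) ≤ 1 ↔ v a ≤ 1 := by
  haveI := nontrivial_valueGroup v hv
  haveI : IsPrincipalIdealRing v.valuationSubring :=
    Valuation.valuationSubring_isPrincipalIdealRing v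
  set R := v.valuationSubring with hR
  haveI : IsDedekindDomain (integralClosure R L) :=
    IsIntegralClosure.isDedekindDomain R E L (integralClosure R L)
  haveI : IsFractionRing (integralClosure R L) L :=
    IsIntegralClosure.isFractionRing_of_finite_extension R E L (integralClosure R L)
  obtain ⟨P, hP⟩ := Ideal.exists_maximal (integralClosure R L)
  haveI := hP
  haveI hlies : (P.comap (algebraMap R (integralClosure R L))).IsMaximal :=
    Ideal.isMaximal_comap_of_isIntegral_of_isMaximal P
  have hcomap : P.comap (algebraMap R (integralClosure R L)) = maximalIdeal R :=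
    IsLocalRing.eq_maximalIdeal hlies
  -- a nonzero element of the maximal ideal
  obtain ⟨s, hs0, hs⟩ : ∃ s : E, s ≠ 0 ∧ v s < 1 := by
    obtain ⟨a, ha0, ha⟩ := hv
    rcases lt_or_gt_of_ne ha with h | h
    · exact ⟨a, ha0, h⟩
    · exact ⟨a⁻¹, inv_ne_zero ha0, by rw [map_inv₀]; exact inv_lt_one_of_one_lt₀ h⟩
  have hmem : ∀ (a : E) (ha : v a < 1), algebraMap R (integralClosure R L) ⟨a, ha.le⟩ ∈ P := by
    intro a ha
    rw [← Ideal.mem_comap, hcomap]
    exact (Valuation.mem_maximalIdeal_iff E v).mpr ha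
  have hPbot : P ≠ ⊥ := by
    intro h
    have h1 := hmem s hs
    rw [h, Ideal.mem_bot] at h1
    have h2 := congrArg (fun x : integralClosure R L => (x : L)) h1
    have h3 : algebraMap E L s = 0 := h2
    rw [map_eq_zero] at h3
    exact hs0 h3
  let 𝔓 : IsDedekindDomain.HeightOneSpectrum (integralClosure R L) := ⟨P, hP.isPrime, hPbot⟩
  refine ⟨𝔓.valuation L, fun a => ?_⟩
  have key : ∀ a : E, v a < 1 → 𝔓.valuation L (algebraMap E L a) < 1 := by
    intro a ha
    have := (IsDedekindDomain.HeightOneSpectrum.valuation_lt_one_iff_mem (K := L) 𝔓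
      (algebraMap R (integralClosure R L) ⟨a, ha.le⟩)).mpr (hmem a ha)
    exact this
  constructor
  · intro h
    by_contra hlt
    rw [not_le] at hlt
    have ha0 : a ≠ 0 := by rintro rfl; simp at hlt
    have h1 := key a⁻¹ (by rw [map_inv₀]; exact inv_lt_one_of_one_lt₀ hlt)
    rw [map_inv₀, map_inv₀] at h1
    have h2 : (𝔓.valuation L (algebraMap E L a)) ≠ 0 := by
      rw [Valuation.ne_zero_iff]; simpa using ha0
    rw [inv_lt_one₀ (zero_lt_iff.mpr h2)] at h1
    exact absurd h (not_le.mpr h1)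
  · intro h
    exact IsDedekindDomain.HeightOneSpectrum.valuation_le_one 𝔓
      (algebraMap R (integralClosure R L) ⟨a, h⟩)

end Pf72953
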