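import Mathlib
import Pool.Agent.Lib.Pf72953.Estimate
import Pool.Agent.Lib.Pf72953.Extend

/-!
Norms of products of regular forms are regular.
-/

set_option linter.style.haveILetI false

open scoped WithZero
open Polynomial

namespace Pf72953

section main

variable {k B F E L ιB ιF : Type*} [Field k] [CharZero k] [Field B] [Field F] [Field E] [Field L]
  [Algebra k B] [Algebra k F] [Algebra k E] [Algebra k L] [Algebra B E] [Algebra B L]
  [Algebra E L] [Algebra F L] [IsScalarTower k B L] [IsScalarTower k F L]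
  [IsScalarTower k E L] [IsScalarTower B E L]
  [Fintype ιB] [DecidableEq ιB] [Fintype ιF] [DecidableEq ιF]
  [Algebra.EssFiniteType k B] [Algebra.EssFiniteType k F] [Algebra.EssFiniteType k E]
  [Algebra.EssFiniteType k L] [FiniteDimensional E L]

theorem norm_mem_WReg [IsGalois E L]
    {x : ιB → B} (hx : IsTranscendenceBasis k x) {y : ιF → F} (hy : IsTranscendenceBasis k y)
    (hBF : ∀ {x : ιB → B} {y : ιF → F}, IsTranscendenceBasis k x → IsTranscendenceBasis k y →
      IsTranscendenceBasis k
        (Sum.elim (fun i => algebraMap B L (x i)) (fun j => algebraMap F L (y j))))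
    (β : L) (hβ : IntermediateField.adjoin E {β} = ⊤) (hβB : IsIntegral B β)
    {m : ℕ} {h : B} (hh : h ∈ WOrb k E x m) {g : F} (hg : g ∈ WReg k y m)
    {z : ιB ⊕ ιF → E} (hzE : IsTranscendenceBasis k z)
    (hz : IsTranscendenceBasis k (fun i => algebraMap E L (z i))) :
    Algebra.norm E (algebraMap B L h * algebraMap F L g *
      jac hz (Sum.elim (fun i => algebraMap B L (x i)) (fun j => algebraMap F L (y j))) ^ m) ∈
      WReg k z (m * Module.finrank E L) := by
  classical
  set u := algebraMap B L h * algebraMap F L g *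
      jac hz (Sum.elim (fun i => algebraMap B L (x i)) (fun j => algebraMap F L (y j))) ^ m with hu
  intro v₀ hv₀ c₀ hc₀
  obtain ⟨w, hw⟩ := exists_extension (L := L) v₀ hv₀.nontrivial
  set v := w.comap (algebraMap E L) with hv
  have hequiv : ∀ a : E, v a ≤ 1 ↔ v₀ a ≤ 1 := hw
  have hequiv1 : ∀ a : E, v a = 1 ↔ v₀ a = 1 := by
    have := (Valuation.isEquiv_iff_val_le_one (v := v) (v' := v₀)).mpr (fun {a} => hequiv a)
    intro a
    exact (Valuation.isEquiv_iff_val_eq_one.mp this)
  have hvdiv : IsDivisorial k E v := by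
    refine ⟨fun c hc => (hequiv1 _).mpr (hv₀.const c hc), ?_, ?_⟩
    · obtain ⟨a, ha0, ha⟩ := hv₀.nontrivial
      exact ⟨a, ha0, fun h => ha ((hequiv1 a).mp h)⟩
    · obtain ⟨ξ, hξ⟩ := hv₀.resid
      exact ⟨ξ, fun p hp => (hequiv1 _).mpr (hξ p hp)⟩
  have hc₀v : RegBasis k v c₀ := ⟨hc₀.tb, fun i => (hequiv _).mpr (hc₀.le_one i),
    fun i a ha => (hequiv _).mpr (hc₀.der i a ((hequiv a).mp ha))⟩
  rw [← map_pow, ← map_mul, ← hequiv, map_mul, map_pow]
  have hcard := card_eq_of_isTranscendenceBasis hzE
  obtain ⟨c, t, ht, hc⟩ := hvdiv.exists_adapted hcard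
  have hcreg := hc.regBasis hcard ht
  have htb : IsTranscendenceBasis k (fun i => algebraMap E L (c i)) := hcreg.tb.algebraMap_comp
  -- compare the two regular bases
  have hle : v (jac hc₀v.tb z) ≤ v (jac hcreg.tb z) := by
    rw [jac_chain hcreg.tb hc₀v.tb z, map_mul]
    calc _ ≤ 1 * v (jac hcreg.tb z) := by
          gcongr
          exact hc₀v.jac_le c (fun i => hcreg.le_one i)
      _ = _ := one_mul _
  have hchain : jac htb (Sum.elim (fun i => algebraMap B L (x i)) (fun j => algebraMap F L (y j)))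
      = algebraMap E L (jac hcreg.tb z) *
        jac hz (Sum.elim (fun i => algebraMap B L (x i)) (fun j => algebraMap F L (y j))) := by
    rw [jac_chain hz htb, jac_algebraMap hcreg.tb htb z]
  -- the estimate for every conjugate
  have hσ : ∀ σ : L ≃ₐ[E] L, w (σ u) * v (jac hcreg.tb z) ^ m ≤ 1 := by
    intro σ
    set wσ : Valuation L ℤᵐ⁰ := w.comap (σ : L →+* L) with hwσ
    have hcomap : wσ.comap (algebraMap E L) = v := by
      ext a
      change w (σ (algebraMap E L a)) = w (algebraMap E L a)
      rw [σ.commutes]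
    have hest := main_estimate hx hy hBF β hβ hβB hh hg (w := wσ) (by rw [hcomap]; exact hvdiv)
      (by rw [hcomap]; exact hc) (by rw [hcomap]; exact ht) htb
    rw [hchain, map_mul wσ (algebraMap E L _), mul_pow] at hest
    have h1 : wσ (algebraMap E L (jac hcreg.tb z)) = v (jac hcreg.tb z) :=
      DFunLike.congr_fun hcomap (jac hcreg.tb z)
    rw [h1] at hest
    have h2 : w (σ u) = wσ (algebraMap B L h * algebraMap F L g) *
        wσ (jac hz (Sum.elim (fun i => algebraMap B L (x i))
          (fun j => algebraMap F L (y j)))) ^ m := by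
      change wσ u = _
      rw [hu, map_mul, map_pow]
    rw [h2, mul_assoc, mul_comm (_ ^ m) (_ ^ m)]
    exact hest
  have hnorm : v (Algebra.norm E u) = ∏ σ : L ≃ₐ[E] L, w (σ u) := by
    change w (algebraMap E L (Algebra.norm E u)) = _
    rw [Algebra.norm_eq_prod_automorphisms, map_prod]
  have hcardG : Fintype.card (L ≃ₐ[E] L) = Module.finrank E L := by
    rw [← Nat.card_eq_fintype_card]
    exact IsGalois.card_aut_eq_finrank E L
  calc v (Algebra.norm E u) * v (jac hc₀v.tb z) ^ (m * Module.finrank E L)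
      ≤ v (Algebra.norm E u) * v (jac hcreg.tb z) ^ (m * Module.finrank E L) := by gcongr
    _ = ∏ σ : L ≃ₐ[E] L, (w (σ u) * v (jac hcreg.tb z) ^ m) := by
      rw [Finset.prod_mul_distrib, hnorm, Finset.prod_const, Finset.card_univ, hcardG, pow_mul]
    _ ≤ 1 := Finset.prod_le_one' fun σ _ => hσ σ

end main

end Pf72953
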