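import Mathlib
import Pool.Agent.Lib.Pf72953.Norm
import Pool.Agent.Lib.Pf72953.Count
import Pool.Agent.Lib.Pf72953.Coord

/-!
The core theorem: after a Galois base change.
-/

set_option linter.style.haveILetI false

open scoped WithZero
open Polynomial

namespace Pf72953

section wreg

variable {k K ι : Type*} [Field k] [CharZero k] [Field K] [Algebra k K] [Fintype ι]
  [DecidableEq ι]

theorem WReg.add {z : ι → K} {m : ℕ} {f g : K} (hf : f ∈ WReg k z m) (hg : g ∈ WReg k z m) :
    f + g ∈ WReg k z m := by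
  intro w hw c hc
  have h1 := hf w hw c hc
  have h2 := hg w hw c hc
  rcases le_max_iff.mp (w.map_add f g) with h | h
  · exact (mul_le_mul' h le_rfl).trans h1
  · exact (mul_le_mul' h le_rfl).trans h2

theorem WReg.smul {z : ι → K} {m : ℕ} {f : K} (hf : f ∈ WReg k z m) (a : k) :
    algebraMap k K a * f ∈ WReg k z m := by
  intro w hw c hc
  have h1 := hf w hw c hc
  have h2 : w (algebraMap k K a) ≤ 1 := by
    rcases eq_or_ne a 0 with rfl | ha
    · simp
    · exact (hw.const a ha).le
  rw [map_mul, mul_assoc]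
  exact mul_le_one' h2 h1

theorem WReg.pow {z : ι → K} {m : ℕ} {f : K} (hf : f ∈ WReg k z m) (l : ℕ) :
    f ^ l ∈ WReg k z (m * l) := by
  intro w hw c hc
  have h1 := hf w hw c hc
  rw [map_pow, pow_mul, ← mul_pow]
  exact pow_le_one' h1 l

omit [Fintype ι] [DecidableEq ι] in
/-- reindexing of regular bases -/
theorem RegBasis.reindex {κ : Type*} [Fintype κ] {w : Valuation K ℤᵐ⁰} {c : ι → K}
    (hc : RegBasis k w c) (e : κ ≃ ι) : RegBasis k w (c ∘ e) := by
  refine ⟨(isTranscendenceBasis_equiv e).mpr hc.tb, fun i => hc.le_one _, fun i a ha => ?_⟩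
  have := pd_algebraMap (L := K) ((isTranscendenceBasis_equiv e).mpr hc.tb) hc.tb e e.injective
    (fun _ => rfl) i a
  have h2 : pd ((isTranscendenceBasis_equiv e).mpr hc.tb) i a = pd hc.tb (e i) a := by
    simpa using this.symm
  rw [h2]
  exact hc.der _ a ha

theorem WReg.reindex {κ : Type*} [Fintype κ] [DecidableEq κ] {z : ι → K} {m : ℕ} {f : K}
    (hf : f ∈ WReg k z m) (e : κ ≃ ι) : f ∈ WReg k (z ∘ e) m := by
  intro w hw c hc
  have hc' : RegBasis k w (c ∘ e.symm) := hc.reindex e.symm
  have h1 := hf w hw _ hc'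
  have h2 := jac_reindex e.symm hc.tb hc'.tb (z ∘ e)
  have h3 : (z ∘ e) ∘ e.symm = z := by funext i; simp
  rw [h3] at h2
  rwa [h2] at h1

/-- the two descriptions of the regular pluricanonical forms agree -/
theorem mem_pluricanonical_iff [Algebra.EssFiniteType k K] {z : Fin (dimension k K) → K}
    (hz : IsTranscendenceBasis k z) (m : ℕ) (ω : PluriForm k K (dimension k K) m) :
    ω ∈ pluricanonical k K m ↔ coef hz m ω ∈ WReg k z m := by
  constructor
  · intro h w hw c hc
    have h1 := (mem_regularAt_iff hc m ω).mp (h w hw)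
    rw [coef_chain hz hc.tb m ω, map_mul, map_pow] at h1
    exact h1
  · intro h w hw
    obtain ⟨c, t, ht, hc⟩ := hw.exists_adapted (ι := Fin (dimension k K)) (Fintype.card_fin _)
    have hreg := hc.regBasis (Fintype.card_fin _) ht
    rw [mem_regularAt_iff hreg, coef_chain hz hreg.tb m ω, map_mul, map_pow]
    exact h w hw c hreg

/-- coordinates for the statement `κ ≥ c` -/
theorem KodairaGE.exists_coord [Algebra.EssFiniteType k K] {z : Fin (dimension k K) → K}
    (hz : IsTranscendenceBasis k z) {c : ℕ} (h : KodairaGE k K c) :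
    ∃ m : ℕ, 1 ≤ m ∧ ∃ f₀ ∈ WReg k z m, f₀ ≠ 0 ∧
      ∃ f : Fin c → K, AlgebraicIndependent k f ∧ ∀ i, f i * f₀ ∈ WReg k z m := by
  obtain ⟨m, hm, ω₀, hω₀, hne, f, hf, hfω⟩ := h
  refine ⟨m, hm, coef hz m ω₀, (mem_pluricanonical_iff hz m ω₀).mp hω₀, ?_, f, hf, fun i => ?_⟩
  · intro h0
    apply hne
    rw [eq_coef_smul hz m ω₀, h0, zero_smul]
  · have := (mem_pluricanonical_iff hz m _).mp (hfω i)
    rwa [map_smul, smul_eq_mul] at this

theorem KodairaGE.of_coord [Algebra.EssFiniteType k K] {z : Fin (dimension k K) → K}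
    (hz : IsTranscendenceBasis k z) {c m : ℕ} (hm : 1 ≤ m) {f₀ : K} (hf₀ : f₀ ∈ WReg k z m)
    (hne : f₀ ≠ 0) {f : Fin c → K} (hf : AlgebraicIndependent k f)
    (hff : ∀ i, f i * f₀ ∈ WReg k z m) : KodairaGE k K c := by
  refine ⟨m, hm, f₀ • pureForm k (fun _ => z), ?_, ?_, f, hf, fun i => ?_⟩
  · rw [mem_pluricanonical_iff hz, map_smul, coef_self, smul_eq_mul, mul_one]
    exact hf₀
  · intro h
    have := congrArg (coef hz m) h
    rw [map_smul, coef_self, smul_eq_mul, mul_one, map_zero] at this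
    exact hne this
  · rw [mem_pluricanonical_iff hz, map_smul, map_smul, coef_self, smul_eq_mul, smul_eq_mul,
      mul_one]
    exact hff i

end wreg

section orb

/-- `κ ≥ a` for the orbifold base, in coordinates -/
def OrbCoord (k B E : Type*) [Field k] [CharZero k] [Field B] [Field E] [Algebra k B]
    [Algebra k E] [Algebra B E] (a : ℕ) : Prop :=
  ∃ x : Fin (dimension k B) → B, IsTranscendenceBasis k x ∧ ∃ m : ℕ, 1 ≤ m ∧
    ∃ h₀ ∈ WOrb k E x m, h₀ ≠ 0 ∧ ∃ f : Fin a → B, AlgebraicIndependent k f ∧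
      ∀ i, f i * h₀ ∈ WOrb k E x m

theorem WOrb.pow {k B E ι : Type*} [Field k] [CharZero k] [Field B] [Field E] [Algebra k B]
    [Algebra k E] [Algebra B E] [Fintype ι] [DecidableEq ι] {x : ι → B} {m : ℕ} {h : B}
    (hh : h ∈ WOrb k E x m) (l : ℕ) : h ^ l ∈ WOrb k E x (m * l) := by
  intro v hv hnt t ht
  obtain ⟨c, hc, hb⟩ := hh v hv hnt t ht
  refine ⟨c, hc, ?_⟩
  rw [map_pow, map_pow, pow_mul, ← mul_pow, pow_mul]
  exact pow_le_pow_left' hb l

theorem KodairaGE.orbCoord {k B E : Type*} [Field k] [CharZero k] [Field B] [Field E] [Algebra k B]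
    [Algebra k E] [Algebra B E] [IsScalarTower k B E] [Algebra.EssFiniteType k B]
    [FinTrdeg k E] {x : Fin (dimension k B) → B} (hx : IsTranscendenceBasis k x) {a : ℕ}
    (h : KodairaGE k B a) : OrbCoord k B E a := by
  obtain ⟨m, hm, f₀, hf₀, hne, f, hf, hff⟩ := h.exists_coord hx
  exact ⟨x, hx, m, hm, f₀, WReg.orb hx hf₀, hne, f, hf, fun i => WReg.orb hx (hff i)⟩

end orb

theorem exists_tb (k K : Type*) [Field k] [Field K] [Algebra k K] [Algebra.EssFiniteType k K] :
    ∃ x : Fin (dimension k K) → K, IsTranscendenceBasis k x := by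
  obtain ⟨x, hx⟩ := exists_algebraicIndependent_of_le_trdeg (k := k) (K := K)
    (n := dimension k K) trdeg_eq_dimension.le
  exact ⟨x, isTranscendenceBasis_of_card (Fintype.card_fin _) hx⟩

theorem algebraicIndependent_pow {k K ι : Type*} [Field k] [Field K] [Algebra k K] {f : ι → K}
    (hf : AlgebraicIndependent k f) {l : ℕ} (hl : 1 ≤ l) :
    AlgebraicIndependent k (fun i => f i ^ l) := by
  have := hf.polynomial_aeval_of_transcendental (f := fun _ => (X : k[X]) ^ l) (fun i => by
    exact (transcendental_X k).pow (by omega))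
  simpa using this

theorem isAlgebraic_transport {k F L ι : Type*} [Field k] [Field F] [Field L] [Algebra k F]
    [Algebra k L] [Algebra F L] [IsScalarTower k F L] {x : ι → F}
    (hx : IsTranscendenceBasis k x) (t : Set L) (ht : ∀ i, algebraMap F L (x i) ∈ t) (b : F) :
    IsAlgebraic (Algebra.adjoin k t) (algebraMap F L b) := by
  have h1 : IsAlgebraic (Algebra.adjoin k (Set.range x)) b := hx.isAlgebraic.isAlgebraic b
  have h2 : Algebra.adjoin k (Set.range x) ≤
      (Algebra.adjoin k t).comap (IsScalarTower.toAlgHom k F L) := by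
    rw [Algebra.adjoin_le_iff]
    rintro _ ⟨i, rfl⟩
    exact Algebra.subset_adjoin (ht i)
  let φ : Algebra.adjoin k (Set.range x) →+* Algebra.adjoin k t :=
    ((algebraMap F L).comp (Algebra.adjoin k (Set.range x)).val.toRingHom).codRestrict
      (Algebra.adjoin k t).toSubring (fun a => h2 a.2)
  letI : Algebra (Algebra.adjoin k (Set.range x)) (Algebra.adjoin k t) := φ.toAlgebra
  haveI : IsScalarTower (Algebra.adjoin k (Set.range x)) (Algebra.adjoin k t) L :=
    IsScalarTower.of_algebraMap_eq fun a => rfl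
  have h3 : IsAlgebraic (Algebra.adjoin k (Set.range x)) (algebraMap F L b) := h1.algebraMap
  refine h3.extendScalars ?_
  intro a b hab
  have h4 := congrArg (fun c : Algebra.adjoin k t => (c : L)) hab
  exact Subtype.ext ((algebraMap F L).injective h4)

section core

variable {k B F E L : Type*} [Field k] [CharZero k] [Field B] [Field F] [Field E] [Field L]
  [Algebra k B] [Algebra k F] [Algebra k E] [Algebra k L] [Algebra B E] [Algebra B L]
  [Algebra E L] [Algebra F L] [IsScalarTower k B L] [IsScalarTower k F L]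
  [IsScalarTower k E L] [IsScalarTower B E L]
  [Algebra.EssFiniteType k B] [Algebra.EssFiniteType k F] [Algebra.EssFiniteType k E]
  [Algebra.EssFiniteType k L] [FiniteDimensional E L] [IsGalois E L]

omit [CharZero k] [Algebra k E] [Algebra B E] [Algebra E L] [IsScalarTower k E L]
  [IsScalarTower B E L] [Algebra.EssFiniteType k B] [Algebra.EssFiniteType k F]
  [Algebra.EssFiniteType k E] [FiniteDimensional E L] [IsGalois E L] in
theorem sumElim_tb {ιB ιF : Type*} [Fintype ιB] [Fintype ιF]
    (hdim : dimension k B + dimension k F = dimension k L)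
    (halg : ∀ a : L, IsAlgebraic (Algebra.adjoin k
      (Set.range (algebraMap B L) ∪ Set.range (algebraMap F L))) a)
    {x : ιB → B} {y : ιF → F} (hx : IsTranscendenceBasis k x) (hy : IsTranscendenceBasis k y) :
    IsTranscendenceBasis k
        (Sum.elim (fun i => algebraMap B L (x i)) (fun j => algebraMap F L (y j))) := by
  set s : ιB ⊕ ιF → L := Sum.elim (fun i => algebraMap B L (x i)) (fun j => algebraMap F L (y j))
    with hs
  haveI : Algebra.IsAlgebraic (Algebra.adjoin k (Set.range s)) L := by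
    refine ⟨fun a => (halg a).adjoin_of_forall_isAlgebraic ?_⟩
    rintro _ ⟨⟨b, rfl⟩ | ⟨b, rfl⟩, _⟩
    · refine isAlgebraic_transport hx (Set.range s) (fun i => ?_) b
      exact ⟨Sum.inl i, rfl⟩
    · refine isAlgebraic_transport hy (Set.range s) (fun i => ?_) b
      exact ⟨Sum.inr i, rfl⟩
  refine Algebra.IsAlgebraic.isTranscendenceBasis_of_lift_le_trdeg_of_finite k s ?_
  rw [← trdeg_eq_dimension, Cardinal.mk_fintype, Fintype.card_sum,
    card_eq_of_isTranscendenceBasis hx, card_eq_of_isTranscendenceBasis hy, hdim]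
  simp

omit [CharZero k] [Algebra k E] [Algebra B E] [Algebra E L] [IsScalarTower k E L]
  [IsScalarTower B E L] [Algebra.EssFiniteType k E] [FiniteDimensional E L] [IsGalois E L] in
theorem sumElim_indep {a b : ℕ}
    (hdim : dimension k B + dimension k F = dimension k L)
    (halg : ∀ a : L, IsAlgebraic (Algebra.adjoin k
      (Set.range (algebraMap B L) ∪ Set.range (algebraMap F L))) a)
    {x : Fin a → B} {y : Fin b → F} (hx : AlgebraicIndependent k x)
    (hy : AlgebraicIndependent k y) :
    AlgebraicIndependent k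
        (Sum.elim (fun i => algebraMap B L (x i)) (fun j => algebraMap F L (y j))) := by
  obtain ⟨s, hs, hs'⟩ := exists_isTranscendenceBasis_superset (R := k) (s := Set.range x)
    hx.to_subtype_range
  obtain ⟨t, ht, ht'⟩ := exists_isTranscendenceBasis_superset (R := k) (s := Set.range y)
    hy.to_subtype_range
  haveI := finite_of_isTranscendenceBasis hs'
  haveI := finite_of_isTranscendenceBasis ht'
  haveI := Fintype.ofFinite s
  haveI := Fintype.ofFinite t
  have h1 := (sumElim_tb hdim halg hs' ht').1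
  let e : Fin a ⊕ Fin b → s ⊕ t := Sum.map (fun i => ⟨x i, hs ⟨i, rfl⟩⟩) (fun j => ⟨y j, ht ⟨j, rfl⟩⟩)
  have he : Function.Injective e := by
    refine Function.Injective.sumMap ?_ ?_
    · intro i j hij
      exact hx.injective (congrArg Subtype.val hij)
    · intro i j hij
      exact hy.injective (congrArg Subtype.val hij)
  have h2 := h1.comp e he
  convert h2 using 1
  funext i
  rcases i with i | i <;> rfl

/-- **Core theorem** -/
theorem KodairaGE.core
    (hdim : dimension k B + dimension k F = dimension k E)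
    (halg : ∀ a : L, IsAlgebraic (Algebra.adjoin k
      (Set.range (algebraMap B L) ∪ Set.range (algebraMap F L))) a)
    (β : L) (hβ : IntermediateField.adjoin E {β} = ⊤) (hβB : IsIntegral B β)
    {a b : ℕ} (ha : OrbCoord k B E a) (hb : KodairaGE k F b) : KodairaGE k E (a + b) := by
  classical
  -- bases
  obtain ⟨xB, hxB, m₁, hm₁, h₀, hh₀, hh₀ne, f, hf, hff⟩ := ha
  obtain ⟨yF, hyF⟩ := exists_tb k F
  obtain ⟨zE, hzE⟩ := exists_tb k E
  have hdimL : dimension k E = dimension k L := by
    have h1 : IsTranscendenceBasis k (algebraMap E L ∘ zE) := hzE.algebraMap_comp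
    have h2 := card_eq_of_isTranscendenceBasis h1
    rwa [Fintype.card_fin] at h2
  have hBF : ∀ {x : Fin (dimension k B) → B} {y : Fin (dimension k F) → F},
      IsTranscendenceBasis k x → IsTranscendenceBasis k y → IsTranscendenceBasis k
        (Sum.elim (fun i => algebraMap B L (x i)) (fun j => algebraMap F L (y j))) :=
    fun hx hy => sumElim_tb (hdim.trans hdimL) halg hx hy
  let e : Fin (dimension k E) ≃ Fin (dimension k B) ⊕ Fin (dimension k F) :=
    (finCongr hdim.symm).trans finSumFinEquiv.symm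
  set z : Fin (dimension k B) ⊕ Fin (dimension k F) → E := zE ∘ e.symm with hzdef
  have hz : IsTranscendenceBasis k z := (isTranscendenceBasis_equiv e.symm).mpr hzE
  have hzL : IsTranscendenceBasis k (fun i => algebraMap E L (z i)) := hz.algebraMap_comp
  have hze : z ∘ e = zE := by funext i; simp [hzdef]
  -- forms on `B` and `F`
  obtain ⟨m₂, hm₂, g₀, hg₀, hg₀ne, φ, hφ, hφφ⟩ := hb.exists_coord hyF
  set m := m₁ * m₂ with hm
  have hm' : m₂ * m₁ = m := mul_comm _ _
  have hh : h₀ ^ m₂ ∈ WOrb k E xB m := WOrb.pow hh₀ m₂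
  have hg : g₀ ^ m₁ ∈ WReg k yF m := hm' ▸ WReg.pow hg₀ m₁
  have hfh : ∀ i, f i ^ m₂ * h₀ ^ m₂ ∈ WOrb k E xB m := by
    intro i; rw [← mul_pow]; exact WOrb.pow (hff i) m₂
  have hφg : ∀ j, φ j ^ m₁ * g₀ ^ m₁ ∈ WReg k yF m := by
    intro j; rw [← mul_pow]; exact hm' ▸ WReg.pow (hφφ j) m₁
  have hf' := algebraicIndependent_pow hf hm₂
  have hφ' := algebraicIndependent_pow hφ hm₁
  -- forms on `E`
  set r := Module.finrank E L with hr
  have hrpos : 0 < r := Module.finrank_pos
  set J := jac hzL (Sum.elim (fun i => algebraMap B L (xB i)) (fun j => algebraMap F L (yF j)))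
    with hJ
  have hJne : J ≠ 0 := jac_ne_zero (hBF hxB hyF) hzL
  set U : L := algebraMap B L (h₀ ^ m₂) * algebraMap F L (g₀ ^ m₁) * J ^ m with hU
  have hUne : U ≠ 0 := by
    refine mul_ne_zero (mul_ne_zero ?_ ?_) (pow_ne_zero _ hJne)
    · simpa using pow_ne_zero _ hh₀ne
    · simpa using pow_ne_zero _ hg₀ne
  have key : ∀ {h : B} {g : F}, h ∈ WOrb k E xB m → g ∈ WReg k yF m →
      Algebra.norm E (algebraMap B L h * algebraMap F L g * J ^ m) ∈ WReg k z (m * r) :=
    fun hh hg => norm_mem_WReg hxB hyF hBF β hβ hβB hh hg hz hzL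
  set f₀ := Algebra.norm E U with hf₀
  have hf₀mem : f₀ ∈ WReg k z (m * r) := key hh hg
  have hf₀ne : f₀ ≠ 0 := (Algebra.norm_ne_zero_iff).mpr hUne
  set S : Set E := {ψ | ψ * f₀ ∈ WReg k z (m * r)} with hS
  have hS1 : ∀ i, algebraMap B E (f i ^ m₂) ^ r ∈ S := by
    intro i
    have h1 := key (hfh i) hg
    have h2 : algebraMap B L (f i ^ m₂ * h₀ ^ m₂) * algebraMap F L (g₀ ^ m₁) * J ^ m =
        algebraMap E L (algebraMap B E (f i ^ m₂)) * U := by
      rw [hU, map_mul, ← IsScalarTower.algebraMap_apply B E L]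
      ring
    rw [h2, map_mul, Algebra.norm_algebraMap] at h1
    exact h1
  have hS2 : ∀ j (l : ℕ), Algebra.norm E (algebraMap F L (φ j ^ m₁) + algebraMap k L (l : k)) ∈ S
      := by
    intro j l
    have h0 : (φ j ^ m₁ + algebraMap k F (l : k)) * g₀ ^ m₁ ∈ WReg k yF m := by
      rw [add_mul]
      exact WReg.add (hφg j) (WReg.smul hg _)
    have h1 := key hh h0
    have h2 : algebraMap B L (h₀ ^ m₂) *
        algebraMap F L ((φ j ^ m₁ + algebraMap k F (l : k)) * g₀ ^ m₁) * J ^ m =
        (algebraMap F L (φ j ^ m₁) + algebraMap k L (l : k)) * U := by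
      rw [hU, map_mul, map_add, ← IsScalarTower.algebraMap_apply k F L]
      ring
    rw [h2, map_mul] at h1
    exact h1
  -- the algebraically independent family
  set SL : Set L := algebraMap E L '' S with hSL
  have hindep := sumElim_indep (L := L) (hdim.trans hdimL) halg hf' hφ'
  set θ : Fin (a + b) → L := (Sum.elim (fun i => algebraMap B L (f i ^ m₂))
    (fun j => algebraMap F L (φ j ^ m₁))) ∘ finSumFinEquiv.symm with hθ
  have hθind : AlgebraicIndependent k θ := hindep.comp _ finSumFinEquiv.symm.injective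
  have hθalg : ∀ i, IsAlgebraic (Algebra.adjoin k SL) (θ i) := by
    intro i
    rw [hθ]
    simp only [Function.comp_apply]
    rcases finSumFinEquiv.symm i with i' | j'
    · simp only [Sum.elim_inl]
      refine IsAlgebraic.of_pow hrpos ?_
      have hmem : algebraMap B L (f i' ^ m₂) ^ r ∈ Algebra.adjoin k SL := by
        refine Algebra.subset_adjoin ⟨_, hS1 i', ?_⟩
        rw [map_pow, ← IsScalarTower.algebraMap_apply B E L]
      exact isAlgebraic_algebraMap (⟨_, hmem⟩ : Algebra.adjoin k SL)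
    · simp only [Sum.elim_inr]
      refine isAlgebraic_of_norm (E := E) _ _ fun l => ?_
      exact Algebra.subset_adjoin ⟨_, hS2 j' l, rfl⟩
  obtain ⟨ψ, hψ, hψS⟩ := exists_indep_in_set SL θ hθind hθalg
  choose ψ' hψ'S hψ' using hψS
  have hψ'ind : AlgebraicIndependent k ψ' := by
    have h1 : (fun i => algebraMap E L (ψ' i)) = ψ := funext hψ'
    rw [← h1] at hψ
    exact (AlgHom.algebraicIndependent_iff (IsScalarTower.toAlgHom k E L)
      (algebraMap E L).injective).mp hψ
  refine KodairaGE.of_coord hzE (m := m * r) ?_ (f₀ := f₀) ?_ hf₀ne hψ'ind ?_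
  · exact Nat.one_le_iff_ne_zero.mpr (Nat.mul_ne_zero
      (Nat.mul_ne_zero (by omega) (by omega)) hrpos.ne')
  · rw [← hze]; exact WReg.reindex hf₀mem e
  · intro i
    rw [← hze]; exact WReg.reindex (hψ'S i) e

end core

end Pf72953
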