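import Mathlib
import Pool.Agent.Lib.Pf72953.Core

/-!
Forms pulled back from the base: the orbifold base.
-/

set_option linter.style.haveILetI false

open scoped WithZero TensorProduct
open KaehlerDifferential Module

namespace Pf72953

section der

variable {k B E ι : Type*} [Field k] [CharZero k] [Field B] [Field E] [Algebra k B] [Algebra k E]
  [Algebra B E] [IsScalarTower k B E] [Fintype ι]

theorem der_algebraMap_eq_sum {x : ι → B} (hx : IsTranscendenceBasis k x)
    (D : Derivation k E E) (a : B) :
    D (algebraMap B E a) = ∑ i, algebraMap B E (pd hx i a) * D (algebraMap B E (x i)) := by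
  have h := congrArg (D.compAlgebraMap B).liftKaehlerDifferential (D_eq_sum hx a)
  rw [map_sum] at h
  simpa [Derivation.liftKaehlerDifferential_comp_D, Algebra.smul_def] using h

theorem det_der_algebraMap [DecidableEq ι] {x : ι → B} (hx : IsTranscendenceBasis k x)
    (D : ι → Derivation k E E) (a : ι → B) :
    Matrix.det (Matrix.of fun i j => D i (algebraMap B E (a j))) =
      algebraMap B E (jac hx a) * Matrix.det (Matrix.of fun i j => D i (algebraMap B E (x j))) := by
  have h1 : (Matrix.of fun i j => D i (algebraMap B E (a j))) =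
      (Matrix.of fun i j => D i (algebraMap B E (x j))) *
        (Matrix.of fun i j => pd hx i (a j)).map (algebraMap B E) := by
    ext i j
    rw [Matrix.mul_apply, Matrix.of_apply, der_algebraMap_eq_sum hx]
    refine Finset.sum_congr rfl fun l _ => ?_
    simp only [Matrix.of_apply, Matrix.map_apply]
    exact mul_comm _ _
  rw [h1, Matrix.det_mul, mul_comm, jac_eq_det, RingHom.map_det]
  rfl

end der

section forms

variable {k B E : Type*} [Field k] [CharZero k] [Field B] [Field E] [Algebra k B] [Algebra k E]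
  [Algebra B E] [IsScalarTower k B E]

theorem wedge_algebraMap {x : Fin (dimension k B) → B} (hx : IsTranscendenceBasis k x)
    (a : Fin (dimension k B) → B) :
    wedge k (fun j => algebraMap B E (a j)) =
      algebraMap B E (jac hx a) • wedge k (fun j => algebraMap B E (x j)) := by
  refine AlternatingMap.ext fun D => ?_
  exact det_der_algebraMap hx D a

theorem pureForm_algebraMap {x : Fin (dimension k B) → B} (hx : IsTranscendenceBasis k x) {m : ℕ}
    (a : Fin m → Fin (dimension k B) → B) :
    pureForm k (fun i j => algebraMap B E (a i j)) =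
      algebraMap B E (∏ i, jac hx (a i)) • pureForm k (fun _ j => algebraMap B E (x j)) := by
  have h1 : pureForm k (fun i j => algebraMap B E (a i j)) =
      ptprod (fun i => algebraMap B E (jac hx (a i)) • wedge k (fun j => algebraMap B E (x j))) := by
    change ptprod (fun i => wedge k (fun j => algebraMap B E (a i j))) = _
    congr 1
    funext i
    exact wedge_algebraMap hx (a i)
  rw [h1, ptprod_smul, map_prod]
  rfl

theorem mem_baseForms {x : Fin (dimension k B) → B} (hx : IsTranscendenceBasis k x) {m : ℕ}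
    {ω : PluriForm k E (dimension k B) m} (hω : ω ∈ baseForms k B E m) :
    ∃ h : B, ω = algebraMap B E h • pureForm k (fun _ j => algebraMap B E (x j)) := by
  rw [baseForms] at hω
  induction hω using AddSubgroup.closure_induction with
  | mem ω h =>
    obtain ⟨c, a, rfl⟩ := h
    refine ⟨c * ∏ i, jac hx (a i), ?_⟩
    rw [pureForm_algebraMap hx a, smul_smul, map_mul]
  | zero => exact ⟨0, by rw [map_zero, zero_smul]⟩
  | add ω₁ ω₂ _ _ h₁ h₂ =>
    obtain ⟨h₁, rfl⟩ := h₁
    obtain ⟨h₂, rfl⟩ := h₂
    exact ⟨h₁ + h₂, by rw [map_add, add_smul]⟩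
  | neg ω _ h =>
    obtain ⟨h, rfl⟩ := h
    exact ⟨-h, by rw [map_neg, neg_smul]⟩

theorem evalPluri_algebraMap {x : Fin (dimension k B) → B} (D : Fin (dimension k B) →
    Derivation k E E) (m : ℕ) (h : B) :
    evalPluri D m (algebraMap B E h • pureForm k (fun _ j => algebraMap B E (x j))) =
      algebraMap B E h *
        (Matrix.det (Matrix.of fun i j => D i (algebraMap B E (x j)))) ^ m := by
  rw [map_smul, evalPluri_pureForm, smul_eq_mul, Finset.prod_const, Finset.card_univ,
    Fintype.card_fin]

theorem pureForm_ne_zero {x : Fin (dimension k B) → B} (hx : IsTranscendenceBasis k x) (m : ℕ) :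
    (pureForm k (fun _ j => algebraMap B E (x j)) : PluriForm k E (dimension k B) m) ≠ 0 := by
  classical
  obtain ⟨s, hs⟩ := exists_isTranscendenceBasis B E
  have hz := hx.sumElim_comp hs
  intro h0
  have h1 := congrArg (evalPluri (fun l => pd hz (Sum.inr l)) m) h0
  rw [evalPluri_pureForm, map_zero] at h1
  have h2 : (Matrix.of fun (l : Fin (dimension k B)) j => pd hz (Sum.inr l) (algebraMap B E (x j)))
      = 1 := by
    ext i j
    have h3 := pd_self hz (Sum.inr i) (Sum.inr j)
    simp only [Sum.elim_inr, Function.comp_apply, Sum.inr.injEq] at h3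
    rw [Matrix.of_apply, h3, Matrix.one_apply]
  rw [h2] at h1
  simp at h1

end forms

section extend

theorem exists_extend {k κ : Type*} [Field k] [Field κ] [Algebra k κ] {r s : ℕ} {x : Fin r → κ}
    (hx : AlgebraicIndependent k x) (hrs : ((r + s : ℕ) : Cardinal) ≤ Algebra.trdeg k κ) :
    ∃ y : Fin s → κ, AlgebraicIndependent k (Sum.elim x y) := by
  classical
  obtain ⟨T, hT, hT'⟩ := exists_isTranscendenceBasis_superset (R := k) (s := Set.range x)
    hx.to_subtype_range
  rw [← hT'.cardinalMk_eq_trdeg] at hrs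
  have h1 := Cardinal.mk_diff_add_mk hT
  have h2 : Cardinal.mk (Set.range x) = r := by
    have := Cardinal.mk_range_eq_of_injective hx.injective
    simpa using this
  rw [← h1, h2, Nat.cast_add, add_comm (r : Cardinal),
    Cardinal.add_le_add_iff_of_lt_aleph0 Cardinal.natCast_lt_aleph0] at hrs
  have h3 : Cardinal.lift (Cardinal.mk (Fin s)) ≤
      Cardinal.lift (Cardinal.mk (T \ Set.range x : Set κ)) := by
    simpa using hrs
  rw [Cardinal.lift_mk_le'] at h3
  obtain ⟨f⟩ := h3
  let g : Fin r ⊕ Fin s → T := Sum.elim (fun i => ⟨x i, hT ⟨i, rfl⟩⟩) (fun j => ⟨f j, (f j).2.1⟩)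
  have hg : Function.Injective g := by
    rintro (i | i) (j | j) hij
    · have : x i = x j := congrArg (fun a : T => (a : κ)) hij
      rw [hx.injective this]
    · have : x i = f j := congrArg (fun a : T => (a : κ)) hij
      exact absurd ⟨i, this⟩ (f j).2.2
    · have : (f i : κ) = x j := congrArg (fun a : T => (a : κ)) hij
      exact absurd ⟨j, this.symm⟩ (f i).2.2
    · have : (f i : κ) = f j := congrArg (fun a : T => (a : κ)) hij
      rw [f.injective (Subtype.ext this)]
  refine ⟨fun j => f j, ?_⟩
  have h4 := hT'.1.comp g hg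
  convert h4 using 1
  funext i
  rcases i with i | i <;> rfl

theorem IsDivisorial.exists_extend {k E : Type*} [Field k] [Field E] [Algebra k E]
    {v : Valuation E ℤᵐ⁰} (hv : IsDivisorial k E v) {r s : ℕ} {x : Fin r → E}
    (hx : ResIndep k v x) (hrs : r + s = dimension k E - 1) :
    ∃ y : Fin s → E, ResIndep k v (Sum.elim x y) := by
  classical
  have hkE : ∀ c : k, algebraMap k E c ∈ v.valuationSubring := by
    intro c
    rcases eq_or_ne c 0 with rfl | hc
    · simp
    · exact (hv.const c hc).le
  letI algE : Algebra k v.valuationSubring :=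
    ((algebraMap k E).codRestrict v.valuationSubring hkE).toAlgebra
  haveI : IsScalarTower k v.valuationSubring E := IsScalarTower.of_algebraMap_eq fun _ => rfl
  obtain ⟨ξ, hξ⟩ := hv.resid
  have hξ' : ResIndep k v ξ := hξ
  have hmem : ∀ i, ξ i ∈ v.valuationSubring := fun i => (hξ'.apply i).le
  have hξ'' := (resIndep_iff v (fun i => (⟨ξ i, hmem i⟩ : v.valuationSubring))).mp hξ'
  have hL := natCast_le_trdeg_of_le_dimension hξ''
  rw [← hrs] at hL
  have hxm : ∀ i, x i ∈ v.valuationSubring := fun i => (hx.apply i).le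
  have hx'' := (resIndep_iff v (fun i => (⟨x i, hxm i⟩ : v.valuationSubring))).mp hx
  obtain ⟨y, hy⟩ := Pf72953.exists_extend hx'' hL
  choose z hz using fun i => IsLocalRing.residue_surjective (y i)
  refine ⟨fun i => (z i : E), ?_⟩
  have hfun : (fun i => IsLocalRing.residue v.valuationSubring
      (Sum.elim (fun i => (⟨x i, hxm i⟩ : v.valuationSubring)) z i)) =
      Sum.elim (fun i => IsLocalRing.residue v.valuationSubring ⟨x i, hxm i⟩) y := by
    funext i
    rcases i with i | i
    · rfl
    · exact hz i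
  have h1 := (resIndep_iff v (Sum.elim (fun i => (⟨x i, hxm i⟩ : v.valuationSubring)) z)).mpr (by
    rw [hfun]
    exact hy)
  convert h1 using 1
  funext i
  rcases i with i | i <;> rfl

end extend

section unif

variable {K : Type*} [Field K]

theorem IsUnif.exists_pow {w : Valuation K ℤᵐ⁰} {t : K} (ht : IsUnif w t) {a : K} (ha : a ≠ 0)
    (h1 : w a ≤ 1) : ∃ e : ℕ, w a = w t ^ e := by
  have ha' : w a ≠ 0 := (Valuation.ne_zero_iff w).mpr ha
  have ht' : w t ≠ 0 := (Valuation.ne_zero_iff w).mpr ht.ne_zero
  obtain ⟨α, hα⟩ : ∃ α : ℤ, w a = WithZero.exp (-α) :=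
    ⟨-WithZero.log (w a), by rw [neg_neg, WithZero.exp_log ha']⟩
  obtain ⟨τ, hτ⟩ : ∃ τ : ℤ, w t = WithZero.exp (-τ) :=
    ⟨-WithZero.log (w t), by rw [neg_neg, WithZero.exp_log ht']⟩
  have hα0 : 0 ≤ α := by
    rw [hα, ← WithZero.exp_zero, WithZero.exp_le_exp] at h1
    omega
  have hτ0 : 0 < τ := by
    have := ht.lt_one
    rw [hτ, ← WithZero.exp_zero, WithZero.exp_lt_exp] at this
    omega
  obtain ⟨e, he⟩ : ∃ e : ℕ, (e : ℤ) = α / τ :=
    ⟨(α / τ).toNat, Int.toNat_of_nonneg (Int.ediv_nonneg hα0 hτ0.le)⟩
  have hpow : ∀ n : ℕ, w t ^ n = WithZero.exp (-(n * τ)) := by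
    intro n
    rw [hτ, ← WithZero.exp_nsmul]
    congr 1
    simp
  refine ⟨e, ?_⟩
  have h2 : w (a / t ^ e) = WithZero.exp (-(α - e * τ)) := by
    rw [map_div₀, map_pow, hpow, hα, ← WithZero.exp_sub]
    congr 1
    ring
  have h3 : 0 ≤ α - e * τ := by
    rw [he]
    have := Int.emod_nonneg α hτ0.ne'
    have h4 := Int.emod_add_mul_ediv α τ
    nlinarith
  have h5 : α - e * τ < τ := by
    rw [he]
    have := Int.emod_lt_of_pos α hτ0
    have h4 := Int.emod_add_mul_ediv α τ
    nlinarith
  rcases h3.eq_or_lt with h | h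
  · rw [hpow, hα]
    congr 1
    omega
  · exfalso
    have h6 : w (a / t ^ e) < 1 := by
      rw [h2, ← WithZero.exp_zero, WithZero.exp_lt_exp]
      omega
    have h7 := ht.le _ h6
    rw [h2, hτ, WithZero.exp_le_exp] at h7
    omega

theorem IsUnif.val_der {k : Type*} [Field k] [Algebra k K] {w : Valuation K ℤᵐ⁰} {t : K}
    (ht : IsUnif w t) (D : Derivation k K K) (hD : ∀ a, w a ≤ 1 → w (D a) ≤ 1) (hDt : D t = 1)
    (hnat : ∀ n : ℕ, n ≠ 0 → w (n : K) = 1) {a : K} (ha : a ≠ 0) (h1 : w a < 1) :
    w a ≤ w t * w (D a) := by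
  have ht' : w t ≠ 0 := (Valuation.ne_zero_iff w).mpr ht.ne_zero
  have htpos : 0 < w t := zero_lt_iff.mpr ht'
  obtain ⟨e, he⟩ := ht.exists_pow ha h1.le
  have he0 : e ≠ 0 := by
    rintro rfl
    rw [pow_zero] at he
    exact h1.ne he
  obtain ⟨n, rfl⟩ := Nat.exists_eq_succ_of_ne_zero he0
  set u := a / t ^ (n + 1) with hu
  have hau : a = t ^ (n + 1) * u := by
    rw [hu]
    have := ht.ne_zero
    field_simp
  have hwu : w u = 1 := by
    rw [hu, map_div₀, map_pow, he]
    exact div_self (pow_ne_zero _ ht')
  have h2 : D a = ((n + 1 : ℕ) : K) * t ^ n * u + t ^ (n + 1) * D u := by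
    rw [hau, Derivation.leibniz, Derivation.leibniz_pow, hDt]
    simp only [smul_eq_mul, nsmul_eq_mul, Nat.add_sub_cancel]
    push_cast
    ring
  have h3 : w (((n + 1 : ℕ) : K) * t ^ n * u) = w t ^ n := by
    rw [map_mul, map_mul, hnat _ (Nat.succ_ne_zero n), hwu, map_pow, one_mul, mul_one]
  have h4 : w (t ^ (n + 1) * D u) < w t ^ n := by
    rw [map_mul, map_pow, pow_succ]
    have h5 := hD u hwu.le
    calc w t ^ n * w t * w (D u) ≤ w t ^ n * w t * 1 := by gcongr
      _ = w t ^ n * w t := mul_one _
      _ < w t ^ n * 1 := by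
        refine mul_lt_mul_of_pos_left ht.lt_one (pow_pos htpos n)
      _ = w t ^ n := mul_one _
  rw [h2, Valuation.map_add_eq_of_lt_left w (by rw [h3]; exact h4), h3, he, pow_succ, mul_comm]

end unif

section main

variable {k B E : Type*} [Field k] [CharZero k] [Field B] [Field E] [Algebra k B] [Algebra k E]
  [Algebra B E] [IsScalarTower k B E] [Algebra.EssFiniteType k B] [Algebra.EssFiniteType k E]

theorem mem_WOrb_of_regularAt {x : Fin (dimension k B) → B} (hx : IsTranscendenceBasis k x)
    {m : ℕ} {h : B}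
    (hh : ∀ w : Valuation E ℤᵐ⁰, IsDivisorial k E w →
      algebraMap B E h • pureForm k (fun _ j => algebraMap B E (x j)) ∈
        regularAt k (dimension k B) m w) :
    h ∈ WOrb k E x m := by
  classical
  intro v hv hnt t ht
  set vB := v.comap (algebraMap B E) with hvB
  have hB : IsDivisorial k B vB := hv.restrict hnt
  obtain ⟨cB, tB, htB, hcB⟩ := hB.exists_adapted (ι := Fin (dimension k B)) (Fintype.card_fin _)
  have hlog := hcB.logBasis (Fintype.card_fin _)
  have hprod := hcB.prod
  refine ⟨cB, hlog, ?_⟩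
  -- the extended system
  obtain ⟨r, e, ξ, hξ, htB0, htB1, hcBeq⟩ := hcB
  have hcardr : dimension k B = r + 1 := by
    have := Fintype.card_congr e
    simpa using this
  have hξE : ResIndep k v (fun i => algebraMap B E (ξ i)) := by
    intro p hp
    have h1 := hξ p hp
    rw [hvB, Valuation.comap_apply] at h1
    rw [← h1]
    congr 1
    exact MvPolynomial.aeval_algebraMap_apply _ ξ p
  have hnpos : 1 ≤ dimension k E := by
    obtain ⟨c, t', ht', r', e', -⟩ := hv.exists_adapted (ι := Fin (dimension k E))
      (Fintype.card_fin _)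
    have := Fintype.card_congr e'
    simp at this
    omega
  have hle : dimension k B ≤ dimension k E := by
    have h1 : AlgebraicIndependent k (fun i => algebraMap B E (x i)) :=
      hx.1.map' (f := IsScalarTower.toAlgHom k B E) (algebraMap B E).injective
    have h2 := natCast_le_trdeg_of_le_dimension h1
    rw [← trdeg_eq_dimension] at h2
    exact_mod_cast h2
  obtain ⟨s, hs⟩ : ∃ s, r + s = dimension k E - 1 := ⟨dimension k E - 1 - r, by omega⟩
  obtain ⟨y, hy⟩ := hv.exists_extend hξE hs
  set c : Option (Fin r ⊕ Fin s) → E := fun o => o.elim t (Sum.elim (fun i => algebraMap B E (ξ i))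
    y) with hc
  have hadapt : Adapted k v c t := by
    refine ⟨r + s, Equiv.optionCongr finSumFinEquiv, (Sum.elim (fun i => algebraMap B E (ξ i))
      y) ∘ finSumFinEquiv.symm, ?_, ht.ne_zero, ht.lt_one, ?_⟩
    · intro p hp
      have h1 := hy (MvPolynomial.rename finSumFinEquiv.symm p) (by
        intro h0
        exact hp ((MvPolynomial.rename_injective _ finSumFinEquiv.symm.injective) (by
          rw [h0, map_zero])))
      rw [MvPolynomial.aeval_rename] at h1
      exact h1
    · funext o
      rcases o with _ | o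
      · rfl
      · simp [hc]
  have hcard : Fintype.card (Option (Fin r ⊕ Fin s)) = dimension k E := by
    simp
    omega
  have hreg := hadapt.regBasis hcard ht
  -- the derivations
  set emb : Fin (dimension k B) → Option (Fin r ⊕ Fin s) := fun i => (e i).map Sum.inl with hemb
  have hembinj : Function.Injective emb :=
    (Option.map_injective Sum.inl_injective).comp e.injective
  set D : Fin (dimension k B) → Derivation k E E := fun i => pd hreg.tb (emb i) with hD
  have hDreg : ∀ i a, v a ≤ 1 → v (D i a) ≤ 1 := fun i a ha => hreg.der _ a ha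
  set j₀ : Fin (dimension k B) := e.symm none with hj₀
  have hej₀ : e j₀ = none := by simp [hj₀]
  have hmat : (Matrix.of fun i j => D i (algebraMap B E (cB j))) =
      Matrix.updateCol 1 j₀ (fun i => D i (algebraMap B E tB)) := by
    ext i j
    rw [Matrix.of_apply, Matrix.updateCol_apply]
    split_ifs with hj
    · rw [hj, hcBeq]
      simp only [Function.comp_apply, hej₀, Option.elim_none]
    · obtain ⟨l, hl⟩ : ∃ l, e j = some l := by
        rcases h : e j with _ | l
        · exact absurd (e.injective (h.trans hej₀.symm)) hj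
        · exact ⟨l, rfl⟩
      have h1 : algebraMap B E (cB j) = c (emb j) := by
        rw [hcBeq, hemb]
        simp only [Function.comp_apply, hl, Option.elim_some, Option.map_some, hc, Sum.elim_inl]
      rw [h1, hD]
      simp only
      rw [pd_self, Matrix.one_apply]
      simp only [hembinj.eq_iff]
  have hdet : Matrix.det (Matrix.of fun i j => D i (algebraMap B E (cB j))) =
      D j₀ (algebraMap B E tB) := by
    rw [hmat, ← Matrix.cramer_apply, Matrix.cramer_one]
    rfl
  have hDt : D j₀ t = 1 := by
    have h1 : t = c none := rfl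
    have h2 : emb j₀ = none := by simp [hemb, hej₀]
    rw [hD]
    simp only
    rw [h2, h1, pd_self]
    simp
  have hder : v (algebraMap B E tB) ≤ v t * v (D j₀ (algebraMap B E tB)) := by
    refine ht.val_der (D j₀) (hDreg j₀) hDt ?_ (by simpa using htB0) htB1
    intro n hn
    have h1 := hv.const (n : k) (by exact_mod_cast hn)
    rwa [map_natCast] at h1
  have hmain := evalPluri_regularAt D hDreg (hh v hv)
  rw [evalPluri_algebraMap, det_der_algebraMap hlog.tb D x, hdet] at hmain
  have hprod' : ∏ i, v (algebraMap B E (cB i)) = v (algebraMap B E tB) := hprod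
  rw [hprod']
  calc v (algebraMap B E h) * (v (algebraMap B E (jac hlog.tb x)) * v (algebraMap B E tB)) ^ m
      ≤ v (algebraMap B E h) * (v (algebraMap B E (jac hlog.tb x)) *
        (v t * v (D j₀ (algebraMap B E tB)))) ^ m := by gcongr
    _ = v t ^ m * v (algebraMap B E h *
        (algebraMap B E (jac hlog.tb x) * D j₀ (algebraMap B E tB)) ^ m) := by
      rw [map_mul, map_pow, map_mul, mul_left_comm (v (algebraMap B E (jac hlog.tb x))) (v t),
        mul_pow (v t), mul_left_comm]
    _ ≤ v t ^ m * 1 := by gcongr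
    _ = v t ^ m := mul_one _

theorem OrbKodairaGE.orbCoord {a : ℕ} (h : OrbKodairaGE k B E a) : OrbCoord k B E a := by
  obtain ⟨x, hx⟩ := exists_tb k B
  obtain ⟨m, hm, ω₀, ⟨hω₀, hreg⟩, hne, f, hf, hff⟩ := h
  obtain ⟨h₀, rfl⟩ := mem_baseForms hx hω₀
  refine ⟨x, hx, m, hm, h₀, mem_WOrb_of_regularAt hx hreg, ?_, f, hf, fun i => ?_⟩
  · rintro rfl
    apply hne
    rw [map_zero, zero_smul]
  · refine mem_WOrb_of_regularAt hx fun w hw => ?_
    have := (hff i).2 w hw
    rwa [smul_smul, ← map_mul] at this

/-- regular forms on the base pull back to regular forms -/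
theorem mem_orbPluricanonical {x : Fin (dimension k B) → B} (hx : IsTranscendenceBasis k x)
    {m : ℕ} {h : B} (hh : h ∈ WReg k x m) :
    algebraMap B E h • pureForm k (fun _ j => algebraMap B E (x j)) ∈
      orbPluricanonical k B E m := by
  classical
  refine ⟨AddSubgroup.subset_closure ⟨h, fun _ => x, rfl⟩, fun w hw => ?_⟩
  by_cases hnt : ∃ a : B, a ≠ 0 ∧ w (algebraMap B E a) ≠ 1
  · have hB : IsDivisorial k B (w.comap (algebraMap B E)) := hw.restrict hnt
    obtain ⟨cB, tB, htB, hcB⟩ := hB.exists_adapted (ι := Fin (dimension k B)) (Fintype.card_fin _)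
    have hreg := hcB.regBasis (Fintype.card_fin _) htB
    have h1 := hh _ hB cB hreg
    have h2 : pureForm k (fun (_ : Fin m) j => algebraMap B E (x j)) =
        algebraMap B E (jac hreg.tb x ^ m) •
          pureForm k (fun (_ : Fin m) j => algebraMap B E (cB j)) := by
      have := pureForm_algebraMap (E := E) hreg.tb (m := m) (fun _ => x)
      rw [Finset.prod_const, Finset.card_univ, Fintype.card_fin] at this
      exact this
    rw [h2, smul_smul]
    refine AddSubgroup.subset_closure ⟨_, _, ?_, fun _ j => hreg.le_one j, rfl⟩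
    rw [← map_mul, ← Valuation.comap_apply, map_mul, map_pow]
    exact h1
  · push Not at hnt
    have hone : ∀ a : B, w (algebraMap B E a) ≤ 1 := by
      intro a
      rcases eq_or_ne a 0 with rfl | ha
      · simp
      · exact (hnt a ha).le
    exact AddSubgroup.subset_closure ⟨_, _, hone h, fun _ j => hone (x j), rfl⟩

/-- the Kodaira dimension of the orbifold base is at least that of the base -/
theorem KodairaGE.orb {a : ℕ} (h : KodairaGE k B a) : OrbKodairaGE k B E a := by
  obtain ⟨x, hx⟩ := exists_tb k B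
  obtain ⟨m, hm, f₀, hf₀, hne, f, hf, hff⟩ := h.exists_coord hx
  refine ⟨m, hm, _, mem_orbPluricanonical hx hf₀, ?_, f, hf, fun i => ?_⟩
  · exact smul_ne_zero (by simpa using hne) (pureForm_ne_zero hx m)
  · rw [smul_smul, ← map_mul]
    exact mem_orbPluricanonical hx (hff i)

end main

section sup

variable {k B E : Type*} [Field k] [Field B] [Field E] [Algebra k B] [Algebra k E] [Algebra B E]
  [FinTrdeg k B]

theorem OrbKodairaGE.le_dimension {c : ℕ} (h : OrbKodairaGE k B E c) : c ≤ dimension k B := by
  obtain ⟨m, hm, ω₀, hω₀, hne, f, hf, hfω⟩ := h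
  have h1 := natCast_le_trdeg_of_le_dimension hf
  rw [← trdeg_eq_dimension] at h1
  exact_mod_cast h1

theorem orbKodairaDim_eq : orbKodairaDim k B E = ⊥ ∨
    ∃ c : ℕ, OrbKodairaGE k B E c ∧ orbKodairaDim k B E = ((c : ℕ∞) : WithBot ℕ∞) := by
  classical
  by_cases h : ∃ c, OrbKodairaGE k B E c
  · right
    obtain ⟨c₀, hc₀⟩ := h
    have hbd : ∀ c, OrbKodairaGE k B E c → c ≤ dimension k B := fun c hc => hc.le_dimension
    set c := Nat.findGreatest (fun c => OrbKodairaGE k B E c) (dimension k B) with hc
    have hcGE : OrbKodairaGE k B E c := Nat.findGreatest_spec (P := fun c => OrbKodairaGE k B E c)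
      (hbd c₀ hc₀) hc₀
    refine ⟨c, hcGE, le_antisymm ?_ ?_⟩
    · refine iSup₂_le fun d hd => ?_
      have : d ≤ c := Nat.le_findGreatest (hbd d hd) hd
      exact_mod_cast this
    · exact le_iSup₂_of_le c hcGE le_rfl
  · left
    push Not at h
    rw [orbKodairaDim]
    refine le_antisymm (iSup₂_le fun c hc => absurd hc (h c)) bot_le

end sup

end Pf72953
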