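import Mathlib
import Pool.Agent.Lib.Pf72953.Core

/-!
Reduction of the general statement to a finite Galois base change, and the supremum.
-/

set_option linter.style.haveILetI false

open scoped WithZero
open Polynomial

namespace Pf72953

section reduction

variable {k B F E Ω : Type*} [Field k] [CharZero k] [Field B] [Field F] [Field E] [Field Ω]
  [IsAlgClosed Ω] [Algebra k B] [Algebra k F] [Algebra k E] [Algebra B E] [IsScalarTower k B E]
  [Algebra k Ω] [Algebra B Ω] [Algebra E Ω] [IsScalarTower k B Ω] [IsScalarTower k E Ω]
  [IsScalarTower B E Ω]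
  [Algebra.EssFiniteType k B] [Algebra.EssFiniteType k F] [Algebra.EssFiniteType k E]

omit [CharZero k] [Algebra k B] [IsScalarTower k B E] [Algebra.EssFiniteType k B]
  [Algebra.EssFiniteType k E] [IsScalarTower k B Ω] [IsScalarTower B E Ω] [Algebra B E]
  [IsAlgClosed Ω] in
/-- finitely many elements of `B̄` suffice -/
theorem exists_finset_generators (j : F →ₐ[k] Ω)
    (hj : ∀ y : F, j y ∈ IntermediateField.adjoin E
      ((algebraicClosure B Ω : IntermediateField B Ω) :
        Set Ω)) :
    ∃ S : Finset Ω, (∀ s ∈ S, IsAlgebraic B s) ∧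
      ∀ y : F, j y ∈ IntermediateField.adjoin E (S : Set Ω) := by
  classical
  obtain ⟨T, hT⟩ := IntermediateField.fg_top k F
  choose s hs hs' using fun y : F => IntermediateField.exists_finset_of_mem_adjoin (hj y)
  refine ⟨T.biUnion s, ?_, ?_⟩
  · intro a ha
    rw [Finset.mem_biUnion] at ha
    obtain ⟨y, _, hy⟩ := ha
    have := hs y hy
    exact mem_algebraicClosure_iff.mp this
  · set M := IntermediateField.adjoin E ((T.biUnion s : Finset Ω) :
      Set Ω) with hM
    have h1 : IntermediateField.adjoin k (T : Set F) ≤ (M.restrictScalars k).comap j := by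
      rw [IntermediateField.adjoin_le_iff]
      intro y hy
      change j y ∈ M
      refine IntermediateField.adjoin.mono E _ _ ?_ (hs' y)
      intro a ha
      exact Finset.mem_coe.mpr (Finset.mem_biUnion.mpr ⟨y, hy, ha⟩)
    rw [hT] at h1
    intro y
    exact h1 (IntermediateField.mem_top : y ∈ (⊤ : IntermediateField k F))

/-- **Reduction.** -/
theorem KodairaGE.of_geometric
    (hdim : dimension k B + dimension k F = dimension k E)
    (j : F →ₐ[k] Ω)
    (hj : ∀ y : F, j y ∈ IntermediateField.adjoin E
      ((algebraicClosure B Ω : IntermediateField B Ω) :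
        Set Ω))
    (halg : Algebra.IsAlgebraic (IntermediateField.adjoin k
      (Set.range (algebraMap B Ω) ∪ Set.range j)) Ω)
    {a b : ℕ} (ha : OrbCoord k B E a) (hb : KodairaGE k F b) : KodairaGE k E (a + b) := by
  classical
  obtain ⟨S, hS, hjS⟩ := exists_finset_generators j hj
  haveI : CharZero B := charZero_of_injective_algebraMap (algebraMap k B).injective
  haveI : CharZero E := charZero_of_injective_algebraMap (algebraMap k E).injective
  -- the splitting polynomial
  set p : B[X] := ∏ s ∈ S, minpoly B s with hp
  have hpmonic : p.Monic := monic_prod_of_monic _ _ fun s hs => minpoly.monic (hS s hs).isIntegral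
  have hroot : ∀ s ∈ S, s ∈ p.rootSet Ω := by
    intro s hs
    rw [mem_rootSet]
    refine ⟨hpmonic.ne_zero, ?_⟩
    rw [hp, map_prod]
    exact Finset.prod_eq_zero hs (minpoly.aeval B s)
  haveI hB₁ : IsSplittingField B (IntermediateField.adjoin B (p.rootSet Ω)) p :=
    IntermediateField.adjoin_rootSet_isSplittingField (IsAlgClosed.splits _)
  haveI : FiniteDimensional B (IntermediateField.adjoin B (p.rootSet Ω)) :=
    IsSplittingField.finiteDimensional _ p
  obtain ⟨β₁, hβ₁⟩ := Field.exists_primitive_element B (IntermediateField.adjoin B (p.rootSet Ω))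
  set q : E[X] := p.map (algebraMap B E) with hq
  have hrootq : q.rootSet Ω = p.rootSet Ω := by
    ext s
    rw [mem_rootSet, mem_rootSet, hq, aeval_map_algebraMap]
    simp [hpmonic.ne_zero]
  set L := IntermediateField.adjoin E (q.rootSet Ω) with hL
  haveI hLsplit : IsSplittingField E L q :=
    IntermediateField.adjoin_rootSet_isSplittingField (IsAlgClosed.splits _)
  haveI : FiniteDimensional E L := IsSplittingField.finiteDimensional _ q
  haveI : Normal E L := Normal.of_isSplittingField q
  haveI : IsGalois E L := ⟨⟩
  haveI tBLΩ : IsScalarTower B L Ω := IsScalarTower.of_algebraMap_eq fun b => rfl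
  haveI tkLΩ : IsScalarTower k L Ω := IsScalarTower.of_algebraMap_eq fun b => rfl
  haveI tkBL : IsScalarTower k B L := IsScalarTower.of_algebraMap_eq fun c => Subtype.ext (by
    change algebraMap k Ω c = algebraMap B Ω (algebraMap k B c)
    rw [← IsScalarTower.algebraMap_apply k B Ω])
  haveI tkEL : IsScalarTower k E L := IsScalarTower.of_algebraMap_eq fun c => Subtype.ext (by
    change algebraMap k Ω c = algebraMap E Ω (algebraMap k E c)
    rw [← IsScalarTower.algebraMap_apply k E Ω])
  haveI tBEL : IsScalarTower B E L := IsScalarTower.of_algebraMap_eq fun c => Subtype.ext (by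
    change algebraMap B Ω c = algebraMap E Ω (algebraMap B E c)
    rw [← IsScalarTower.algebraMap_apply B E Ω])
  -- the primitive element
  have hβmem : ((β₁ : IntermediateField.adjoin B (p.rootSet Ω)) : Ω) ∈ L := by
    have h1 : IntermediateField.adjoin B (p.rootSet Ω) ≤ L.restrictScalars B := by
      rw [IntermediateField.adjoin_le_iff]
      intro s hs
      rw [← hrootq] at hs
      exact IntermediateField.subset_adjoin E _ hs
    exact h1 β₁.2
  set β : L := ⟨(β₁ : Ω), hβmem⟩ with hβ
  have hβB : IsIntegral B β := by
    have h1 : IsIntegral B β₁ := Algebra.IsIntegral.isIntegral β₁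
    have h2 : IsIntegral B (β₁ : Ω) := h1.map (IntermediateField.val _)
    have h3 : IsIntegral B ((IsScalarTower.toAlgHom B L Ω) β) := h2
    exact (isIntegral_algHom_iff (IsScalarTower.toAlgHom B L Ω)
      (algebraMap L Ω).injective).mp h3
  have hβtop : IntermediateField.adjoin E {β} = ⊤ := by
    have h1 : L ≤ IntermediateField.adjoin E {(β₁ : Ω)} := by
      rw [hL, IntermediateField.adjoin_le_iff, hrootq]
      intro s hs
      have h2 : IntermediateField.adjoin B (p.rootSet Ω) ≤
          (IntermediateField.adjoin E {(β₁ : Ω)}).restrictScalars B := by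
        have h3 : IntermediateField.adjoin B {(β₁ : Ω)} =
            IntermediateField.adjoin B (p.rootSet Ω) := by
          have h4 := congrArg (IntermediateField.map (IntermediateField.val
            (IntermediateField.adjoin B (p.rootSet Ω)))) hβ₁
          rw [IntermediateField.adjoin_map, Set.image_singleton,
            ← AlgHom.fieldRange_eq_map, IntermediateField.fieldRange_val] at h4
          exact h4
        refine h3.symm.le.trans ?_
        rw [IntermediateField.adjoin_le_iff, Set.singleton_subset_iff]
        exact IntermediateField.subset_adjoin E _ (Set.mem_singleton _)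
      exact h2 (IntermediateField.subset_adjoin B _ hs)
    have h5 : IntermediateField.map L.val (IntermediateField.adjoin E {β}) =
        IntermediateField.map L.val ⊤ := by
      rw [IntermediateField.adjoin_map, Set.image_singleton,
        ← AlgHom.fieldRange_eq_map, IntermediateField.fieldRange_val]
      refine le_antisymm ?_ h1
      rw [IntermediateField.adjoin_le_iff, Set.singleton_subset_iff]
      exact hβmem
    exact IntermediateField.map_injective L.val h5
  -- the algebra structure `F → L`
  have hjL : ∀ y : F, j y ∈ L := by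
    intro y
    refine IntermediateField.adjoin.mono E _ _ ?_ (hjS y)
    intro s hs
    rw [hrootq]
    exact hroot s hs
  let jL : F →+* L := (j : F →+* Ω).codRestrict L.toSubalgebra.toSubring hjL
  letI : Algebra F L := jL.toAlgebra
  haveI : IsScalarTower k F L := IsScalarTower.of_algebraMap_eq fun c => Subtype.ext (by
    change algebraMap k Ω c = j (algebraMap k F c)
    rw [AlgHom.commutes])
  haveI : Algebra.EssFiniteType k L := Algebra.EssFiniteType.comp k E L
  -- algebraicity
  have halgL : ∀ c : L, IsAlgebraic (Algebra.adjoin k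
      (Set.range (algebraMap B L) ∪ Set.range (algebraMap F L))) c := by
    intro c
    have h1 : IsAlgebraic (Algebra.adjoin k
        (Set.range (algebraMap B Ω) ∪ Set.range j)) (algebraMap L Ω c) := by
      rw [← IntermediateField.isAlgebraic_adjoin_iff]
      exact halg.isAlgebraic _
    have h2 : (Algebra.adjoin k (Set.range (algebraMap B L) ∪ Set.range (algebraMap F L))).map
        (IsScalarTower.toAlgHom k L Ω) = Algebra.adjoin k
        (Set.range (algebraMap B Ω) ∪ Set.range j) := by
      rw [AlgHom.map_adjoin, Set.image_union, ← Set.range_comp, ← Set.range_comp]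
      rfl
    have h3 : ∀ d : Algebra.adjoin k (Set.range (algebraMap B L) ∪ Set.range (algebraMap F L)),
        algebraMap L Ω (d : L) ∈ Algebra.adjoin k
        (Set.range (algebraMap B Ω) ∪ Set.range j) := by
      intro d
      rw [← h2]
      exact ⟨d, d.2, rfl⟩
    let f : Algebra.adjoin k (Set.range (algebraMap B L) ∪ Set.range (algebraMap F L)) →+*
        Algebra.adjoin k (Set.range (algebraMap B Ω) ∪ Set.range j) :=
      ((algebraMap L Ω).comp (Algebra.adjoin k (Set.range (algebraMap B L) ∪
        Set.range (algebraMap F L))).val.toRingHom).codRestrict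
        (Algebra.adjoin k (Set.range (algebraMap B Ω) ∪ Set.range j)).toSubring h3
    refine IsAlgebraic.of_ringHom_of_comp_eq f (algebraMap L Ω) h1 ?_ (algebraMap L Ω).injective
      rfl
    rintro ⟨d, hd⟩
    rw [← h2] at hd
    obtain ⟨d', hd', hdd⟩ := hd
    exact ⟨⟨d', hd'⟩, Subtype.ext hdd⟩
  exact KodairaGE.core (L := L) hdim halgL β hβtop hβB ha hb

end reduction

section sup

variable {k K : Type*} [Field k] [Field K] [Algebra k K] [FinTrdeg k K]

theorem KodairaGE.le_dimension {c : ℕ} (h : KodairaGE k K c) : c ≤ dimension k K := by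
  obtain ⟨m, hm, ω₀, hω₀, hne, f, hf, hfω⟩ := h
  have h1 := natCast_le_trdeg_of_le_dimension hf
  rw [← trdeg_eq_dimension] at h1
  exact_mod_cast h1

theorem kodairaDim_eq : kodairaDim k K = ⊥ ∨
    ∃ c : ℕ, KodairaGE k K c ∧ kodairaDim k K = ((c : ℕ∞) : WithBot ℕ∞) := by
  classical
  by_cases h : ∃ c, KodairaGE k K c
  · right
    obtain ⟨c₀, hc₀⟩ := h
    have hbd : ∀ c, KodairaGE k K c → c ≤ dimension k K := fun c hc => hc.le_dimension
    set c := Nat.findGreatest (fun c => KodairaGE k K c) (dimension k K) with hc
    have hcGE : KodairaGE k K c := Nat.findGreatest_spec (P := fun c => KodairaGE k K c)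
      (hbd c₀ hc₀) hc₀
    refine ⟨c, hcGE, le_antisymm ?_ ?_⟩
    · refine iSup₂_le fun d hd => ?_
      have : d ≤ c := Nat.le_findGreatest (hbd d hd) hd
      exact_mod_cast this
    · exact le_iSup₂_of_le c hcGE le_rfl
  · left
    push Not at h
    rw [kodairaDim]
    refine le_antisymm (iSup₂_le fun c hc => absurd hc (h c)) bot_le

end sup

end Pf72953
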